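import Pool.Agent.H53.GG.Defs

/-!
# Reducible configurations

`F` has minimum degree at least two; light: degree 2, heavy: degree at least 3 (in `F`); `hh` is the
number of heavy neighbours. Each of the following gives a step: two adjacent light vertices; a heavy
vertex with at most one heavy neighbour; (otherwise) two adjacent heavy vertices with exactly two
heavy neighbours each; (otherwise) a heavy vertex all of whose heavy neighbours have exactly two
heavy neighbours.
-/

set_option autoImplicit false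

namespace Pool.Agent.H53.GG

open Finset

open Classical in
/-- number of heavy neighbours -/
noncomputable def hh {V : Type} (H : SimpleGraph V) (F : Finset V) (a : V) : ℕ :=
  (F.filter fun w => H.Adj a w ∧ 3 ≤ dg H F w).card

section

variable {V : Type} {H : SimpleGraph V} {F : Finset V}

theorem two_of (hmin : ∀ v ∈ F, 2 ≤ dg H F v) :
    ∀ a ∈ (F : Set V), ∃ c ∈ (F : Set V), ∃ d ∈ (F : Set V), c ≠ d ∧ H.Adj a c ∧ H.Adj a d := by
  classical
  intro a ha
  have h := hmin a (by exact_mod_cast ha)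
  unfold dg at h
  obtain ⟨c, hc, d, hd, hcd⟩ := Finset.one_lt_card.1 (show 1 < _ from h)
  rw [mem_filter] at hc hd
  exact ⟨c, by exact_mod_cast hc.1, d, by exact_mod_cast hd.1, hcd, hc.2, hd.2⟩

/-- the other neighbour of a light vertex -/
theorem light_other {b : V} (hb : dg H F b = 2) {v : V} (hv : v ∈ F) (hbv : H.Adj b v) :
    ∃ x ∈ F, x ≠ v ∧ H.Adj b x ∧ ∀ w ∈ F, H.Adj b w → w = v ∨ w = x := by
  classical
  unfold dg at hb
  obtain ⟨c, d, hcd, h⟩ := Finset.card_eq_two.1 hb
  have hm : ∀ w, (w ∈ F ∧ H.Adj b w) ↔ (w = c ∨ w = d) := by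
    intro w
    have h1 := Finset.ext_iff.1 h w
    rw [mem_filter, mem_insert, mem_singleton] at h1
    exact h1
  rcases (hm v).1 ⟨hv, hbv⟩ with rfl | rfl
  · have h2 := (hm d).2 (Or.inr rfl)
    exact ⟨d, h2.1, Ne.symm hcd, h2.2, fun w hw h3 => (hm w).1 ⟨hw, h3⟩⟩
  · have h2 := (hm c).2 (Or.inl rfl)
    exact ⟨c, h2.1, hcd, h2.2, fun w hw h3 => ((hm w).1 ⟨hw, h3⟩).symm⟩

/-- the other heavy neighbour -/
theorem heavy_other {b : V} (hb : hh H F b = 2) {v : V} (hv : v ∈ F) (hbv : H.Adj b v)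
    (hv3 : 3 ≤ dg H F v) :
    ∃ x ∈ F, x ≠ v ∧ H.Adj b x ∧ 3 ≤ dg H F x ∧
      ∀ w ∈ F, H.Adj b w → 3 ≤ dg H F w → w = v ∨ w = x := by
  classical
  unfold hh at hb
  obtain ⟨c, d, hcd, h⟩ := Finset.card_eq_two.1 hb
  have hm : ∀ w, (w ∈ F ∧ H.Adj b w ∧ 3 ≤ dg H F w) ↔ (w = c ∨ w = d) := by
    intro w
    have h1 := Finset.ext_iff.1 h w
    rw [mem_filter, mem_insert, mem_singleton] at h1
    exact h1
  rcases (hm v).1 ⟨hv, hbv, hv3⟩ with rfl | rfl
  · have h2 := (hm d).2 (Or.inr rfl)
    exact ⟨d, h2.1, Ne.symm hcd, h2.2.1, h2.2.2, fun w hw h3 h4 => (hm w).1 ⟨hw, h3, h4⟩⟩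
  · have h2 := (hm c).2 (Or.inl rfl)
    exact ⟨c, h2.1, hcd, h2.2.1, h2.2.2, fun w hw h3 h4 => ((hm w).1 ⟨hw, h3, h4⟩).symm⟩

/-- two adjacent light vertices -/
theorem step0 (hmin : ∀ v ∈ F, 2 ≤ dg H F v) {a b : V} (ha : a ∈ F) (hb : b ∈ F)
    (hab : H.Adj a b) (ha2 : dg H F a = 2) (hb2 : dg H F b = 2) : Step H F := by
  classical
  obtain ⟨p, hp, hpb, hap, hpu⟩ := light_other ha2 hb hab
  obtain ⟨x, hx, hxa, hbx, hxu⟩ := light_other hb2 ha hab.symm
  have hxb : x ≠ b := by
    rintro rfl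
    exact H.irrefl hbx
  refine ⟨(F.erase a).erase b, {b}, ∅, ∅, a, fun _ => x, fun _ => x, fun _ => x, ?_, ?_⟩
  · refine Finset.ssubset_iff_subset_ne.2 ⟨(erase_subset _ _).trans (erase_subset _ _), ?_⟩
    intro h
    have h1 : a ∈ (F.erase a).erase b := by rw [h]; exact ha
    simp at h1
  · have hmO : ∀ w, w ∈ (((F.erase a).erase b : Finset V) : Set V) ↔ w ≠ b ∧ w ≠ a ∧ w ∈ F := by
      intro w
      simp
      tauto
    refine
    { hF := ?_, vO := ?_, vI := ?_, vT := ?_, vJ := ?_, OI := ?_, OT := ?_, OJ := ?_, IT := ?_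
      IJ := ?_, TJ := ?_, pu := ?_, vi := ?_, vt := ?_, vj := ?_, yO := ?_, iO := ?_, ii := ?_
      pt := ?_, tO := ?_, ti := ?_, tt := ?_, tj := ?_, pj := ?_, zO := ?_, jO := ?_, ji := ?_
      jj := ?_, alt := ?_, two := two_of hmin }
    · intro w
      rw [hmO, Set.mem_singleton_iff]
      constructor
      · intro h
        by_cases h1 : w = a
        · exact Or.inr (Or.inl h1)
        · by_cases h2 : w = b
          · exact Or.inr (Or.inr (Or.inl h2))
          · exact Or.inl ⟨h2, h1, by exact_mod_cast h⟩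
      · rintro (h | rfl | rfl | h | h)
        · exact_mod_cast h.2.2
        · exact_mod_cast ha
        · exact_mod_cast hb
        · exact absurd h (Set.notMem_empty _)
        · exact absurd h (Set.notMem_empty _)
    · rw [hmO]
      exact fun h => h.2.1 rfl
    · exact fun h => hab.ne h
    · exact Set.notMem_empty _
    · exact Set.notMem_empty _
    · intro w hw h
      exact ((hmO w).1 hw).1 h
    · intro w _
      exact Set.notMem_empty _
    · intro w _
      exact Set.notMem_empty _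
    · intro w _
      exact Set.notMem_empty _
    · intro w _
      exact Set.notMem_empty _
    · intro w _
      exact Set.notMem_empty _
    · intro w hw w' hw' h h'
      have h1 := (hmO w).1 hw
      have h1' := (hmO w').1 hw'
      rcases hpu w h1.2.2 h with h2 | h2
      · exact absurd h2 h1.1
      · rcases hpu w' h1'.2.2 h' with h3 | h3
        · exact absurd h3 h1'.1
        · rw [h2, h3]
    · rintro w rfl
      exact hab
    · intro w h
      exact absurd h (Set.notMem_empty _)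
    · intro w h
      exact absurd h (Set.notMem_empty _)
    · rintro w rfl
      exact (hmO _).2 ⟨hxb, hxa, hx⟩
    · rintro w rfl c hc
      have h1 := (hmO c).1 hc
      constructor
      · intro h
        rcases hxu c h1.2.2 h with h2 | h2
        · exact absurd h2 h1.2.1
        · exact h2
      · rintro rfl
        exact hbx
    · rintro w rfl c rfl
      exact H.irrefl
    · intro w h
      exact absurd h (Set.notMem_empty _)
    · intro w h
      exact absurd h (Set.notMem_empty _)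
    · intro w h
      exact absurd h (Set.notMem_empty _)
    · intro w h
      exact absurd h (Set.notMem_empty _)
    · intro w h
      exact absurd h (Set.notMem_empty _)
    · intro w h
      exact absurd h (Set.notMem_empty _)
    · intro w h
      exact absurd h (Set.notMem_empty _)
    · intro w h
      exact absurd h (Set.notMem_empty _)
    · intro w h
      exact absurd h (Set.notMem_empty _)
    · intro w h
      exact absurd h (Set.notMem_empty _)
    · right
      intro w h
      exact absurd h (Set.notMem_empty _)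

/-- the other neighbours of light vertices, as a function -/
theorem exists_oth (H : SimpleGraph V) (F : Finset V) : ∃ oth : V → V → V,
    ∀ b, dg H F b = 2 → ∀ v ∈ F, H.Adj b v → oth b v ∈ F ∧ oth b v ≠ v ∧
      H.Adj b (oth b v) ∧ ∀ w ∈ F, H.Adj b w → w = v ∨ w = oth b v := by
  have h : ∀ b v : V, ∃ x : V, dg H F b = 2 → v ∈ F → H.Adj b v → x ∈ F ∧ x ≠ v ∧ H.Adj b x ∧
      ∀ w ∈ F, H.Adj b w → w = v ∨ w = x := by
    intro b v
    by_cases h1 : dg H F b = 2 ∧ v ∈ F ∧ H.Adj b v
    · obtain ⟨x, hx⟩ := light_other h1.1 h1.2.1 h1.2.2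
      exact ⟨x, fun _ _ _ => hx⟩
    · exact ⟨v, fun h2 h3 h4 => absurd ⟨h2, h3, h4⟩ h1⟩
  choose oth hoth using h
  exact ⟨oth, fun b h1 v h2 h3 => hoth b v h1 h2 h3⟩

/-- a heavy vertex with at most one heavy neighbour -/
theorem step1 (hmin : ∀ v ∈ F, 2 ≤ dg H F v)
    (hN0 : ∀ a ∈ F, ∀ b ∈ F, H.Adj a b → dg H F a = 2 → dg H F b ≠ 2) {v : V} (hv : v ∈ F)
    (hv3 : 3 ≤ dg H F v) (hvh : hh H F v ≤ 1) : Step H F := by
  classical
  obtain ⟨oth, hoth⟩ := exists_oth H F
  have hI : ∀ b, b ∈ F → H.Adj v b → dg H F b = 2 → oth b v ∈ F ∧ oth b v ≠ v ∧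
      H.Adj b (oth b v) ∧ 3 ≤ dg H F (oth b v) ∧ ∀ w ∈ F, H.Adj b w → w = v ∨ w = oth b v := by
    intro b hb hvb hb2
    obtain ⟨h1, h2, h3, h4⟩ := hoth b hb2 v hv hvb.symm
    have h5 := hmin _ h1
    have h6 := hN0 b hb _ h1 h3 hb2
    exact ⟨h1, h2, h3, by omega, h4⟩
  refine ⟨F.filter fun w => w ≠ v ∧ ¬ (H.Adj v w ∧ dg H F w = 2),
    {b | b ∈ F ∧ H.Adj v b ∧ dg H F b = 2}, ∅, ∅, v, fun b => oth b v, fun _ => v, fun _ => v,
    ?_, ?_⟩
  · refine Finset.ssubset_iff_subset_ne.2 ⟨filter_subset _ _, ?_⟩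
    intro h
    have h1 : v ∈ F.filter fun w => w ≠ v ∧ ¬ (H.Adj v w ∧ dg H F w = 2) := by rw [h]; exact hv
    exact (mem_filter.1 h1).2.1 rfl
  · have hmO : ∀ w, w ∈ ((F.filter fun w => w ≠ v ∧ ¬ (H.Adj v w ∧ dg H F w = 2) : Finset V) :
        Set V) ↔ w ∈ F ∧ w ≠ v ∧ ¬ (H.Adj v w ∧ dg H F w = 2) := by
      intro w
      rw [mem_coe, mem_filter]
    refine
    { hF := ?_, vO := ?_, vI := ?_, vT := ?_, vJ := ?_, OI := ?_, OT := ?_, OJ := ?_, IT := ?_
      IJ := ?_, TJ := ?_, pu := ?_, vi := ?_, vt := ?_, vj := ?_, yO := ?_, iO := ?_, ii := ?_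
      pt := ?_, tO := ?_, ti := ?_, tt := ?_, tj := ?_, pj := ?_, zO := ?_, jO := ?_, ji := ?_
      jj := ?_, alt := ?_, two := two_of hmin }
    · intro w
      rw [hmO]
      constructor
      · intro h
        have h' : w ∈ F := by exact_mod_cast h
        by_cases h1 : w = v
        · exact Or.inr (Or.inl h1)
        · by_cases h2 : H.Adj v w ∧ dg H F w = 2
          · exact Or.inr (Or.inr (Or.inl ⟨h', h2⟩))
          · exact Or.inl ⟨h', h1, h2⟩
      · rintro (h | rfl | h | h | h)
        · exact_mod_cast h.1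
        · exact_mod_cast hv
        · exact_mod_cast h.1
        · exact absurd h (Set.notMem_empty _)
        · exact absurd h (Set.notMem_empty _)
    · rw [hmO]
      exact fun h => h.2.1 rfl
    · exact fun h => H.irrefl h.2.1
    · exact Set.notMem_empty _
    · exact Set.notMem_empty _
    · intro w hw h
      exact ((hmO w).1 hw).2.2 h.2
    · intro w _
      exact Set.notMem_empty _
    · intro w _
      exact Set.notMem_empty _
    · intro w _
      exact Set.notMem_empty _
    · intro w _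
      exact Set.notMem_empty _
    · intro w _
      exact Set.notMem_empty _
    · intro w hw w' hw' h h'
      have h1 := (hmO w).1 hw
      have h1' := (hmO w').1 hw'
      have k1 := hmin w h1.1
      have k1' := hmin w' h1'.1
      have k2 : dg H F w ≠ 2 := fun h2 => h1.2.2 ⟨h, h2⟩
      have k2' : dg H F w' ≠ 2 := fun h2 => h1'.2.2 ⟨h', h2⟩
      unfold hh at hvh
      rw [Finset.card_le_one] at hvh
      exact hvh w (mem_filter.2 ⟨h1.1, h, by omega⟩) w' (mem_filter.2 ⟨h1'.1, h', by omega⟩)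
    · intro w h
      exact h.2.1
    · intro w h
      exact absurd h (Set.notMem_empty _)
    · intro w h
      exact absurd h (Set.notMem_empty _)
    · intro w h
      obtain ⟨h1, h2, -, h4, -⟩ := hI w h.1 h.2.1 h.2.2
      rw [hmO]
      exact ⟨h1, h2, fun h5 => by omega⟩
    · intro w h c hc
      obtain ⟨-, -, h3, -, h5⟩ := hI w h.1 h.2.1 h.2.2
      have h1 := (hmO c).1 hc
      constructor
      · intro h6
        rcases h5 c h1.1 h6 with h2 | h2
        · exact absurd h2 h1.2.1
        · exact h2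
      · rintro rfl
        exact h3
    · intro w h c h' hwc
      exact hN0 w h.1 c h'.1 hwc h.2.2 h'.2.2
    · intro w h
      exact absurd h (Set.notMem_empty _)
    · intro w h
      exact absurd h (Set.notMem_empty _)
    · intro w h
      exact absurd h (Set.notMem_empty _)
    · intro w h
      exact absurd h (Set.notMem_empty _)
    · intro w h
      exact absurd h (Set.notMem_empty _)
    · intro w h
      exact absurd h (Set.notMem_empty _)
    · intro w h
      exact absurd h (Set.notMem_empty _)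
    · intro w h
      exact absurd h (Set.notMem_empty _)
    · intro w h
      exact absurd h (Set.notMem_empty _)
    · intro w h
      exact absurd h (Set.notMem_empty _)
    · right
      intro w h
      exact absurd h (Set.notMem_empty _)

/-- two adjacent heavy vertices with exactly two heavy neighbours each -/
theorem step2 (hmin : ∀ v ∈ F, 2 ≤ dg H F v)
    (hN0 : ∀ a ∈ F, ∀ b ∈ F, H.Adj a b → dg H F a = 2 → dg H F b ≠ 2) {u v : V} (hu : u ∈ F)
    (hv : v ∈ F) (huv : H.Adj u v) (hu3 : 3 ≤ dg H F u) (hv3 : 3 ≤ dg H F v)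
    (huh : hh H F u = 2) (hvh : hh H F v = 2) : Step H F := by
  classical
  obtain ⟨oth, hoth⟩ := exists_oth H F
  have hI : ∀ b, b ∈ F → ∀ v ∈ F, H.Adj v b → dg H F b = 2 → oth b v ∈ F ∧ oth b v ≠ v ∧
      H.Adj b (oth b v) ∧ 3 ≤ dg H F (oth b v) ∧ ∀ w ∈ F, H.Adj b w → w = v ∨ w = oth b v := by
    intro b hb v hv hvb hb2
    obtain ⟨h1, h2, h3, h4⟩ := hoth b hb2 v hv hvb.symm
    have h5 := hmin _ h1
    have h6 := hN0 b hb _ h1 h3 hb2
    exact ⟨h1, h2, h3, by omega, h4⟩
  obtain ⟨y, hy, hyv, huy, hy3, hyu⟩ := heavy_other huh hv huv hv3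
  obtain ⟨p, hp, hpu, hvp, hp3, hpv⟩ := heavy_other hvh hu huv.symm hu3
  have hO : ∀ w, (w ∈ F ∧ w ≠ v ∧ w ≠ u ∧ ¬ (dg H F w = 2 ∧ (H.Adj v w ∨ H.Adj u w))) →
      (H.Adj u w → w = y) ∧ (H.Adj v w → w = p) := by
    rintro w ⟨h1, h2, h3, h4⟩
    have h5 := hmin w h1
    constructor
    · intro h6
      have h7 : dg H F w ≠ 2 := fun h8 => h4 ⟨h8, Or.inr h6⟩
      rcases hyu w h1 h6 (by omega) with h8 | h8
      · exact absurd h8 h2
      · exact h8
    · intro h6
      have h7 : dg H F w ≠ 2 := fun h8 => h4 ⟨h8, Or.inl h6⟩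
      rcases hpv w h1 h6 (by omega) with h8 | h8
      · exact absurd h8 h3
      · exact h8
  refine ⟨F.filter fun w => w ≠ v ∧ w ≠ u ∧ ¬ (dg H F w = 2 ∧ (H.Adj v w ∨ H.Adj u w)),
    {b | b ∈ F ∧ (b = u ∨ (dg H F b = 2 ∧ H.Adj v b ∧ ¬ H.Adj u b))},
    {b | b ∈ F ∧ dg H F b = 2 ∧ H.Adj v b ∧ H.Adj u b},
    {b | b ∈ F ∧ dg H F b = 2 ∧ ¬ H.Adj v b ∧ H.Adj u b}, v,
    fun b => if b = u then y else oth b v, fun _ => u, fun b => oth b u, ?_, ?_⟩
  · refine Finset.ssubset_iff_subset_ne.2 ⟨filter_subset _ _, ?_⟩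
    intro h
    have h1 : v ∈ F.filter fun w => w ≠ v ∧ w ≠ u ∧
        ¬ (dg H F w = 2 ∧ (H.Adj v w ∨ H.Adj u w)) := by rw [h]; exact hv
    exact (mem_filter.1 h1).2.1 rfl
  · have hmO : ∀ w, w ∈ ((F.filter fun w => w ≠ v ∧ w ≠ u ∧
        ¬ (dg H F w = 2 ∧ (H.Adj v w ∨ H.Adj u w)) : Finset V) : Set V) ↔
        w ∈ F ∧ w ≠ v ∧ w ≠ u ∧ ¬ (dg H F w = 2 ∧ (H.Adj v w ∨ H.Adj u w)) := by
      intro w
      rw [mem_coe, mem_filter]
    have hu2 : dg H F u ≠ 2 := by omega
    have hv2 : dg H F v ≠ 2 := by omega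
    refine
    { hF := ?_, vO := ?_, vI := ?_, vT := ?_, vJ := ?_, OI := ?_, OT := ?_, OJ := ?_, IT := ?_
      IJ := ?_, TJ := ?_, pu := ?_, vi := ?_, vt := ?_, vj := ?_, yO := ?_, iO := ?_, ii := ?_
      pt := ?_, tO := ?_, ti := ?_, tt := ?_, tj := ?_, pj := ?_, zO := ?_, jO := ?_, ji := ?_
      jj := ?_, alt := ?_, two := two_of hmin }
    · intro w
      rw [hmO]
      constructor
      · intro h
        have h' : w ∈ F := by exact_mod_cast h
        by_cases h1 : w = v
        · exact Or.inr (Or.inl h1)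
        by_cases h2 : w = u
        · exact Or.inr (Or.inr (Or.inl ⟨h', Or.inl h2⟩))
        by_cases h3 : dg H F w = 2
        · by_cases h4 : H.Adj v w
          · by_cases h5 : H.Adj u w
            · exact Or.inr (Or.inr (Or.inr (Or.inl ⟨h', h3, h4, h5⟩)))
            · exact Or.inr (Or.inr (Or.inl ⟨h', Or.inr ⟨h3, h4, h5⟩⟩))
          · by_cases h5 : H.Adj u w
            · exact Or.inr (Or.inr (Or.inr (Or.inr ⟨h', h3, h4, h5⟩)))
            · exact Or.inl ⟨h', h1, h2, fun h6 => h6.2.elim h4 h5⟩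
        · exact Or.inl ⟨h', h1, h2, fun h6 => h3 h6.1⟩
      · rintro (h | rfl | h | h | h)
        · exact_mod_cast h.1
        · exact_mod_cast hv
        · exact_mod_cast h.1
        · exact_mod_cast h.1
        · exact_mod_cast h.1
    · rw [hmO]
      exact fun h => h.2.1 rfl
    · rintro ⟨-, h | h⟩
      · exact huv.ne h.symm
      · exact hv2 h.1
    · exact fun h => hv2 h.2.1
    · exact fun h => hv2 h.2.1
    · intro w hw h
      have h1 := (hmO w).1 hw
      rcases h.2 with h2 | h2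
      · exact h1.2.2.1 h2
      · exact h1.2.2.2 ⟨h2.1, Or.inl h2.2.1⟩
    · intro w hw h
      have h1 := (hmO w).1 hw
      exact h1.2.2.2 ⟨h.2.1, Or.inl h.2.2.1⟩
    · intro w hw h
      have h1 := (hmO w).1 hw
      exact h1.2.2.2 ⟨h.2.1, Or.inr h.2.2.2⟩
    · rintro w ⟨-, h | h⟩ h'
      · exact hu2 (h ▸ h'.2.1)
      · exact h.2.2 h'.2.2.2
    · rintro w ⟨-, h | h⟩ h'
      · exact hu2 (h ▸ h'.2.1)
      · exact h.2.2 h'.2.2.2
    · intro w h h'
      exact h'.2.2.1 h.2.2.1
    · intro w hw w' hw' h h'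
      rw [(hO w ((hmO w).1 hw)).2 h, (hO w' ((hmO w').1 hw')).2 h']
    · rintro w ⟨-, rfl | h⟩
      · exact huv.symm
      · exact h.2.1
    · intro w h
      exact h.2.2.1
    · intro w h
      exact h.2.2.1
    · rintro w ⟨hw, h⟩
      by_cases hwu : w = u
      · simp only [hwu, if_true]
        rw [hmO]
        refine ⟨hy, hyv, ?_, fun h5 => by omega⟩
        rintro rfl
        exact H.irrefl huy
      · simp only [hwu, if_false]
        have h' := h.resolve_left hwu
        obtain ⟨h1, h2, h3, h4, -⟩ := hI w hw v hv h'.2.1 h'.1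
        rw [hmO]
        refine ⟨h1, h2, ?_, fun h5 => by omega⟩
        intro h5
        rw [h5] at h3
        exact h'.2.2 h3.symm
    · rintro w ⟨hw, h⟩ c hc
      have h1 := (hmO c).1 hc
      by_cases hwu : w = u
      · simp only [hwu, if_true]
        constructor
        · intro h6
          exact (hO c h1).1 h6
        · rintro rfl
          exact huy
      · simp only [hwu, if_false]
        have h' := h.resolve_left hwu
        obtain ⟨-, -, h3, -, h5⟩ := hI w hw v hv h'.2.1 h'.1
        constructor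
        · intro h6
          rcases h5 c h1.1 h6 with h2 | h2
          · exact absurd h2 h1.2.1
          · exact h2
        · rintro rfl
          exact h3
    · rintro w ⟨hw, rfl | h⟩ c ⟨hc, rfl | h'⟩ hwc
      · exact H.irrefl hwc
      · exact h'.2.2 hwc
      · exact h.2.2 hwc.symm
      · exact hN0 w hw c hc hwc h.1 h'.1
    · intro w _
      exact ⟨hu, Or.inl rfl⟩
    · intro w h c hc hwc
      have h1 := (hmO c).1 hc
      obtain ⟨h2, h3, h4, -, h5⟩ := hI w h.1 v hv h.2.2.1 h.2.1
      rcases h5 u hu h.2.2.2.symm with h6 | h6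
      · exact huv.ne h6
      · rcases h5 c h1.1 hwc with h7 | h7
        · exact h1.2.1 h7
        · exact h1.2.2.1 (h7.trans h6.symm)
    · rintro w h c ⟨hc, h'⟩
      constructor
      · intro hwc
        rcases h' with h' | h'
        · exact h'
        · exact absurd h'.1 (hN0 w h.1 c hc hwc h.2.1)
      · rintro rfl
        exact h.2.2.2.symm
    · intro w h c h' hwc
      exact hN0 w h.1 c h'.1 hwc h.2.1 h'.2.1
    · intro w h c h' hwc
      exact hN0 w h.1 c h'.1 hwc h.2.1 h'.2.1
    · intro w _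
      exact ⟨hu, Or.inl rfl⟩
    · intro w h
      obtain ⟨h1, h2, h3, h4, -⟩ := hI w h.1 u hu h.2.2.2 h.2.1
      rw [hmO]
      refine ⟨h1, ?_, h2, fun h5 => by omega⟩
      intro h5
      rw [h5] at h3
      exact h.2.2.1 h3.symm
    · intro w h c hc
      have h1 := (hmO c).1 hc
      obtain ⟨-, -, h3, -, h5⟩ := hI w h.1 u hu h.2.2.2 h.2.1
      constructor
      · intro h6
        rcases h5 c h1.1 h6 with h2 | h2
        · exact absurd h2 h1.2.2.1
        · exact h2
      · rintro rfl
        exact h3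
    · rintro w h c ⟨hc, h'⟩
      constructor
      · intro hwc
        rcases h' with h' | h'
        · exact h'
        · exact absurd h'.1 (hN0 w h.1 c hc hwc h.2.1)
      · rintro rfl
        exact h.2.2.2.symm
    · intro w h c h' hwc
      exact hN0 w h.1 c h'.1 hwc h.2.1 h'.2.1
    · right
      intro w _ c _
      rfl

end

end Pool.Agent.H53.GG
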