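import Pool.Agent.H53.GG.Cfg

/-!
# The last reducible configuration

`v` is heavy and all its heavy neighbours have exactly two heavy neighbours.
-/

set_option autoImplicit false

namespace Pool.Agent.H53.GG

open Finset

variable {V : Type} {H : SimpleGraph V} {F : Finset V}

/-- the other heavy neighbours, as a function -/
theorem exists_hoth (H : SimpleGraph V) (F : Finset V) : ∃ hoth : V → V → V,
    ∀ b, hh H F b = 2 → ∀ v ∈ F, H.Adj b v → 3 ≤ dg H F v → hoth b v ∈ F ∧ hoth b v ≠ v ∧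
      H.Adj b (hoth b v) ∧ 3 ≤ dg H F (hoth b v) ∧
      ∀ w ∈ F, H.Adj b w → 3 ≤ dg H F w → w = v ∨ w = hoth b v := by
  have h : ∀ b v : V, ∃ x : V, hh H F b = 2 → v ∈ F → H.Adj b v → 3 ≤ dg H F v →
      x ∈ F ∧ x ≠ v ∧ H.Adj b x ∧ 3 ≤ dg H F x ∧
      ∀ w ∈ F, H.Adj b w → 3 ≤ dg H F w → w = v ∨ w = x := by
    intro b v
    by_cases h1 : hh H F b = 2 ∧ v ∈ F ∧ H.Adj b v ∧ 3 ≤ dg H F v
    · obtain ⟨x, hx⟩ := heavy_other h1.1 h1.2.1 h1.2.2.1 h1.2.2.2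
      exact ⟨x, fun _ _ _ _ => hx⟩
    · exact ⟨v, fun h2 h3 h4 h5 => absurd ⟨h2, h3, h4, h5⟩ h1⟩
  choose hoth hhoth using h
  exact ⟨hoth, fun b h1 v h2 h3 h4 => hhoth b v h1 h2 h3 h4⟩

theorem step5 (hCN : CN H) (hmin : ∀ v ∈ F, 2 ≤ dg H F v)
    (hN0 : ∀ a ∈ F, ∀ b ∈ F, H.Adj a b → dg H F a = 2 → dg H F b ≠ 2)
    (hN2 : ∀ a ∈ F, ∀ b ∈ F, H.Adj a b → 3 ≤ dg H F a → 3 ≤ dg H F b → hh H F a = 2 →
      hh H F b ≠ 2) {v : V} (hv : v ∈ F) (hv3 : 3 ≤ dg H F v)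
    (hvN : ∀ b ∈ F, H.Adj v b → 3 ≤ dg H F b → hh H F b = 2) : Step H F := by
  classical
  obtain ⟨oth, hoth⟩ := exists_oth H F
  obtain ⟨hot, hhot⟩ := exists_hoth H F
  have hI : ∀ b, b ∈ F → ∀ v ∈ F, H.Adj v b → dg H F b = 2 → oth b v ∈ F ∧ oth b v ≠ v ∧
      H.Adj b (oth b v) ∧ 3 ≤ dg H F (oth b v) ∧ ∀ w ∈ F, H.Adj b w → w = v ∨ w = oth b v := by
    intro b hb v hv hvb hb2
    obtain ⟨h1, h2, h3, h4⟩ := hoth b hb2 v hv hvb.symm
    have h5 := hmin _ h1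
    have h6 := hN0 b hb _ h1 h3 hb2
    exact ⟨h1, h2, h3, by omega, h4⟩
  -- the heavy neighbours of `v`
  have hB : ∀ b, b ∈ F → H.Adj v b → 3 ≤ dg H F b → hot b v ∈ F ∧ hot b v ≠ v ∧
      H.Adj b (hot b v) ∧ 3 ≤ dg H F (hot b v) ∧ ¬ H.Adj v (hot b v) ∧
      ∀ w ∈ F, H.Adj b w → 3 ≤ dg H F w → w = v ∨ w = hot b v := by
    intro b hb hvb hb3
    obtain ⟨h1, h2, h3, h4, h5⟩ := hhot b (hvN b hb hvb hb3) v hv hvb.symm hv3
    refine ⟨h1, h2, h3, h4, fun h6 => ?_, h5⟩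
    exact hN2 b hb _ h1 h3 hb3 h4 (hvN b hb hvb hb3) (hvN _ h1 h6 h4)
  -- light vertices not adjacent to `v` and adjacent to a heavy neighbour of `v`
  obtain ⟨par, hpar⟩ : ∃ par : V → V, ∀ c, (∃ b, b ∈ F ∧ H.Adj v b ∧ 3 ≤ dg H F b ∧ H.Adj c b) →
      par c ∈ F ∧ H.Adj v (par c) ∧ 3 ≤ dg H F (par c) ∧ H.Adj c (par c) := by
    have h : ∀ c : V, ∃ x : V, (∃ b, b ∈ F ∧ H.Adj v b ∧ 3 ≤ dg H F b ∧ H.Adj c b) →
        x ∈ F ∧ H.Adj v x ∧ 3 ≤ dg H F x ∧ H.Adj c x := by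
      intro c
      by_cases h1 : ∃ b, b ∈ F ∧ H.Adj v b ∧ 3 ≤ dg H F b ∧ H.Adj c b
      · obtain ⟨b, hb⟩ := h1
        exact ⟨b, fun _ => hb⟩
      · exact ⟨c, fun h2 => absurd h2 h1⟩
    choose par hpar using h
    exact ⟨par, hpar⟩
  have hmin2 : ∀ w ∈ F, dg H F w ≠ 2 → 3 ≤ dg H F w := by
    intro w hw h
    have := hmin w hw
    omega
  refine ⟨F.filter fun w => w ≠ v ∧ ¬ H.Adj v w ∧ ¬ (dg H F w = 2 ∧
      ∃ b, b ∈ F ∧ H.Adj v b ∧ 3 ≤ dg H F b ∧ H.Adj w b),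
    {b | b ∈ F ∧ H.Adj v b ∧ (3 ≤ dg H F b ∨ (dg H F b = 2 ∧ ¬ H.Adj v (oth b v)))},
    {b | b ∈ F ∧ H.Adj v b ∧ dg H F b = 2 ∧ H.Adj v (oth b v)},
    {b | b ∈ F ∧ b ≠ v ∧ ¬ H.Adj v b ∧ dg H F b = 2 ∧
      ∃ d, d ∈ F ∧ H.Adj v d ∧ 3 ≤ dg H F d ∧ H.Adj b d}, v,
    fun b => if 3 ≤ dg H F b then hot b v else oth b v, 
    fun b => if H.Adj v b then oth b v else par b, fun b => oth b (par b), ?_, ?_⟩
  · refine Finset.ssubset_iff_subset_ne.2 ⟨filter_subset _ _, ?_⟩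
    intro h
    have h1 : v ∈ F.filter fun w => w ≠ v ∧ ¬ H.Adj v w ∧ ¬ (dg H F w = 2 ∧
      ∃ b, b ∈ F ∧ H.Adj v b ∧ 3 ≤ dg H F b ∧ H.Adj w b) := by rw [h]; exact hv
    exact (mem_filter.1 h1).2.1 rfl
  · have hmO : ∀ w, w ∈ ((F.filter fun w => w ≠ v ∧ ¬ H.Adj v w ∧ ¬ (dg H F w = 2 ∧
        ∃ b, b ∈ F ∧ H.Adj v b ∧ 3 ≤ dg H F b ∧ H.Adj w b) : Finset V) : Set V) ↔
        w ∈ F ∧ w ≠ v ∧ ¬ H.Adj v w ∧ ¬ (dg H F w = 2 ∧
        ∃ b, b ∈ F ∧ H.Adj v b ∧ 3 ≤ dg H F b ∧ H.Adj w b) := by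
      intro w
      rw [mem_coe, mem_filter]
    -- facts on `J`
    have hJ : ∀ c, c ∈ F → c ≠ v → ¬ H.Adj v c → dg H F c = 2 →
        (∃ b, b ∈ F ∧ H.Adj v b ∧ 3 ≤ dg H F b ∧ H.Adj c b) →
        (par c ∈ F ∧ H.Adj v (par c) ∧ 3 ≤ dg H F (par c) ∧ H.Adj c (par c)) ∧
        (oth c (par c) ∈ F ∧ oth c (par c) ≠ par c ∧ H.Adj c (oth c (par c)) ∧
          3 ≤ dg H F (oth c (par c)) ∧ ∀ w ∈ F, H.Adj c w → w = par c ∨ w = oth c (par c)) ∧
        oth c (par c) ≠ v ∧ ¬ H.Adj v (oth c (par c)) := by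
      intro c hc hcv hvc hc2 hex
      obtain ⟨h1, h2, h3, h4⟩ := hpar c hex
      have h5 := hI c hc (par c) h1 h4.symm hc2
      refine ⟨⟨h1, h2, h3, h4⟩, h5, ?_, ?_⟩
      · intro h6
        have h7 := h5.2.2.1
        rw [h6] at h7
        exact hvc h7.symm
      · intro h6
        exact h5.2.1 (hCN v c _ _ hcv.symm hvc h6 h5.2.2.1 h2 h4)
    refine
    { hF := ?_, vO := ?_, vI := ?_, vT := ?_, vJ := ?_, OI := ?_, OT := ?_, OJ := ?_, IT := ?_
      IJ := ?_, TJ := ?_, pu := ?_, vi := ?_, vt := ?_, vj := ?_, yO := ?_, iO := ?_, ii := ?_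
      pt := ?_, tO := ?_, ti := ?_, tt := ?_, tj := ?_, pj := ?_, zO := ?_, jO := ?_, ji := ?_
      jj := ?_, alt := ?_, two := two_of hmin }
    · intro w
      rw [hmO]
      constructor
      · intro h
        have h' : w ∈ F := by exact_mod_cast h
        by_cases h1 : w = v
        · exact Or.inr (Or.inl h1)
        by_cases h2 : H.Adj v w
        · by_cases h3 : dg H F w = 2
          · by_cases h4 : H.Adj v (oth w v)
            · exact Or.inr (Or.inr (Or.inr (Or.inl ⟨h', h2, h3, h4⟩)))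
            · exact Or.inr (Or.inr (Or.inl ⟨h', h2, Or.inr ⟨h3, h4⟩⟩))
          · exact Or.inr (Or.inr (Or.inl ⟨h', h2, Or.inl (hmin2 w h' h3)⟩))
        · by_cases h3 : dg H F w = 2 ∧ ∃ b, b ∈ F ∧ H.Adj v b ∧ 3 ≤ dg H F b ∧ H.Adj w b
          · exact Or.inr (Or.inr (Or.inr (Or.inr ⟨h', h1, h2, h3.1, h3.2⟩)))
          · exact Or.inl ⟨h', h1, h2, h3⟩
      · rintro (h | rfl | h | h | h)
        · exact_mod_cast h.1
        · exact_mod_cast hv
        · exact_mod_cast h.1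
        · exact_mod_cast h.1
        · exact_mod_cast h.1
    · rw [hmO]
      exact fun h => h.2.1 rfl
    · exact fun h => H.irrefl h.2.1
    · exact fun h => H.irrefl h.2.1
    · exact fun h => h.2.1 rfl
    · intro w hw h
      exact ((hmO w).1 hw).2.2.1 h.2.1
    · intro w hw h
      exact ((hmO w).1 hw).2.2.1 h.2.1
    · intro w hw h
      exact ((hmO w).1 hw).2.2.2 h.2.2.2
    · rintro w ⟨-, -, h | h⟩ h'
      · have := h'.2.2.1
        omega
      · exact h.2 h'.2.2.2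
    · intro w h h'
      exact h'.2.2.1 h.2.1
    · intro w h h'
      exact h'.2.2.1 h.2.1
    · intro w hw w' _ h _
      exact absurd h ((hmO w).1 hw).2.2.1
    · intro w h
      exact h.2.1
    · intro w h
      exact h.2.1
    · intro w h
      exact h.2.2.1
    · rintro w ⟨hw, hvw, h⟩
      by_cases hw3 : 3 ≤ dg H F w
      · simp only [hw3, if_true]
        obtain ⟨h1, h2, h3, h4, h5, -⟩ := hB w hw hvw hw3
        rw [hmO]
        exact ⟨h1, h2, h5, fun h6 => by omega⟩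
      · simp only [hw3, if_false]
        have h' := h.resolve_left hw3
        obtain ⟨h1, h2, h3, h4, -⟩ := hI w hw v hv hvw h'.1
        rw [hmO]
        exact ⟨h1, h2, h'.2, fun h6 => by omega⟩
    · rintro w ⟨hw, hvw, h⟩ c hc
      have h1 := (hmO c).1 hc
      by_cases hw3 : 3 ≤ dg H F w
      · simp only [hw3, if_true]
        obtain ⟨-, -, h4, h5, -, h6⟩ := hB w hw hvw hw3
        constructor
        · intro h7
          have h8 : 3 ≤ dg H F c := by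
            apply hmin2 c h1.1
            intro h8
            exact h1.2.2.2 ⟨h8, w, hw, hvw, hw3, h7.symm⟩
          rcases h6 c h1.1 h7 h8 with h9 | h9
          · exact absurd h9 h1.2.1
          · exact h9
        · rintro rfl
          exact h4
      · simp only [hw3, if_false]
        have h' := h.resolve_left hw3
        obtain ⟨-, -, h4, -, h6⟩ := hI w hw v hv hvw h'.1
        constructor
        · intro h7
          rcases h6 c h1.1 h7 with h9 | h9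
          · exact absurd h9 h1.2.1
          · exact h9
        · rintro rfl
          exact h4
    · rintro w ⟨hw, hvw, h⟩ c ⟨hc, hvc, h'⟩ hwc
      rcases h with h | h
      · rcases h' with h' | h'
        · exact hN2 w hw c hc hwc h h' (hvN w hw hvw h) (hvN c hc hvc h')
        · obtain ⟨-, -, -, -, h6⟩ := hI c hc v hv hvc h'.1
          rcases h6 w hw hwc.symm with h7 | h7
          · rw [h7] at hvw
            exact H.irrefl hvw
          · rw [h7] at hvw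
            exact h'.2 hvw
      · rcases h' with h' | h'
        · obtain ⟨-, -, -, -, h6⟩ := hI w hw v hv hvw h.1
          rcases h6 c hc hwc with h7 | h7
          · rw [h7] at hvc
            exact H.irrefl hvc
          · rw [h7] at hvc
            exact h.2 hvc
        · exact hN0 w hw c hc hwc h.1 h'.1
    · rintro w ⟨hw, hvw, hw2, h⟩
      simp only [hvw, if_true]
      obtain ⟨h1, -, -, h4, -⟩ := hI w hw v hv hvw hw2
      exact ⟨h1, h, Or.inl h4⟩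
    · rintro w ⟨hw, hvw, hw2, h⟩ c hc hwc
      have h1 := (hmO c).1 hc
      obtain ⟨-, -, -, -, h6⟩ := hI w hw v hv hvw hw2
      rcases h6 c h1.1 hwc with h7 | h7
      · exact h1.2.1 h7
      · rw [← h7] at h
        exact h1.2.2.1 h
    · rintro w ⟨hw, hvw, hw2, h⟩ c ⟨hc, hvc, -⟩
      simp only [hvw, if_true]
      obtain ⟨-, -, h5, -, h6⟩ := hI w hw v hv hvw hw2
      constructor
      · intro hwc
        rcases h6 c hc hwc with h7 | h7
        · rw [h7] at hvc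
          exact absurd hvc (H.irrefl)
        · exact h7
      · rintro rfl
        exact h5
    · rintro w ⟨hw, -, hw2, -⟩ c ⟨hc, -, hc2, -⟩ hwc
      exact hN0 w hw c hc hwc hw2 hc2
    · rintro w ⟨hw, -, hw2, -⟩ c ⟨hc, -, -, hc2, -⟩ hwc
      exact hN0 w hw c hc hwc hw2 hc2
    · rintro w ⟨hw, hwv, hvw, hw2, hex⟩
      simp only [hvw, if_false]
      obtain ⟨⟨h1, h2, h3, h4⟩, -⟩ := hJ w hw hwv hvw hw2 hex
      exact ⟨h1, h2, Or.inl h3⟩
    · rintro w ⟨hw, hwv, hvw, hw2, hex⟩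
      obtain ⟨-, ⟨h1, h2, h3, h4, -⟩, h5, h6⟩ := hJ w hw hwv hvw hw2 hex
      rw [hmO]
      exact ⟨h1, h5, h6, fun h7 => by omega⟩
    · rintro w ⟨hw, hwv, hvw, hw2, hex⟩ c hc
      have h1 := (hmO c).1 hc
      obtain ⟨⟨-, h0, -, -⟩, ⟨-, -, h3, -, h4⟩, -, -⟩ := hJ w hw hwv hvw hw2 hex
      constructor
      · intro h7
        rcases h4 c h1.1 h7 with h8 | h8
        · rw [← h8] at h0
          exact absurd h0 h1.2.2.1
        · exact h8
      · rintro rfl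
        exact h3
    · rintro w ⟨hw, hwv, hvw, hw2, hex⟩ c ⟨hc, hvc, -⟩
      simp only [hvw, if_false]
      obtain ⟨⟨-, -, -, h0⟩, ⟨-, -, -, -, h4⟩, -, h6⟩ := hJ w hw hwv hvw hw2 hex
      constructor
      · intro h7
        rcases h4 c hc h7 with h8 | h8
        · exact h8
        · rw [← h8] at h6
          exact absurd hvc h6
      · rintro rfl
        exact h0
    · rintro w ⟨hw, -, -, hw2, -⟩ c ⟨hc, -, -, hc2, -⟩ hwc
      exact hN0 w hw c hc hwc hw2 hc2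
    · left
      intro w hw
      exact ((hmO w).1 hw).2.2.1

end Pool.Agent.H53.GG
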