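import Pool.Agent.H53.GG.Vec

/-!
# The nondegeneracy conditions

`x` is the vector of the new vertex `v`, orthogonal to `q`; `cr y x` the vector of a vertex of `I`
(with old neighbour `y`), `cr x (cr y x)` of a vertex of `T`, `cr (cr y x) z` of a vertex of `J`. Each
condition holds for some `x` orthogonal to `q`.
-/

set_option autoImplicit false

namespace Pool.Agent.H53.GG

/-- the quadratic form `(a · b) |x|² - (a · x) (b · x)` -/
theorem nv_Q {q a b : R3} (h : dt a b ≠ 0 ∨ (NP q a ∧ NP q b)) :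
    NV q (fun x => dt a b * dt x x - dt a x * dt b x) := by
  have hPL : PL (fun x => dt a b * dt x x - dt a x * dt b x) :=
    ((PL.const _).mul (PL.dt PV.id PV.id)).sub
      ((PL.dt (PV.const a) PV.id).mul (PL.dt (PV.const b) PV.id))
  by_cases hab : dt a b = 0
  · rcases h with h | ⟨h1, h2⟩
    · exact absurd hab h
    · have h3 : NV q (fun x => dt a x) := ⟨PL.dt (PV.const a) PV.id, h1⟩
      have h4 : NV q (fun x => dt b x) := ⟨PL.dt (PV.const b) PV.id, h2⟩
      obtain ⟨x, hx, hx'⟩ := (h3.mul h4).2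
      refine ⟨hPL, x, hx, ?_⟩
      show dt a b * dt x x - dt a x * dt b x ≠ 0
      rw [hab, zero_mul, zero_sub]
      exact neg_ne_zero.2 hx'
  · obtain ⟨x, hx0, hx, hx'⟩ := exists_perp q a
    refine ⟨hPL, x, hx, ?_⟩
    show dt a b * dt x x - dt a x * dt b x ≠ 0
    rw [hx', zero_mul, sub_zero]
    exact mul_ne_zero hab fun h2 => hx0 (dt_self.1 h2)

theorem nv_self (q : R3) : NV q (fun x => dt x x) := by
  obtain ⟨x, hx0, hx, -⟩ := exists_perp q 0
  exact ⟨PL.dt PV.id PV.id, x, hx, fun h2 => hx0 (dt_self.1 h2)⟩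

/-- `x · w` -/
theorem nv_dt {q w : R3} (h : NP q w) : NV q (fun x => dt x w) := by
  obtain ⟨x, hx, hx'⟩ := h
  exact ⟨PL.dt PV.id (PV.const w), x, hx, by show dt x w ≠ 0; rw [dt_comm]; exact hx'⟩

/-- `x` and `w` are not proportional -/
theorem nv_cr (q : R3) {w : R3} (h : w ≠ 0) : NV q (fun x => dt (cr x w) (cr x w)) := by
  have h1 := nv_Q (q := q) (a := w) (b := w) (Or.inl fun h2 => h (dt_self.1 h2))
  have h2 : (fun x => dt w w * dt x x - dt w x * dt w x) = fun x => dt (cr x w) (cr x w) := by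
    funext x
    rw [lagr, dt_comm x w]
    ring
  rw [← h2]
  exact h1

/-- `(y × x) · w` -/
theorem nv_I {q y w : R3} (hq : q = 0 ∨ dt y q ≠ 0) (hw : cr w y ≠ 0) :
    NV q (fun x => dt (cr y x) w) := by
  have h1 : NP q (cr w y) := np_of hw (by rw [dt_comm]; exact dt_cr_right w y) hq
  have h2 := nv_dt h1
  have h3 : (fun x => dt x (cr w y)) = fun x => dt (cr y x) w := by
    funext x
    simp only [dt, cr, Matrix.cons_val_zero, Matrix.cons_val_one, Matrix.cons_val]
    ring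
  rw [← h3]
  exact h2

/-- `x · (y × y')` -/
theorem nv_det {q y y' : R3} (hq : q = 0 ∨ dt y q ≠ 0) (h : cr y y' ≠ 0) :
    NV q (fun x => dt x (cr y y')) :=
  nv_dt (np_of h (by rw [dt_comm]; exact dt_cr_left y y') hq)

/-- `(y × x) · (y' × x)` -/
theorem nv_II {q y y' : R3} (hy : y ≠ 0) (hy' : y' ≠ 0) (hq : q = 0 ∨ dt y q ≠ 0)
    (hq' : q = 0 ∨ dt y' q ≠ 0) : NV q (fun x => dt (cr y x) (cr y' x)) := by
  have h1 : NV q (fun x => dt y y' * dt x x - dt y x * dt y' x) := by
    apply nv_Q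
    by_cases h : dt y y' = 0
    · exact Or.inr ⟨np_of hy h hq', np_of hy' (by rw [dt_comm]; exact h) hq⟩
    · exact Or.inl h
  have h2 : (fun x => dt y y' * dt x x - dt y x * dt y' x) = fun x => dt (cr y x) (cr y' x) := by
    funext x
    rw [lagr, dt_comm x y']
  rw [← h2]
  exact h1

/-- `(x × (y × x)) · w` -/
theorem nv_T {q y w : R3} (hy : y ≠ 0) (hw : w ≠ 0) (hq : q = 0 ∨ dt y q ≠ 0)
    (hq' : q = 0 ∨ cr y q ≠ 0) : NV q (fun x => dt (cr x (cr y x)) w) := by
  have h1 : NV q (fun x => dt y w * dt x x - dt y x * dt w x) := by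
    apply nv_Q
    by_cases h : dt y w = 0
    · refine Or.inr ⟨?_, np_of hw (by rw [dt_comm]; exact h) hq⟩
      rcases hq' with rfl | h3
      · exact np_zero hy
      · exact np_of_cr h3
    · exact Or.inl h
  have h2 : (fun x => dt y w * dt x x - dt y x * dt w x) = fun x => dt (cr x (cr y x)) w := by
    funext x
    simp only [dt, cr, Matrix.cons_val_zero, Matrix.cons_val_one, Matrix.cons_val]
    ring
  rw [← h2]
  exact h1

/-- `((y × x) × z) · w` -/
theorem nv_J {q y z w : R3} (hq : q = 0 ∨ dt y q ≠ 0) (hw : cr z w ≠ 0) (hz : dt y z ≠ 0)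
    (hy : y ≠ 0) : NV q (fun x => dt (cr (cr y x) z) w) := by
  have h0 : cr (cr z w) y ≠ 0 := by
    intro h
    -- `z × w` is proportional to `y`, so `y` is orthogonal to `z`
    have h1 := lagr (cr z w) y z y
    rw [h, dt_zero_left] at h1
    have h2 : dt (cr z w) z = 0 := by rw [dt_comm]; exact dt_cr_left z w
    rw [h2, zero_mul, zero_sub] at h1
    have h3 : dt (cr z w) y = 0 := by
      rcases mul_eq_zero.1 (neg_eq_zero.1 h1.symm) with h4 | h4
      · exact h4
      · exact absurd h4 hz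
    exact cr_ne_of_orth hw hy h3 h
  have h1 : NP q (cr (cr z w) y) := np_of h0 (by rw [dt_comm]; exact dt_cr_right _ y) hq
  have h2 := nv_dt h1
  have h3 : (fun x => dt x (cr (cr z w) y)) = fun x => dt (cr (cr y x) z) w := by
    funext x
    simp only [dt, cr, Matrix.cons_val_zero, Matrix.cons_val_one, Matrix.cons_val]
    ring
  rw [← h3]
  exact h2

/-- `((y × x) × z) · x` -/
theorem nv_Jx {q y z : R3} (hz : dt y z ≠ 0) : NV q (fun x => dt (cr (cr y x) z) x) := by
  have h1 := nv_Q (q := q) (a := y) (b := z) (Or.inl hz)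
  have h2 : (fun x => dt y z * dt x x - dt y x * dt z x) = fun x => dt (cr (cr y x) z) x := by
    funext x
    simp only [dt, cr, Matrix.cons_val_zero, Matrix.cons_val_one, Matrix.cons_val]
    ring
  rw [← h2]
  exact h1

/-- `((y × x) × z) · ((y × x) × z')` -/
theorem nv_JJ {q y z z' : R3} (hq : q = 0 ∨ dt y q ≠ 0) (hz : dt y z ≠ 0) (hz' : dt y z' ≠ 0)
    (hy : y ≠ 0) (h0 : z ≠ 0) (h0' : z' ≠ 0) :
    NV q (fun x => dt (cr (cr y x) z) (cr (cr y x) z')) := by
  refine ⟨PL.dt (PV.cr (PV.cr (PV.const y) PV.id) (PV.const z))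
    (PV.cr (PV.cr (PV.const y) PV.id) (PV.const z')), ?_⟩
  have h1 : NV y (fun x => dt z z' * dt x x - dt z x * dt z' x) := by
    apply nv_Q
    by_cases h : dt z z' = 0
    · exact Or.inr ⟨np_of h0 h (Or.inr (by rw [dt_comm]; exact hz')),
        np_of h0' (by rw [dt_comm]; exact h) (Or.inr (by rw [dt_comm]; exact hz))⟩
    · exact Or.inl h
  obtain ⟨b, hb, hb'⟩ := h1.2
  obtain ⟨x, hx, hxb⟩ := exists_cr_eq hy hq hb
  refine ⟨x, hx, ?_⟩
  show dt (cr (cr y x) z) (cr (cr y x) z') ≠ 0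
  rw [hxb, lagr, dt_comm b z']
  intro h
  apply hb'
  show dt z z' * dt b b - dt z b * dt z' b = 0
  linarith

/-- `((y × x) × z) · ((y' × x) × z')`, `x` arbitrary -/
theorem nv_JJ' {y z y' z' : R3} (hz : dt y z ≠ 0) (hz' : dt y' z' ≠ 0) :
    NV 0 (fun x => dt (cr (cr y x) z) (cr (cr y' x) z')) := by
  refine ⟨PL.dt (PV.cr (PV.cr (PV.const y) PV.id) (PV.const z))
    (PV.cr (PV.cr (PV.const y') PV.id) (PV.const z')), ?_⟩
  obtain ⟨x, hx, hx'⟩ := (nv_Q (q := z) (a := y') (b := z') (Or.inl hz')).2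
  refine ⟨x, dt_zero_left _, ?_⟩
  -- for `x` orthogonal to `z` the first factor is `(y · z) x`
  have h1 : dt (cr (cr y x) z) (cr (cr y' x) z') =
      dt y z * (dt y' z' * dt x x - dt y' x * dt z' x) -
        dt z x * (dt (cr (cr y' x) z') y) := by
    simp only [dt, cr, Matrix.cons_val_zero, Matrix.cons_val_one, Matrix.cons_val]
    ring
  show dt (cr (cr y x) z) (cr (cr y' x) z') ≠ 0
  rw [h1, hx, zero_mul, sub_zero]
  exact mul_ne_zero hz hx'

end Pool.Agent.H53.GG
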