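import Pool.Agent.H53.GG.Stmt

/-!
# MP_619a4d_co: auxiliary definitions

`dt`, `cr`: dot product and vector product. `Rep H S φ`: the vectors `φ a`, `a ∈ S`, are not zero and
pairwise not proportional, and for `a ≠ b` they are orthogonal exactly if `a` and `b` are adjacent.
-/

set_option autoImplicit false

namespace Pool.Agent.H53.GG

/-- two distinct nonadjacent vertices have at most one common neighbour -/
def CN {V : Type} (H : SimpleGraph V) : Prop :=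
  ∀ a b c d, a ≠ b → ¬ H.Adj a b → H.Adj a c → H.Adj b c → H.Adj a d → H.Adj b d → c = d

/-- dot product -/
def dt {K : Type} [CommRing K] (a b : Fin 3 → K) : K := a 0 * b 0 + a 1 * b 1 + a 2 * b 2

/-- vector product -/
def cr {K : Type} [CommRing K] (a b : Fin 3 → K) : Fin 3 → K :=
  ![a 1 * b 2 - a 2 * b 1, a 2 * b 0 - a 0 * b 2, a 0 * b 1 - a 1 * b 0]

/-- faithful orthogonal representation of the subgraph induced by `S` -/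
def Rep {V K : Type} [CommRing K] (H : SimpleGraph V) (S : Set V) (φ : V → Fin 3 → K) : Prop :=
  ∀ a ∈ S, φ a ≠ 0 ∧ ∀ b ∈ S, a ≠ b → (dt (φ a) (φ b) = 0 ↔ H.Adj a b) ∧ cr (φ a) (φ b) ≠ 0

/-- One step of the construction: `F` is the union of `O` (old), `{v}`, `I`, `T`, `J`. The vertex `v`
has at most one neighbour in `O` and is adjacent to all of `I` and `T`; `a ∈ I` has the neighbours `v`,
`y a ∈ O` and some of `T`, `J`; `a ∈ T` has the neighbours `v` and `par a ∈ I`; `a ∈ J` has the neighbours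
`par a ∈ I` and `z a ∈ O`. -/
structure Ext {V : Type} (H : SimpleGraph V) (F O I T J : Set V) (v : V) (y par z : V → V) :
    Prop where
  hF : ∀ a, a ∈ F ↔ a ∈ O ∨ a = v ∨ a ∈ I ∨ a ∈ T ∨ a ∈ J
  vO : v ∉ O
  vI : v ∉ I
  vT : v ∉ T
  vJ : v ∉ J
  OI : ∀ a ∈ O, a ∉ I
  OT : ∀ a ∈ O, a ∉ T
  OJ : ∀ a ∈ O, a ∉ J
  IT : ∀ a ∈ I, a ∉ T
  IJ : ∀ a ∈ I, a ∉ J
  TJ : ∀ a ∈ T, a ∉ J
  pu : ∀ w ∈ O, ∀ w' ∈ O, H.Adj v w → H.Adj v w' → w = w'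
  vi : ∀ a ∈ I, H.Adj v a
  vt : ∀ a ∈ T, H.Adj v a
  vj : ∀ a ∈ J, ¬ H.Adj v a
  yO : ∀ a ∈ I, y a ∈ O
  iO : ∀ a ∈ I, ∀ w ∈ O, H.Adj a w ↔ w = y a
  ii : ∀ a ∈ I, ∀ b ∈ I, ¬ H.Adj a b
  pt : ∀ a ∈ T, par a ∈ I
  tO : ∀ a ∈ T, ∀ w ∈ O, ¬ H.Adj a w
  ti : ∀ a ∈ T, ∀ b ∈ I, H.Adj a b ↔ b = par a
  tt : ∀ a ∈ T, ∀ b ∈ T, ¬ H.Adj a b
  tj : ∀ a ∈ T, ∀ b ∈ J, ¬ H.Adj a b
  pj : ∀ a ∈ J, par a ∈ I
  zO : ∀ a ∈ J, z a ∈ O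
  jO : ∀ a ∈ J, ∀ w ∈ O, H.Adj a w ↔ w = z a
  ji : ∀ a ∈ J, ∀ b ∈ I, H.Adj a b ↔ b = par a
  jj : ∀ a ∈ J, ∀ b ∈ J, ¬ H.Adj a b
  alt : (∀ w ∈ O, ¬ H.Adj v w) ∨ ∀ a ∈ J, ∀ b ∈ J, par a = par b
  two : ∀ a ∈ F, ∃ c ∈ F, ∃ d ∈ F, c ≠ d ∧ H.Adj a c ∧ H.Adj a d

/-- there is a step for `F` -/
def Step {V : Type} (H : SimpleGraph V) (F : Finset V) : Prop :=
  ∃ (O : Finset V) (I T J : Set V) (v : V) (y par z : V → V), O ⊂ F ∧ Ext H F O I T J v y par z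

end Pool.Agent.H53.GG
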