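import Pool.Agent.H53.GG.Cfg

/-!
# Discharging: without reducible configurations the average degree is at least 14/5, and the average
degree of the subgraph spanned by the heavy vertices is at least 5/2
-/

set_option autoImplicit false

namespace Pool.Agent.H53.GG

open Finset

variable {V : Type} {H : SimpleGraph V} {F : Finset V}

theorem dis (hmin : ∀ v ∈ F, 2 ≤ dg H F v)
    (hN0 : ∀ a ∈ F, ∀ b ∈ F, H.Adj a b → dg H F a = 2 → dg H F b ≠ 2)
    (hN1 : ∀ a ∈ F, 3 ≤ dg H F a → 2 ≤ hh H F a)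
    (hN2 : ∀ a ∈ F, ∀ b ∈ F, H.Adj a b → 3 ≤ dg H F a → 3 ≤ dg H F b → hh H F a = 2 →
      hh H F b ≠ 2)
    (hN5 : ∀ a ∈ F, 3 ≤ dg H F a → ∃ b ∈ F, H.Adj a b ∧ 3 ≤ dg H F b ∧ hh H F b ≠ 2) :
    14 * F.card ≤ 5 * ∑ v ∈ F, dg H F v ∧
      5 * (F3 H F).card ≤ 2 * ∑ v ∈ F3 H F, dg H (F3 H F) v := by
  classical
  have hmin2 : ∀ w ∈ F, dg H F w ≠ 2 → 3 ≤ dg H F w := by
    intro w hw h
    have := hmin w hw
    omega
  have hmin3 : ∀ w ∈ F, 3 ≤ dg H F w → hh H F w ≠ 2 → 3 ≤ hh H F w := by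
    intro w hw h h'
    have := hN1 w hw h
    omega
  -- the three classes
  obtain ⟨L, hL⟩ : ∃ L : Finset V, L = F.filter fun w => dg H F w = 2 := ⟨_, rfl⟩
  obtain ⟨B, hB⟩ : ∃ B : Finset V, B = F.filter fun w => 3 ≤ dg H F w ∧ hh H F w = 2 := ⟨_, rfl⟩
  obtain ⟨A, hA⟩ : ∃ A : Finset V, A = F.filter fun w => 3 ≤ dg H F w ∧ 3 ≤ hh H F w := ⟨_, rfl⟩
  have mL : ∀ w, w ∈ L ↔ w ∈ F ∧ dg H F w = 2 := fun w => by rw [hL, mem_filter]
  have mB : ∀ w, w ∈ B ↔ w ∈ F ∧ 3 ≤ dg H F w ∧ hh H F w = 2 := fun w => by rw [hB, mem_filter]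
  have mA : ∀ w, w ∈ A ↔ w ∈ F ∧ 3 ≤ dg H F w ∧ 3 ≤ hh H F w := fun w => by rw [hA, mem_filter]
  have hBA : Disjoint B A := by
    rw [Finset.disjoint_left]
    intro w h1 h2
    have h3 := ((mB w).1 h1).2.2
    have h4 := ((mA w).1 h2).2.2
    omega
  have hLBA : Disjoint L (B ∪ A) := by
    rw [Finset.disjoint_left]
    intro w h1 h2
    have h3 := ((mL w).1 h1).2
    rcases mem_union.1 h2 with h4 | h4
    · have h5 := ((mB w).1 h4).2.1
      omega
    · have h5 := ((mA w).1 h4).2.1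
      omega
  have hFu : F = L ∪ (B ∪ A) := by
    ext w
    rw [mem_union, mem_union, mL, mB, mA]
    constructor
    · intro h
      by_cases h1 : dg H F w = 2
      · exact Or.inl ⟨h, h1⟩
      · by_cases h2 : hh H F w = 2
        · exact Or.inr (Or.inl ⟨h, hmin2 w h h1, h2⟩)
        · exact Or.inr (Or.inr ⟨h, hmin2 w h h1, hmin3 w h (hmin2 w h h1) h2⟩)
    · rintro (h | h | h) <;> exact h.1
  -- light and heavy neighbours
  have hsplit : ∀ a, dg H F a = (L.filter fun w => H.Adj a w).card + hh H F a := by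
    intro a
    unfold hh
    rw [← card_union_of_disjoint]
    · unfold dg
      congr 1
      ext w
      rw [mem_union, mem_filter, mem_filter, mem_filter, mL]
      constructor
      · rintro ⟨h1, h2⟩
        by_cases h3 : dg H F w = 2
        · exact Or.inl ⟨⟨h1, h3⟩, h2⟩
        · exact Or.inr ⟨h1, h2, hmin2 w h1 h3⟩
      · rintro (h | h)
        · exact ⟨h.1.1, h.2⟩
        · exact ⟨h.1, h.2.1⟩
    · rw [Finset.disjoint_left]
      intro w h1 h2
      have h3 := ((mL w).1 (mem_filter.1 h1).1).2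
      have h4 := (mem_filter.1 h2).2.2
      omega
  have hsplit2 : ∀ a, hh H F a = (B.filter fun w => H.Adj a w).card +
      (A.filter fun w => H.Adj a w).card := by
    intro a
    rw [← card_union_of_disjoint]
    · unfold hh
      congr 1
      ext w
      rw [mem_union, mem_filter, mem_filter, mem_filter, mB, mA]
      constructor
      · rintro ⟨h1, h2, h3⟩
        by_cases h4 : hh H F w = 2
        · exact Or.inl ⟨⟨h1, h3, h4⟩, h2⟩
        · exact Or.inr ⟨⟨h1, h3, hmin3 w h1 h3 h4⟩, h2⟩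
      · rintro (h | h)
        · exact ⟨h.1.1, h.2, h.1.2.1⟩
        · exact ⟨h.1.1, h.2, h.1.2.1⟩
    · exact hBA.mono (filter_subset _ _) (filter_subset _ _)
  -- light vertices have two heavy neighbours
  have hl2 : ∀ b ∈ L, hh H F b = 2 := by
    intro b hb
    have h1 := hsplit b
    rw [((mL b).1 hb).2] at h1
    have h2 : (L.filter fun w => H.Adj b w).card = 0 := by
      rw [card_eq_zero, filter_eq_empty_iff]
      intro w hw hbw
      exact hN0 b ((mL b).1 hb).1 w ((mL w).1 hw).1 hbw ((mL b).1 hb).2 ((mL w).1 hw).2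
    omega
  -- vertices of `B` have both heavy neighbours in `A`
  have hb2 : ∀ b ∈ B, (A.filter fun w => H.Adj b w).card = 2 := by
    intro b hb
    have h1 := hsplit2 b
    rw [((mB b).1 hb).2.2] at h1
    have h2 : (B.filter fun w => H.Adj b w).card = 0 := by
      rw [card_eq_zero, filter_eq_empty_iff]
      intro w hw hbw
      exact hN2 b ((mB b).1 hb).1 w ((mB w).1 hw).1 hbw ((mB b).1 hb).2.1 ((mB w).1 hw).2.1
        ((mB b).1 hb).2.2 ((mB w).1 hw).2.2
    omega
  -- vertices of `A` have a neighbour in `A`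
  have ha1 : ∀ a ∈ A, (B.filter fun w => H.Adj a w).card + 1 ≤ hh H F a := by
    intro a ha
    obtain ⟨b, hb, hab, hb3, hbh⟩ := hN5 a ((mA a).1 ha).1 ((mA a).1 ha).2.1
    have h1 := hsplit2 a
    have h2 : 0 < (A.filter fun w => H.Adj a w).card :=
      card_pos.2 ⟨b, mem_filter.2 ⟨(mA b).2 ⟨hb, hb3, hmin3 b hb hb3 hbh⟩, hab⟩⟩
    omega
  -- double counting
  have d1 : ∑ a ∈ B ∪ A, (L.filter fun w => H.Adj a w).card = 2 * L.card := by
    have h1 := Finset.sum_card_bipartiteAbove_eq_sum_card_bipartiteBelow (s := B ∪ A) (t := L)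
      (fun a b => H.Adj a b)
    unfold Finset.bipartiteAbove Finset.bipartiteBelow at h1
    rw [h1]
    have h2 : ∀ b ∈ L, ((B ∪ A).filter fun a => H.Adj a b).card = 2 := by
      intro b hb
      rw [← hl2 b hb]
      unfold hh
      congr 1
      ext w
      rw [mem_filter, mem_filter, mem_union, mB, mA]
      constructor
      · rintro ⟨h | h, h'⟩
        · exact ⟨h.1, h'.symm, h.2.1⟩
        · exact ⟨h.1, h'.symm, h.2.1⟩
      · rintro ⟨h, h', h''⟩
        refine ⟨?_, h'.symm⟩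
        by_cases h3 : hh H F w = 2
        · exact Or.inl ⟨h, h'', h3⟩
        · exact Or.inr ⟨h, h'', hmin3 w h h'' h3⟩
    rw [sum_congr rfl h2, sum_const, smul_eq_mul, mul_comm]
  have d2 : ∑ a ∈ A, (B.filter fun w => H.Adj a w).card = 2 * B.card := by
    have h1 := Finset.sum_card_bipartiteAbove_eq_sum_card_bipartiteBelow (s := A) (t := B)
      (fun a b => H.Adj a b)
    unfold Finset.bipartiteAbove Finset.bipartiteBelow at h1
    rw [h1]
    have h2 : ∀ b ∈ B, (A.filter fun a => H.Adj a b).card = 2 := by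
      intro b hb
      rw [← hb2 b hb]
      congr 1
      ext w
      rw [mem_filter, mem_filter, H.adj_comm]
    rw [sum_congr rfl h2, sum_const, smul_eq_mul, mul_comm]
  -- sums
  have s1 : ∑ v ∈ L, dg H F v = 2 * L.card := by
    rw [sum_congr rfl fun w hw => ((mL w).1 hw).2, sum_const, smul_eq_mul, mul_comm]
  have s2 : ∑ v ∈ B ∪ A, dg H F v = 2 * L.card + ∑ v ∈ B ∪ A, hh H F v := by
    rw [← d1, ← sum_add_distrib]
    exact sum_congr rfl fun a _ => hsplit a
  have s3 : ∑ v ∈ B, hh H F v = 2 * B.card := by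
    rw [sum_congr rfl fun w hw => ((mB w).1 hw).2.2, sum_const, smul_eq_mul, mul_comm]
  have s4 : ∑ v ∈ B ∪ A, hh H F v = 2 * B.card + ∑ v ∈ A, hh H F v := by
    rw [sum_union hBA, s3]
  have s5 : 3 * A.card ≤ ∑ v ∈ A, hh H F v := by
    have h := Finset.card_nsmul_le_sum A (fun v => hh H F v) 3 fun a ha => ((mA a).1 ha).2.2
    rw [smul_eq_mul] at h
    linarith
  have s6 : 2 * B.card + A.card ≤ ∑ v ∈ A, hh H F v := by
    rw [← d2]
    have h := sum_le_sum ha1
    rw [sum_add_distrib, sum_const, smul_eq_mul, mul_one] at h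
    exact h
  have s7 : B.card ≤ 2 * L.card := by
    rw [← d1, sum_union hBA]
    have h := Finset.card_nsmul_le_sum B (fun a => (L.filter fun w => H.Adj a w).card) 1 (by
      intro a ha
      have h1 := hsplit a
      have h2 := ((mB a).1 ha).2
      show 1 ≤ (L.filter fun w => H.Adj a w).card
      omega)
    rw [smul_eq_mul, mul_one] at h
    omega
  have c1 : F.card = L.card + (B.card + A.card) := by
    conv_lhs => rw [hFu]
    rw [card_union_of_disjoint hLBA, card_union_of_disjoint hBA]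
  have c2 : ∑ v ∈ F, dg H F v = ∑ v ∈ L, dg H F v + ∑ v ∈ B ∪ A, dg H F v := by
    rw [← sum_union hLBA, ← hFu]
  have c3 : F3 H F = B ∪ A := by
    ext w
    rw [F3, mem_filter, mem_union, mB, mA]
    constructor
    · rintro ⟨h1, h2⟩
      by_cases h3 : hh H F w = 2
      · exact Or.inl ⟨h1, h2, h3⟩
      · exact Or.inr ⟨h1, h2, hmin3 w h1 h2 h3⟩
    · rintro (h | h)
      · exact ⟨h.1, h.2.1⟩
      · exact ⟨h.1, h.2.1⟩
  have c4 : ∀ v, dg H (F3 H F) v = hh H F v := by
    intro v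
    unfold dg hh
    congr 1
    ext w
    rw [mem_filter, mem_filter, F3, mem_filter]
    constructor
    · rintro ⟨⟨h1, h2⟩, h3⟩
      exact ⟨h1, h3, h2⟩
    · rintro ⟨h1, h3, h2⟩
      exact ⟨⟨h1, h2⟩, h3⟩
  have c5 : (F3 H F).card = B.card + A.card := by
    rw [c3, card_union_of_disjoint hBA]
  have c6 : ∑ v ∈ F3 H F, dg H (F3 H F) v = 2 * B.card + ∑ v ∈ A, hh H F v := by
    rw [← s4, ← c3]
    exact sum_congr rfl fun v _ => c4 v
  constructor
  · rw [c2, s1, s2, s4, c1]
    omega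
  · rw [c5, c6]
    omega

end Pool.Agent.H53.GG
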