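import Pool.Agent.H53.GG.Cond

/-!
# One step of the construction
-/

set_option autoImplicit false

namespace Pool.Agent.H53.GG

open Finset

section facts

variable {V : Type} {H : SimpleGraph V} {F O I T J : Set V} {v : V} {y par z : V → V}

/-- an old neighbour of `v` is `y a` or not adjacent to `y a` -/
theorem Ext.k1 (hCN : CN H) (E : Ext H F O I T J v y par z) {p : V} (hp : p ∈ O)
    (hvp : H.Adj v p) {a : V} (ha : a ∈ I) (hne : y a ≠ p) : ¬ H.Adj (y a) p := by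
  intro h
  have h1 : ¬ H.Adj v (y a) := fun h2 => hne (E.pu _ (E.yO a ha) _ hp h2 hvp)
  have h2 : v ≠ y a := fun h3 => E.vO (h3 ▸ E.yO a ha)
  have h3 : H.Adj (y a) a := ((E.iO a ha (y a) (E.yO a ha)).2 rfl).symm
  have h4 := hCN v (y a) a p h2 h1 (E.vi a ha) h3 hvp h
  exact E.OI p hp (h4 ▸ ha)

theorem Ext.k2 (hCN : CN H) (E : Ext H F O I T J v y par z) {a b : V} (ha : a ∈ I) (hb : b ∈ I)
    (hab : a ≠ b) : y a ≠ y b := by
  intro h
  have h1 : H.Adj a (y a) := (E.iO a ha (y a) (E.yO a ha)).2 rfl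
  have h2 : H.Adj b (y a) := by
    rw [h]
    exact (E.iO b hb (y b) (E.yO b hb)).2 rfl
  have h3 := hCN a b v (y a) hab (E.ii a ha b hb) (E.vi a ha).symm (E.vi b hb).symm h1 h2
  exact E.vO (h3 ▸ E.yO a ha)

theorem Ext.k3 (hCN : CN H) (E : Ext H F O I T J v y par z) {c : V} (hc : c ∈ J) :
    ¬ H.Adj v (z c) := by
  intro h
  have h1 : v ≠ c := fun h2 => E.vJ (h2 ▸ hc)
  have h2 : H.Adj c (z c) := (E.jO c hc (z c) (E.zO c hc)).2 rfl
  have h3 : H.Adj c (par c) := (E.ji c hc (par c) (E.pj c hc)).2 rfl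
  have h4 := hCN v c (par c) (z c) h1 (E.vj c hc) (E.vi _ (E.pj c hc)) h3 h h2
  exact E.OI _ (E.zO c hc) (h4 ▸ E.pj c hc)

theorem Ext.k3' (hCN : CN H) (E : Ext H F O I T J v y par z) {c : V} (hc : c ∈ J)
    (hne : z c ≠ y (par c)) : ¬ H.Adj (y (par c)) (z c) := by
  intro h
  have hp := E.pj c hc
  have h0 : c ≠ y (par c) := fun h1 => E.OJ _ (E.yO _ hp) (h1 ▸ hc)
  have h1 : ¬ H.Adj c (y (par c)) := fun h2 =>
    hne ((E.jO c hc _ (E.yO _ hp)).1 h2).symm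
  have h2 : H.Adj c (z c) := (E.jO c hc (z c) (E.zO c hc)).2 rfl
  have h3 : H.Adj c (par c) := (E.ji c hc (par c) hp).2 rfl
  have h4 : H.Adj (y (par c)) (par c) := ((E.iO _ hp _ (E.yO _ hp)).2 rfl).symm
  have h5 := hCN c (y (par c)) (par c) (z c) h0 h1 h3 h4 h2 h
  exact E.OI _ (E.zO c hc) (h5 ▸ hp)

theorem Ext.k5 (hCN : CN H) (E : Ext H F O I T J v y par z) {p : V} (hp : p ∈ O)
    (hvp : H.Adj v p) {t : V} (ht : t ∈ T) : y (par t) ≠ p := by
  intro h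
  have hpt := E.pt t ht
  have h0 : t ≠ p := fun h1 => E.OT p hp (h1 ▸ ht)
  have h1 : ¬ H.Adj t p := E.tO t ht p hp
  have h2 : H.Adj t (par t) := (E.ti t ht _ hpt).2 rfl
  have h3 : H.Adj p (par t) := by
    rw [← h]
    exact ((E.iO _ hpt _ (E.yO _ hpt)).2 rfl).symm
  have h4 := hCN t p v (par t) h0 h1 (E.vt t ht).symm hvp.symm h2 h3
  exact E.vI (h4 ▸ hpt)

theorem Ext.k6 (hCN : CN H) (E : Ext H F O I T J v y par z) {t t' : V} (ht : t ∈ T)
    (ht' : t' ∈ T) (hne : t ≠ t') : par t ≠ par t' := by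
  intro h
  have h1 : H.Adj t (par t) := (E.ti t ht _ (E.pt t ht)).2 rfl
  have h2 : H.Adj t' (par t) := by
    rw [h]
    exact (E.ti t' ht' _ (E.pt t' ht')).2 rfl
  have h3 := hCN t t' v (par t) hne (E.tt t ht t' ht') (E.vt t ht).symm (E.vt t' ht').symm h1 h2
  exact E.vI (h3 ▸ E.pt t ht)

end facts

/-- vectors of the same plane -/
theorem not_par {a b c : R3} (ha : a ≠ 0) (h1 : dt c a = 0) (h2 : dt c b ≠ 0) : cr a b ≠ 0 := by
  intro h
  have h3 : ∀ i, cr c (cr a b) i = a i * dt c b - b i * dt c a := cr_cr c a b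
  apply ha
  funext i
  have h4 := h3 i
  rw [h, cr_zero_right, h1, mul_zero, sub_zero] at h4
  rcases mul_eq_zero.1 h4.symm with h5 | h5
  · exact h5
  · exact absurd h5 h2

theorem ext_rep {V : Type} {H : SimpleGraph V} (hCN : CN H) {F O : Finset V} {I T J : Set V}
    {v : V} {y par z : V → V} (E : Ext H F O I T J v y par z) {φ : V → R3}
    (hφ : Rep H (O : Set V) φ) : ∃ ψ : V → R3, Rep H (F : Set V) ψ := by
  classical
  -- the old neighbour of `v`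
  obtain ⟨q, hq⟩ : ∃ q : R3, (q = 0 ∧ ∀ w ∈ O, ¬ H.Adj v w) ∨ ∃ p ∈ O, H.Adj v p ∧ q = φ p := by
    by_cases h : ∃ p ∈ O, H.Adj v p
    · obtain ⟨p, hp, hvp⟩ := h
      exact ⟨φ p, Or.inr ⟨p, hp, hvp, rfl⟩⟩
    · push Not at h
      exact ⟨0, Or.inl ⟨rfl, h⟩⟩
  have hφ0 : ∀ w ∈ O, φ w ≠ 0 := fun w hw => (hφ w hw).1
  have hφd : ∀ a ∈ O, ∀ b ∈ O, a ≠ b → ¬ H.Adj a b → dt (φ a) (φ b) ≠ 0 := by
    intro a ha b hb hab hn h
    exact hn ((((hφ a ha).2 b hb hab).1).1 h)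
  have hφc : ∀ a ∈ O, ∀ b ∈ O, a ≠ b → cr (φ a) (φ b) ≠ 0 := fun a ha b hb hab =>
    ((hφ a ha).2 b hb hab).2
  have hyO : ∀ a ∈ I, y a ∈ O := fun a ha => by exact_mod_cast E.yO a ha
  have hzO : ∀ a ∈ J, z a ∈ O := fun a ha => by exact_mod_cast E.zO a ha
  have hy0 : ∀ a ∈ I, φ (y a) ≠ 0 := fun a ha => hφ0 _ (hyO a ha)
  have hq1 : ∀ a ∈ I, q = 0 ∨ dt (φ (y a)) q ≠ 0 := by
    intro a ha
    rcases hq with ⟨h, -⟩ | ⟨p, hp, hvp, rfl⟩
    · exact Or.inl h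
    · right
      by_cases h : y a = p
      · rw [h]
        exact fun h2 => hφ0 p hp (dt_self.1 h2)
      · exact hφd _ (hyO a ha) p hp h (E.k1 hCN (by exact_mod_cast hp) hvp ha h)
  have hq2 : ∀ t ∈ T, q = 0 ∨ cr (φ (y (par t))) q ≠ 0 := by
    intro t ht
    rcases hq with ⟨h, -⟩ | ⟨p, hp, hvp, rfl⟩
    · exact Or.inl h
    · right
      exact hφc _ (hyO _ (E.pt t ht)) p hp (E.k5 hCN (by exact_mod_cast hp) hvp ht)
  have hz : ∀ c ∈ J, dt (φ (y (par c))) (φ (z c)) ≠ 0 := by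
    intro c hc
    by_cases h : z c = y (par c)
    · rw [h]
      exact fun h2 => hy0 _ (E.pj c hc) (dt_self.1 h2)
    · exact hφd _ (hyO _ (E.pj c hc)) _ (hzO c hc) (Ne.symm h) (E.k3' hCN hc h)
  have hnp : ∀ w ∈ O, ¬ H.Adj v w → NP q (φ w) := by
    intro w hw hn
    rcases hq with ⟨rfl, -⟩ | ⟨p, hp, hvp, rfl⟩
    · exact np_zero (hφ0 w hw)
    · exact np_of_cr (hφc w hw p hp (by rintro rfl; exact hn hvp))
  -- the finite index sets
  obtain ⟨If, hIf⟩ : ∃ s : Finset V, ∀ a, a ∈ s ↔ a ∈ I :=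
    ⟨F.filter (· ∈ I), fun a => by
      rw [mem_filter]
      exact ⟨fun h => h.2, fun h => ⟨by
        have := (E.hF a).2 (Or.inr (Or.inr (Or.inl h)))
        exact_mod_cast this, h⟩⟩⟩
  obtain ⟨Tf, hTf⟩ : ∃ s : Finset V, ∀ a, a ∈ s ↔ a ∈ T :=
    ⟨F.filter (· ∈ T), fun a => by
      rw [mem_filter]
      exact ⟨fun h => h.2, fun h => ⟨by
        have := (E.hF a).2 (Or.inr (Or.inr (Or.inr (Or.inl h))))
        exact_mod_cast this, h⟩⟩⟩
  obtain ⟨Jf, hJf⟩ : ∃ s : Finset V, ∀ a, a ∈ s ↔ a ∈ J :=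
    ⟨F.filter (· ∈ J), fun a => by
      rw [mem_filter]
      exact ⟨fun h => h.2, fun h => ⟨by
        have := (E.hF a).2 (Or.inr (Or.inr (Or.inr (Or.inr h))))
        exact_mod_cast this, h⟩⟩⟩
  -- the conditions
  have f1 := NV.prod (q := q) (O.filter fun w => ¬ H.Adj v w) (fun w x => dt x (φ w))
    (fun w hw => nv_dt (hnp w (mem_filter.1 hw).1 (mem_filter.1 hw).2))
  have f2 := NV.prod (q := q) O (fun w x => dt (cr x (φ w)) (cr x (φ w)))
    (fun w hw => nv_cr q (hφ0 w hw))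
  have f3 := NV.prod (q := q) ((If ×ˢ O).filter fun u => u.2 ≠ y u.1)
    (fun u x => dt (cr (φ (y u.1)) x) (φ u.2)) (fun u hu => by
      obtain ⟨h1, h2⟩ := mem_filter.1 hu
      obtain ⟨h3, h4⟩ := mem_product.1 h1
      exact nv_I (hq1 _ ((hIf _).1 h3)) (hφc _ h4 _ (hyO _ ((hIf _).1 h3)) h2))
  have f4 := NV.prod (q := q) ((If ×ˢ If).filter fun u => u.1 ≠ u.2)
    (fun u x => dt (cr (φ (y u.1)) x) (cr (φ (y u.2)) x)) (fun u hu => by
      obtain ⟨h1, -⟩ := mem_filter.1 hu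
      obtain ⟨h3, h4⟩ := mem_product.1 h1
      have h3' := (hIf _).1 h3
      have h4' := (hIf _).1 h4
      exact nv_II (hy0 _ h3') (hy0 _ h4') (hq1 _ h3') (hq1 _ h4'))
  have f5 := NV.prod (q := q) ((If ×ˢ If).filter fun u => u.1 ≠ u.2)
    (fun u x => dt x (cr (φ (y u.1)) (φ (y u.2)))) (fun u hu => by
      obtain ⟨h1, h2⟩ := mem_filter.1 hu
      obtain ⟨h3, h4⟩ := mem_product.1 h1
      have h3' := (hIf _).1 h3
      have h4' := (hIf _).1 h4
      exact nv_det (hq1 _ h3') (hφc _ (hyO _ h3') _ (hyO _ h4') (E.k2 hCN h3' h4' h2)))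
  have f6 := NV.prod (q := q) (Tf ×ˢ O)
    (fun u x => dt (cr x (cr (φ (y (par u.1))) x)) (φ u.2)) (fun u hu => by
      obtain ⟨h3, h4⟩ := mem_product.1 hu
      have h3' := (hTf _).1 h3
      exact nv_T (hy0 _ (E.pt _ h3')) (hφ0 _ h4) (hq1 _ (E.pt _ h3')) (hq2 _ h3'))
  have f7 := NV.prod (q := q) ((Jf ×ˢ O).filter fun u => u.2 ≠ z u.1)
    (fun u x => dt (cr (cr (φ (y (par u.1))) x) (φ (z u.1))) (φ u.2)) (fun u hu => by
      obtain ⟨h1, h2⟩ := mem_filter.1 hu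
      obtain ⟨h3, h4⟩ := mem_product.1 h1
      have h3' := (hJf _).1 h3
      exact nv_J (hq1 _ (E.pj _ h3')) (hφc _ (hzO _ h3') _ h4 (Ne.symm h2)) (hz _ h3')
        (hy0 _ (E.pj _ h3')))
  have f8 := NV.prod (q := q) Jf
    (fun c x => dt (cr (cr (φ (y (par c))) x) (φ (z c))) x) (fun c hc => nv_Jx (hz c ((hJf c).1 hc)))
  have f9 := NV.prod (q := q) ((Jf ×ˢ Jf).filter fun u => u.1 ≠ u.2)
    (fun u x => dt (cr (cr (φ (y (par u.1))) x) (φ (z u.1)))
      (cr (cr (φ (y (par u.2))) x) (φ (z u.2)))) (fun u hu => by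
      obtain ⟨h1, -⟩ := mem_filter.1 hu
      obtain ⟨h3, h4⟩ := mem_product.1 h1
      have h3' := (hJf _).1 h3
      have h4' := (hJf _).1 h4
      by_cases h5 : par u.1 = par u.2
      · have h6 : dt (φ (y (par u.1))) (φ (z u.2)) ≠ 0 := by
          rw [h5]
          exact hz _ h4'
        rw [← h5]
        exact nv_JJ (hq1 _ (E.pj _ h3')) (hz _ h3') h6 (hy0 _ (E.pj _ h3'))
          (hφ0 _ (hzO _ h3')) (hφ0 _ (hzO _ h4'))
      · have h6 : q = 0 := by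
          rcases E.alt with h7 | h7
          · rcases hq with ⟨h8, -⟩ | ⟨p, hp, hvp, -⟩
            · exact h8
            · exact absurd hvp (h7 p (by exact_mod_cast hp))
          · exact absurd (h7 _ h3' _ h4') h5
        rw [h6]
        exact nv_JJ' (hz _ h3') (hz _ h4'))
  obtain ⟨x, hx, hall⟩ := ((((((((((nv_self q).mul f1).mul f2).mul f3).mul f4).mul f5).mul
    f6).mul f7).mul f8).mul f9).2
  simp only [mul_ne_zero_iff, prod_ne_zero_iff, mem_filter, mem_product, Prod.forall] at hall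
  obtain ⟨⟨⟨⟨⟨⟨⟨⟨⟨hxx, g1⟩, g2⟩, g3⟩, g4⟩, g5⟩, g6⟩, g7⟩, g8⟩, g9⟩ := hall
  have hI0 : ∀ a ∈ I, cr (φ (y a)) x ≠ 0 := by
    intro a ha h
    apply g2 _ (hyO a ha)
    have h1 : cr x (φ (y a)) = 0 := by
      funext i
      rw [cr_anti, h]
      simp
    rw [h1, dt_zero_left]
  have hx0 : x ≠ 0 := fun h => hxx (by rw [h, dt_zero_left])
  -- the new map
  obtain ⟨ψ, hψO, hψv, hψI, hψT, hψJ⟩ : ∃ ψ : V → R3, (∀ a ∈ O, ψ a = φ a) ∧ ψ v = x ∧
      (∀ a ∈ I, ψ a = cr (φ (y a)) x) ∧ (∀ a ∈ T, ψ a = cr x (cr (φ (y (par a))) x)) ∧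
      ∀ a ∈ J, ψ a = cr (cr (φ (y (par a))) x) (φ (z a)) := by
    refine ⟨fun a => if a ∈ O then φ a else if a = v then x else if a ∈ I then cr (φ (y a)) x
      else if a ∈ T then cr x (cr (φ (y (par a))) x)
      else cr (cr (φ (y (par a))) x) (φ (z a)), ?_, ?_, ?_, ?_, ?_⟩
    · intro a ha
      simp only [ha, if_true]
    · have h1 : v ∉ O := by exact_mod_cast E.vO
      simp only [h1, if_false, if_true]
    · intro a ha
      have h1 : a ∉ O := fun h => E.OI a (by exact_mod_cast h) ha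
      have h2 : a ≠ v := fun h => E.vI (h ▸ ha)
      simp only [h1, h2, ha, if_false, if_true]
    · intro a ha
      have h1 : a ∉ O := fun h => E.OT a (by exact_mod_cast h) ha
      have h2 : a ≠ v := fun h => E.vT (h ▸ ha)
      have h3 : a ∉ I := fun h => E.IT a h ha
      simp only [h1, h2, h3, ha, if_false, if_true]
    · intro a ha
      have h1 : a ∉ O := fun h => E.OJ a (by exact_mod_cast h) ha
      have h2 : a ≠ v := fun h => E.vJ (h ▸ ha)
      have h3 : a ∉ I := fun h => E.IJ a h ha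
      have h4 : a ∉ T := fun h => E.TJ a h ha
      simp only [h1, h2, h3, h4, if_false]
  -- the dot products
  have dOO : ∀ a ∈ O, ∀ b ∈ O, a ≠ b → (dt (ψ a) (ψ b) = 0 ↔ H.Adj a b) := by
    intro a ha b hb hab
    rw [hψO a ha, hψO b hb]
    exact ((hφ a ha).2 b hb hab).1
  have dvO : ∀ w ∈ O, (dt (ψ v) (ψ w) = 0 ↔ H.Adj v w) := by
    intro w hw
    rw [hψv, hψO w hw]
    constructor
    · intro h
      by_contra hn
      exact g1 w ⟨hw, hn⟩ h
    · intro h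
      rcases hq with ⟨-, h1⟩ | ⟨p, hp, hvp, rfl⟩
      · exact absurd h (h1 w hw)
      · have h2 : w = p := E.pu w (by exact_mod_cast hw) p (by exact_mod_cast hp) h hvp
        rw [h2, dt_comm]
        exact hx
  have dvI : ∀ a ∈ I, (dt (ψ v) (ψ a) = 0 ↔ H.Adj v a) := by
    intro a ha
    rw [hψv, hψI a ha]
    exact iff_of_true (dt_cr_right _ _) (E.vi a ha)
  have dvT : ∀ a ∈ T, (dt (ψ v) (ψ a) = 0 ↔ H.Adj v a) := by
    intro a ha
    rw [hψv, hψT a ha]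
    exact iff_of_true (dt_cr_left _ _) (E.vt a ha)
  have dvJ : ∀ a ∈ J, (dt (ψ v) (ψ a) = 0 ↔ H.Adj v a) := by
    intro a ha
    rw [hψv, hψJ a ha, dt_comm]
    exact iff_of_false (g8 a ((hJf a).2 ha)) (E.vj a ha)
  have dIO : ∀ a ∈ I, ∀ w ∈ O, (dt (ψ a) (ψ w) = 0 ↔ H.Adj a w) := by
    intro a ha w hw
    rw [hψI a ha, hψO w hw, E.iO a ha w (by exact_mod_cast hw)]
    constructor
    · intro h
      by_contra hn
      exact g3 a w ⟨⟨(hIf a).2 ha, hw⟩, hn⟩ h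
    · rintro rfl
      rw [dt_comm]
      exact dt_cr_left _ _
  have dII : ∀ a ∈ I, ∀ b ∈ I, a ≠ b → (dt (ψ a) (ψ b) = 0 ↔ H.Adj a b) := by
    intro a ha b hb hab
    rw [hψI a ha, hψI b hb]
    exact iff_of_false (g4 a b ⟨⟨(hIf a).2 ha, (hIf b).2 hb⟩, hab⟩) (E.ii a ha b hb)
  have dTI : ∀ a ∈ T, ∀ b ∈ I, (dt (ψ a) (ψ b) = 0 ↔ H.Adj a b) := by
    intro a ha b hb
    rw [hψT a ha, hψI b hb, E.ti a ha b hb]
    constructor
    · intro h
      by_contra hn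
      have h1 : dt (cr x (cr (φ (y (par a))) x)) (cr (φ (y b)) x) =
          dt x x * dt x (cr (φ (y b)) (φ (y (par a)))) * -1 := by
        simp only [dt, cr, Matrix.cons_val_zero, Matrix.cons_val_one, Matrix.cons_val]
        ring
      rw [h1] at h
      have h2 := g5 b (par a) ⟨⟨(hIf b).2 hb, (hIf _).2 (E.pt a ha)⟩, hn⟩
      exact (mul_ne_zero (mul_ne_zero hxx h2) (by norm_num)) h
    · intro h
      rw [h, dt_comm]
      exact dt_cr_right _ _
  have dJI : ∀ a ∈ J, ∀ b ∈ I, (dt (ψ a) (ψ b) = 0 ↔ H.Adj a b) := by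
    intro a ha b hb
    rw [hψJ a ha, hψI b hb, E.ji a ha b hb]
    constructor
    · intro h
      by_contra hn
      have h1 : dt (cr (cr (φ (y (par a))) x) (φ (z a))) (cr (φ (y b)) x) =
          dt x (φ (z a)) * dt x (cr (φ (y b)) (φ (y (par a)))) := by
        simp only [dt, cr, Matrix.cons_val_zero, Matrix.cons_val_one, Matrix.cons_val]
        ring
      rw [h1] at h
      have h2 := g5 b (par a) ⟨⟨(hIf b).2 hb, (hIf _).2 (E.pj a ha)⟩, hn⟩
      exact (mul_ne_zero (g1 _ ⟨hzO a ha, E.k3 hCN ha⟩) h2) h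
    · intro h
      rw [h, dt_comm]
      exact dt_cr_left _ _
  have dTO : ∀ a ∈ T, ∀ w ∈ O, (dt (ψ a) (ψ w) = 0 ↔ H.Adj a w) := by
    intro a ha w hw
    rw [hψT a ha, hψO w hw]
    exact iff_of_false (g6 a w ⟨(hTf a).2 ha, hw⟩) (E.tO a ha w (by exact_mod_cast hw))
  have dJO : ∀ a ∈ J, ∀ w ∈ O, (dt (ψ a) (ψ w) = 0 ↔ H.Adj a w) := by
    intro a ha w hw
    rw [hψJ a ha, hψO w hw, E.jO a ha w (by exact_mod_cast hw)]
    constructor
    · intro h
      by_contra hn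
      exact g7 a w ⟨⟨(hJf a).2 ha, hw⟩, hn⟩ h
    · rintro rfl
      rw [dt_comm]
      exact dt_cr_right _ _
  have dTT : ∀ a ∈ T, ∀ b ∈ T, a ≠ b → (dt (ψ a) (ψ b) = 0 ↔ H.Adj a b) := by
    intro a ha b hb hab
    rw [hψT a ha, hψT b hb]
    refine iff_of_false ?_ (E.tt a ha b hb)
    have h1 : dt (cr x (cr (φ (y (par a))) x)) (cr x (cr (φ (y (par b))) x)) =
        dt x x * dt (cr (φ (y (par a))) x) (cr (φ (y (par b))) x) := by
      simp only [dt, cr, Matrix.cons_val_zero, Matrix.cons_val_one, Matrix.cons_val]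
      ring
    rw [h1]
    exact mul_ne_zero hxx (g4 _ _ ⟨⟨(hIf _).2 (E.pt a ha), (hIf _).2 (E.pt b hb)⟩,
      E.k6 hCN ha hb hab⟩)
  have dTJ : ∀ a ∈ T, ∀ b ∈ J, (dt (ψ a) (ψ b) = 0 ↔ H.Adj a b) := by
    intro a ha b hb
    rw [hψT a ha, hψJ b hb]
    refine iff_of_false ?_ (E.tj a ha b hb)
    have h1 : dt (cr x (cr (φ (y (par a))) x)) (cr (cr (φ (y (par b))) x) (φ (z b))) =
        dt x (φ (z b)) * dt (cr (φ (y (par a))) x) (cr (φ (y (par b))) x) * -1 := by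
      simp only [dt, cr, Matrix.cons_val_zero, Matrix.cons_val_one, Matrix.cons_val]
      ring
    rw [h1]
    refine mul_ne_zero (mul_ne_zero (g1 _ ⟨hzO b hb, E.k3 hCN hb⟩) ?_) (by norm_num)
    by_cases h2 : par a = par b
    · rw [h2]
      exact fun h3 => hI0 _ (E.pj b hb) (dt_self.1 h3)
    · exact g4 _ _ ⟨⟨(hIf _).2 (E.pt a ha), (hIf _).2 (E.pj b hb)⟩, h2⟩
  have dJJ : ∀ a ∈ J, ∀ b ∈ J, a ≠ b → (dt (ψ a) (ψ b) = 0 ↔ H.Adj a b) := by
    intro a ha b hb hab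
    rw [hψJ a ha, hψJ b hb]
    exact iff_of_false (g9 a b ⟨⟨(hJf a).2 ha, (hJf b).2 hb⟩, hab⟩) (E.jj a ha b hb)
  have sw : ∀ a b, (dt (ψ a) (ψ b) = 0 ↔ H.Adj a b) → (dt (ψ b) (ψ a) = 0 ↔ H.Adj b a) := by
    intro a b h
    rw [dt_comm, h, H.adj_comm]
  have hdot : ∀ a ∈ F, ∀ b ∈ F, a ≠ b → (dt (ψ a) (ψ b) = 0 ↔ H.Adj a b) := by
    intro a ha b hb hab
    have ha' := (E.hF a).1 (by exact_mod_cast ha)
    have hb' := (E.hF b).1 (by exact_mod_cast hb)
    rcases ha' with ha' | rfl | ha' | ha' | ha' <;> rcases hb' with hb' | rfl | hb' | hb' | hb'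
    · exact dOO a (by exact_mod_cast ha') b (by exact_mod_cast hb') hab
    · exact sw _ _ (dvO a (by exact_mod_cast ha'))
    · exact sw _ _ (dIO b hb' a (by exact_mod_cast ha'))
    · exact sw _ _ (dTO b hb' a (by exact_mod_cast ha'))
    · exact sw _ _ (dJO b hb' a (by exact_mod_cast ha'))
    · exact dvO b (by exact_mod_cast hb')
    · exact absurd rfl hab
    · exact dvI b hb'
    · exact dvT b hb'
    · exact dvJ b hb'
    · exact dIO a ha' b (by exact_mod_cast hb')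
    · exact sw _ _ (dvI a ha')
    · exact dII a ha' b hb' hab
    · exact sw _ _ (dTI b hb' a ha')
    · exact sw _ _ (dJI b hb' a ha')
    · exact dTO a ha' b (by exact_mod_cast hb')
    · exact sw _ _ (dvT a ha')
    · exact dTI a ha' b hb'
    · exact dTT a ha' b hb' hab
    · exact dTJ a ha' b hb'
    · exact dJO a ha' b (by exact_mod_cast hb')
    · exact sw _ _ (dvJ a ha')
    · exact dJI a ha' b hb'
    · exact sw _ _ (dTJ b hb' a ha')
    · exact dJJ a ha' b hb' hab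
  have hne : ∀ a ∈ F, ψ a ≠ 0 := by
    intro a ha
    rcases (E.hF a).1 (by exact_mod_cast ha) with ha' | rfl | ha' | ha' | ha'
    · rw [hψO a (by exact_mod_cast ha')]
      exact hφ0 a (by exact_mod_cast ha')
    · rw [hψv]
      exact hx0
    · rw [hψI a ha']
      exact hI0 a ha'
    · rw [hψT a ha']
      exact cr_ne_of_orth hx0 (hI0 _ (E.pt a ha')) (dt_cr_right _ _)
    · rw [hψJ a ha']
      intro h
      apply g8 a ((hJf a).2 ha')
      rw [h, dt_zero_left]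
  refine ⟨ψ, fun a ha => ⟨hne a (by exact_mod_cast ha), fun b hb hab =>
    ⟨hdot a (by exact_mod_cast ha) b (by exact_mod_cast hb) hab, ?_⟩⟩⟩
  by_cases hadj : H.Adj a b
  · exact cr_ne_of_orth (hne a (by exact_mod_cast ha)) (hne b (by exact_mod_cast hb))
      ((hdot a (by exact_mod_cast ha) b (by exact_mod_cast hb) hab).2 hadj)
  · obtain ⟨c, hc, d, hd, hcd, hac, had⟩ := E.two a ha
    obtain ⟨e, he, hae, hbe⟩ : ∃ e ∈ F, H.Adj a e ∧ ¬ H.Adj b e := by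
      by_cases h1 : H.Adj b c
      · refine ⟨d, by exact_mod_cast hd, had, fun h2 => ?_⟩
        exact hcd (hCN a b c d hab hadj hac h1 had h2)
      · exact ⟨c, by exact_mod_cast hc, hac, h1⟩
    have h1 : e ≠ b := by
      rintro rfl
      exact hadj hae
    have h2 : e ≠ a := by
      rintro rfl
      exact H.irrefl hae
    refine not_par (hne a (by exact_mod_cast ha)) (c := ψ e)
      ((hdot e he a (by exact_mod_cast ha) h2).2 hae.symm) ?_
    intro h3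
    exact hbe ((hdot e he b (by exact_mod_cast hb) h1).1 h3).symm

end Pool.Agent.H53.GG
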