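import Pool.Agent.H53.GG.Defs

/-!
# Geodetic graphs of diameter two without a vertex adjacent to all others

The structure theorem of Stemple: such a graph is regular with a constant number of common neighbours of
adjacent vertices, or it has exactly two vertex degrees.
-/

set_option autoImplicit false

namespace Pool.Agent.H53.GG

open Finset

section stem

variable {W : Type} [Fintype W] [DecidableEq W] {G : SimpleGraph W} [DecidableRel G.Adj]

/-- the neighbours of `x` different from and not adjacent to `z` -/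
def Aw (G : SimpleGraph W) [DecidableRel G.Adj] (x z : W) : Finset W :=
  univ.filter fun w => G.Adj x w ∧ w ≠ z ∧ ¬ G.Adj z w

/-- the common neighbours of `x` and `z` -/
def cf (G : SimpleGraph W) [DecidableRel G.Adj] (x z : W) : Finset W :=
  univ.filter fun w => G.Adj x w ∧ G.Adj z w

theorem mem_Aw {x z w : W} : w ∈ Aw G x z ↔ G.Adj x w ∧ w ≠ z ∧ ¬ G.Adj z w := by
  simp [Aw]

theorem mem_cf {x z w : W} : w ∈ cf G x z ↔ G.Adj x w ∧ G.Adj z w := by
  simp [cf]

theorem cf_comm (x z : W) : cf G x z = cf G z x := by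
  ext w
  rw [mem_cf, mem_cf, and_comm]

theorem deg_eq {x z : W} (h : G.Adj x z) :
    G.degree x = 1 + (cf G x z).card + (Aw G x z).card := by
  have h1 : G.neighborFinset x = insert z (cf G x z ∪ Aw G x z) := by
    ext w
    rw [SimpleGraph.mem_neighborFinset, mem_insert, mem_union, mem_cf, mem_Aw]
    by_cases h2 : w = z
    · subst h2
      simp [h]
    · by_cases h3 : G.Adj z w <;> simp [h2, h3]
  rw [← SimpleGraph.card_neighborFinset_eq_degree, h1, card_insert_of_notMem, card_union_of_disjoint]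
  · omega
  · rw [Finset.disjoint_left]
    intro w h2 h3
    rw [mem_cf] at h2
    rw [mem_Aw] at h3
    exact h3.2.2 h2.2
  · rw [mem_union, mem_cf, mem_Aw]
    rintro (h2 | h2)
    · exact G.irrefl h2.2
    · exact h2.2.1 rfl

theorem half (hc : CN G) (he : ∀ u v, u ≠ v → ¬ G.Adj u v → ∃ w, G.Adj u w ∧ G.Adj v w)
    {x y z : W} (hxy : x ≠ y) (hn : ¬ G.Adj x y) (hxz : G.Adj x z) (hyz : G.Adj y z) :
    (Aw G y z).card ≤ (Aw G x z).card := by
  have hex : ∀ w ∈ Aw G y z, ∃ t, t ∈ Aw G x z ∧ G.Adj w t := by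
    intro w hw
    rw [mem_Aw] at hw
    obtain ⟨h1, h2, h3⟩ := hw
    have hwx : w ≠ x := fun h => hn (by rw [h] at h1; exact h1.symm)
    have hnwx : ¬ G.Adj w x := fun h => h2 (hc x y w z hxy hn h.symm h1 hxz hyz)
    obtain ⟨t, h4, h5⟩ := he w x hwx hnwx
    refine ⟨t, ?_, h4⟩
    rw [mem_Aw]
    refine ⟨h5, fun h => h3 (h ▸ h4.symm), fun h => ?_⟩
    have h6 := hc w z y t h2 (fun h => h3 h.symm) h1.symm hyz.symm h4 h
    exact hn (h6 ▸ h5)
  choose! f hf using hex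
  apply Finset.card_le_card_of_injOn f (fun w hw => (hf w hw).1)
  intro w hw w' hw' hww
  by_contra hne
  have h1 := mem_Aw.1 hw
  have h2 := mem_Aw.1 hw'
  have h3 := mem_Aw.1 (hf w hw).1
  have h4 : f w ≠ y := fun h => hn (h ▸ h3.1)
  have h5 : ¬ G.Adj (f w) y := fun h => h3.2.1 (hc x y (f w) z hxy hn h3.1 h.symm hxz hyz)
  have h6 : G.Adj (f w) w' := by
    have h7 := (hf w' hw').2.symm
    rw [← hww] at h7
    exact h7
  exact hne (hc (f w) y w w' h4 h5 (hf w hw).2.symm h1.1 h6 h2.1)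

theorem deg_sub (hc : CN G) (he : ∀ u v, u ≠ v → ¬ G.Adj u v → ∃ w, G.Adj u w ∧ G.Adj v w)
    {x y z : W} (hxy : x ≠ y) (hn : ¬ G.Adj x y) (hxz : G.Adj x z) (hyz : G.Adj y z) :
    G.degree x + (cf G y z).card = G.degree y + (cf G x z).card := by
  have h1 := half hc he hxy hn hxz hyz
  have h2 := half hc he hxy.symm (fun h => hn h.symm) hyz hxz
  have h3 := deg_eq hxz
  have h4 := deg_eq hyz
  omega

theorem not_simp (hc : CN G) (he : ∀ u v, u ≠ v → ¬ G.Adj u v → ∃ w, G.Adj u w ∧ G.Adj v w)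
    (hU : ∀ u, ∃ v, v ≠ u ∧ ¬ G.Adj u v) {x z : W} (hxz : G.Adj x z) :
    ∃ y, G.Adj y z ∧ y ≠ x ∧ ¬ G.Adj x y := by
  by_contra hcon
  push Not at hcon
  have hcl : ∀ a b, G.Adj a z → G.Adj b z → a ≠ b → G.Adj a b := by
    intro a b ha hb hab
    by_cases h1 : a = x
    · rw [h1]
      exact hcon b hb (fun h => hab (h1.trans h.symm))
    by_cases h2 : b = x
    · rw [h2]
      exact (hcon a ha h1).symm
    by_contra h3
    have h4 := hc a b x z hab h3 (hcon a ha h1).symm (hcon b hb h2).symm ha hb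
    exact hxz.ne h4
  have hz : ∀ u, u ≠ z → ¬ G.Adj z u → ∀ z', G.Adj z z' → G.Adj u z' → ∀ w, G.Adj u w → w ≠ z' →
      G.Adj z' w := by
    intro u hu hzu z' h1 h2 w h3 h4
    by_contra h5
    have h6 := half hc he (x := z) (y := u) (z := z') hu.symm hzu h1 h2
    have h7 : (Aw G z z') = ∅ := by
      rw [Finset.eq_empty_iff_forall_notMem]
      intro t ht
      rw [mem_Aw] at ht
      exact ht.2.2 (hcl z' t h1.symm ht.1.symm ht.2.1.symm)
    rw [h7, card_empty, Nat.le_zero, card_eq_zero, Finset.eq_empty_iff_forall_notMem] at h6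
    exact h6 w (mem_Aw.2 ⟨h3, h4, h5⟩)
  obtain ⟨u0, hu0, hu0'⟩ := hU z
  obtain ⟨z0, hz0, hz0'⟩ := he z u0 hu0.symm hu0'
  obtain ⟨v, hv, hv'⟩ := hU z0
  by_cases h1 : v = z
  · exact hv' (h1 ▸ hz0.symm)
  by_cases h2 : G.Adj z v
  · exact hv' (hcl z0 v hz0.symm h2.symm hv.symm)
  obtain ⟨z1, hz1, hz1'⟩ := he z v (Ne.symm h1) h2
  have h3 : z1 ≠ z0 := by
    rintro rfl
    exact hv' hz1'.symm
  have h4 : ¬ G.Adj u0 z1 := fun h => h3 (hc z u0 z1 z0 hu0.symm hu0' hz1 h hz0 hz0')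
  have h5 : u0 ≠ v := by
    rintro rfl
    exact hv' hz0'.symm
  by_cases h6 : G.Adj u0 v
  · exact hv' (hz u0 hu0 hu0' z0 hz0 hz0' v h6 hv)
  obtain ⟨w, hw, hw'⟩ := he u0 v h5 h6
  have h7 : w ≠ z0 := by
    rintro rfl
    exact hv' hw'.symm
  have h8 : w ≠ z1 := by
    rintro rfl
    exact h4 hw
  have h9 := hz u0 hu0 hu0' z0 hz0 hz0' w hw h7
  have h10 := hz v h1 h2 z1 hz1 hz1' w hw' h8
  by_cases h11 : G.Adj z w
  · exact h7 (hc z u0 w z0 hu0.symm hu0' h11 hw hz0 hz0')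
  · have h12 : z ≠ w := by
      rintro rfl
      exact hu0' hw.symm
    exact h3 (hc z w z1 z0 h12 h11 hz1 h10.symm hz0 h9.symm)

theorem tri_cm (hc : CN G) {x x' z : W} (hxz : G.Adj x z) (hxz' : G.Adj x' z) (hxx : G.Adj x x') :
    (cf G x z).card = (cf G x' z).card := by
  have key : ∀ a b, G.Adj a z → G.Adj b z → G.Adj a b → ∀ w, w ≠ b → G.Adj a w → G.Adj z w →
      G.Adj b w := by
    intro a b ha hb hab w hw h1 h2
    by_contra h3
    exact ha.ne (hc b w a z hw.symm h3 hab.symm h1.symm hb h2.symm)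
  have h1 : (cf G x z).erase x' = (cf G x' z).erase x := by
    ext w
    rw [mem_erase, mem_erase, mem_cf, mem_cf]
    constructor
    · rintro ⟨h2, h3, h4⟩
      exact ⟨h3.ne', key x x' hxz hxz' hxx w h2 h3 h4, h4⟩
    · rintro ⟨h2, h3, h4⟩
      exact ⟨h3.ne', key x' x hxz' hxz hxx.symm w h2 h3 h4, h4⟩
  have h2 : x' ∈ cf G x z := mem_cf.2 ⟨hxx, hxz'.symm⟩
  have h3 : x ∈ cf G x' z := mem_cf.2 ⟨hxx.symm, hxz.symm⟩
  rw [← card_erase_add_one h2, ← card_erase_add_one h3, h1]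

theorem tri_deg (hc : CN G) (he : ∀ u v, u ≠ v → ¬ G.Adj u v → ∃ w, G.Adj u w ∧ G.Adj v w)
    (hU : ∀ u, ∃ v, v ≠ u ∧ ¬ G.Adj u v) {x x' z : W} (hxz : G.Adj x z) (hxz' : G.Adj x' z)
    (hxx : G.Adj x x') : G.degree x = G.degree x' := by
  obtain ⟨y, h1, h2, h3⟩ := not_simp hc he hU hxz
  have h4 : x' ≠ y := by
    rintro rfl
    exact h3 hxx
  have h5 : ¬ G.Adj x' y := by
    intro h
    exact hxz'.ne (hc x y x' z h2.symm h3 hxx h.symm hxz h1)
  have h6 := deg_sub hc he h2.symm h3 hxz h1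
  have h7 := deg_sub hc he h4 h5 hxz' h1
  have h8 := tri_cm hc hxz hxz' hxx
  omega

theorem nb (hc : CN G) (he : ∀ u v, u ≠ v → ¬ G.Adj u v → ∃ w, G.Adj u w ∧ G.Adj v w)
    (hU : ∀ u, ∃ v, v ≠ u ∧ ¬ G.Adj u v) {x y z : W} (hxz : G.Adj x z) (hyz : G.Adj y z) :
    G.degree x + (cf G y z).card = G.degree y + (cf G x z).card := by
  by_cases h1 : x = y
  · rw [h1]
  by_cases h2 : G.Adj x y
  · rw [tri_deg hc he hU hxz hyz h2, tri_cm hc hxz hyz h2]
  · exact deg_sub hc he h1 h2 hxz hyz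

theorem deg_of_cm (hc : CN G) (he : ∀ u v, u ≠ v → ¬ G.Adj u v → ∃ w, G.Adj u w ∧ G.Adj v w)
    (hU : ∀ u, ∃ v, v ≠ u ∧ ¬ G.Adj u v) {x z : W} (hxz : G.Adj x z) (h : (cf G x z).card ≠ 0) :
    G.degree x = G.degree z := by
  obtain ⟨t, ht⟩ := card_ne_zero.1 h
  rw [mem_cf] at ht
  exact tri_deg hc he hU ht.1 ht.2 hxz

/-- the vertex `w` has degree `a`, and its neighbours `w'` have degree `b` plus the number of common
neighbours of `w` and `w'` -/
def Qd (G : SimpleGraph W) [DecidableRel G.Adj] (a b : ℕ) (w : W) : Prop :=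
  G.degree w = a ∧ ∀ w', G.Adj w' w → G.degree w' = b + (cf G w' w).card

theorem qd_ex (hc : CN G) (he : ∀ u v, u ≠ v → ¬ G.Adj u v → ∃ w, G.Adj u w ∧ G.Adj v w)
    (hU : ∀ u, ∃ v, v ≠ u ∧ ¬ G.Adj u v) (w : W) : ∃ a b, 0 < b ∧ Qd G a b w := by
  obtain ⟨v, h1, h2⟩ := hU w
  obtain ⟨z, h3, -⟩ := he w v h1.symm h2
  have h4 := deg_eq h3.symm
  refine ⟨G.degree w, G.degree z - (cf G z w).card, by omega, rfl, ?_⟩
  intro w' hw'
  have h5 := nb hc he hU hw' h3.symm
  omega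

theorem qd_step (hc : CN G) (he : ∀ u v, u ≠ v → ¬ G.Adj u v → ∃ w, G.Adj u w ∧ G.Adj v w)
    (hU : ∀ u, ∃ v, v ≠ u ∧ ¬ G.Adj u v) {a b : ℕ} {w w' : W} (h : Qd G a b w)
    (hw : G.Adj w' w) : Qd G a b w' ∨ Qd G b a w' := by
  have h1 := h.2 w' hw
  by_cases h2 : (cf G w' w).card = 0
  · right
    refine ⟨by omega, ?_⟩
    intro y hy
    have h3 := nb hc he hU hw.symm hy
    rw [cf_comm w w'] at h3
    have h4 := h.1
    omega
  · left
    have h3 := deg_of_cm hc he hU hw h2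
    have h4 := h.1
    refine ⟨by omega, ?_⟩
    intro y hy
    have h5 := nb hc he hU hw.symm hy
    rw [cf_comm w w'] at h5
    omega

theorem qd_all (hc : CN G) (he : ∀ u v, u ≠ v → ¬ G.Adj u v → ∃ w, G.Adj u w ∧ G.Adj v w)
    (hU : ∀ u, ∃ v, v ≠ u ∧ ¬ G.Adj u v) {a b : ℕ} {w : W} (h : Qd G a b w) (w' : W) :
    Qd G a b w' ∨ Qd G b a w' := by
  have step : ∀ x y, G.Adj y x → (Qd G a b x ∨ Qd G b a x) → (Qd G a b y ∨ Qd G b a y) := by
    intro x y hxy hx
    rcases hx with hx | hx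
    · exact qd_step hc he hU hx hxy
    · exact (qd_step hc he hU hx hxy).symm
  by_cases h1 : w = w'
  · exact Or.inl (h1 ▸ h)
  by_cases h2 : G.Adj w w'
  · exact step w w' h2.symm (Or.inl h)
  obtain ⟨z, h3, h4⟩ := he w w' h1 h2
  exact step z w' h4 (step w z h3.symm (Or.inl h))

theorem qd_card (hc : CN G) (he : ∀ u v, u ≠ v → ¬ G.Adj u v → ∃ w, G.Adj u w ∧ G.Adj v w)
    {a b : ℕ} (hb : 0 < b) {x : W} (h : Qd G a b x) : Fintype.card W = a * b + 1 := by
  have h1 : (univ : Finset W) =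
      insert x (G.neighborFinset x ∪ (G.neighborFinset x).biUnion fun z => Aw G z x) := by
    ext w
    simp only [mem_univ, true_iff, mem_insert, mem_union, mem_biUnion,
      SimpleGraph.mem_neighborFinset, mem_Aw]
    by_cases h1 : w = x
    · exact Or.inl h1
    by_cases h2 : G.Adj x w
    · exact Or.inr (Or.inl h2)
    obtain ⟨z, h3, h4⟩ := he x w (Ne.symm h1) h2
    exact Or.inr (Or.inr ⟨z, h3, h4.symm, h1, h2⟩)
  have h2 : ∀ z ∈ G.neighborFinset x, (Aw G z x).card = b - 1 := by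
    intro z hz
    rw [SimpleGraph.mem_neighborFinset] at hz
    have h3 := h.2 z hz.symm
    have h4 := deg_eq hz.symm
    omega
  rw [← card_univ, h1, card_insert_of_notMem, card_union_of_disjoint, card_biUnion, sum_congr rfl h2,
    sum_const, SimpleGraph.card_neighborFinset_eq_degree, h.1, smul_eq_mul]
  · obtain ⟨c, rfl⟩ : ∃ c, b = c + 1 := ⟨b - 1, by omega⟩
    rw [Nat.add_sub_cancel]
    ring
  · intro z hz z' hz' hzz
    rw [Function.onFun, Finset.disjoint_left]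
    intro w h3 h4
    rw [mem_Aw] at h3 h4
    have hz1 : G.Adj x z := by simpa using hz
    have hz2 : G.Adj x z' := by simpa using hz'
    exact hzz (hc x w z z' h3.2.1.symm h3.2.2 hz1 h3.1.symm hz2 h4.1.symm)
  · rw [Finset.disjoint_left]
    intro w h3 h4
    rw [SimpleGraph.mem_neighborFinset] at h3
    rw [mem_biUnion] at h4
    obtain ⟨z, -, h5⟩ := h4
    exact (mem_Aw.1 h5).2.2 h3
  · rw [mem_union, mem_biUnion, SimpleGraph.mem_neighborFinset]
    rintro (h3 | ⟨z, -, h3⟩)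
    · exact G.irrefl h3
    · exact (mem_Aw.1 h3).2.1 rfl

/-- Stemple's theorem -/
theorem stemple (hne : Nonempty W) (hc : CN G)
    (he : ∀ u v, u ≠ v → ¬ G.Adj u v → ∃ w, G.Adj u w ∧ G.Adj v w)
    (hU : ∀ u, ∃ v, v ≠ u ∧ ¬ G.Adj u v) :
    ∃ a b, b ≤ a ∧ Fintype.card W = a * b + 1 ∧
      (((∀ v, G.degree v = a) ∧ ∀ u v, G.Adj u v → (cf G u v).card = a - b) ∨
      (b < a ∧ (∃ v, G.degree v = a) ∧ (∃ v, G.degree v = b) ∧
        (∀ v, G.degree v = a ∨ G.degree v = b) ∧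
        (∀ u v, G.Adj u v → G.degree u = b → G.degree v = a ∧ (cf G u v).card = 0) ∧
        ∀ u v, G.Adj u v → G.degree u = a → G.degree v = a → (cf G u v).card = a - b)) := by
  obtain ⟨w0⟩ := hne
  obtain ⟨a0, b0, hb0, h0⟩ := qd_ex hc he hU w0
  have hcard0 := qd_card hc he hb0 h0
  have hall0 := qd_all hc he hU h0
  -- a symmetric form with `b ≤ a`
  obtain ⟨a, b, hba, hcard, hall⟩ : ∃ a b, b ≤ a ∧ Fintype.card W = a * b + 1 ∧
      ∀ w, Qd G a b w ∨ Qd G b a w := by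
    rcases le_total b0 a0 with h | h
    · exact ⟨a0, b0, h, hcard0, hall0⟩
    · exact ⟨b0, a0, h, by rw [hcard0, mul_comm], fun w => (hall0 w).symm⟩
  refine ⟨a, b, hba, hcard, ?_⟩
  have hdeg : ∀ v, G.degree v = a ∨ G.degree v = b := by
    intro v
    rcases hall v with h | h
    · exact Or.inl h.1
    · exact Or.inr h.1
  have hqa : ∀ v, G.degree v = a → Qd G a b v := by
    intro v hv
    rcases hall v with h | h
    · exact h
    · have h1 := h.1
      have h2 : a = b := by omega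
      subst h2
      exact h
  by_cases hreg : ∀ v, G.degree v = a
  · left
    refine ⟨hreg, ?_⟩
    intro u v huv
    have h1 := (hqa v (hreg v)).2 u huv
    have h2 := hreg u
    omega
  · right
    push Not at hreg
    obtain ⟨v, hv⟩ := hreg
    have hvb : G.degree v = b := by
      rcases hdeg v with h | h
      · exact absurd h hv
      · exact h
    have hlt : b < a := by
      rcases Nat.lt_or_ge b a with h | h
      · exact h
      · exact absurd (by omega) hv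
    have hqb : ∀ v, G.degree v = b → Qd G b a v := by
      intro v hv
      rcases hall v with h | h
      · have h1 := h.1
        omega
      · exact h
    have hmix : ∀ u v, G.Adj u v → G.degree u = b → G.degree v = a ∧ (cf G u v).card = 0 := by
      intro u v huv hu
      have h1 := (hqb u hu).2 v huv.symm
      rw [cf_comm u v]
      rcases hdeg v with h | h <;> omega
    refine ⟨hlt, ?_, ⟨v, hvb⟩, hdeg, hmix, ?_⟩
    · obtain ⟨v', h1, h2⟩ := hU v
      obtain ⟨z, h3, -⟩ := he v v' h1.symm h2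
      exact ⟨z, (hmix v z h3 hvb).1⟩
    · intro u v huv hu hv
      have h1 := (hqa v hv).2 u huv
      omega

end stem

end Pool.Agent.H53.GG
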