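import Pool.Agent.H53.GG.Stmt

/-!
# MP_619a4d_co: definitions used in the second statement

`dgr G v`: degree of `v`. `cnb G u v`: number of common neighbours of `u` and `v`.
-/

set_option autoImplicit false

namespace Pool.Agent.H53.GG

/-- degree of `v` -/
noncomputable def dgr {W : Type} (G : SimpleGraph W) (v : W) : ℕ := Nat.card (G.neighborSet v)

/-- number of common neighbours of `u` and `v` -/
noncomputable def cnb {W : Type} (G : SimpleGraph W) (u v : W) : ℕ :=
  Nat.card (G.commonNeighbors u v)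

/-- `G` is strongly regular with parameters `(k (k - ℓ) + 1, k, ℓ, 1)` -/
def SRegular {W : Type} (G : SimpleGraph W) (k ℓ : ℕ) : Prop :=
  Nat.card W = k * (k - ℓ) + 1 ∧ (∀ v, dgr G v = k) ∧ (∀ u v, G.Adj u v → cnb G u v = ℓ) ∧
    ∀ u v, u ≠ v → ¬ G.Adj u v → cnb G u v = 1

/-- `G` has `k₁ k₂ + 1` vertices; exactly the two numbers `k₁ > k₂` are degrees of vertices; vertices
of degree `k₂` have only neighbours of degree `k₁`, with no common neighbour; adjacent vertices of
degree `k₁` have `k₁ - k₂` common neighbours; nonadjacent vertices have one common neighbour -/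
def TwoDegrees {W : Type} (G : SimpleGraph W) (k₁ k₂ : ℕ) : Prop :=
  k₂ < k₁ ∧ Nat.card W = k₁ * k₂ + 1 ∧ (∃ v, dgr G v = k₁) ∧ (∃ v, dgr G v = k₂) ∧
    (∀ v, dgr G v = k₁ ∨ dgr G v = k₂) ∧
    (∀ u v, G.Adj u v → dgr G u = k₂ → dgr G v = k₁ ∧ cnb G u v = 0) ∧
    (∀ u v, G.Adj u v → dgr G u = k₁ → dgr G v = k₁ → cnb G u v = k₁ - k₂) ∧
    ∀ u v, u ≠ v → ¬ G.Adj u v → cnb G u v = 1

/-- no vertex is adjacent to all other vertices, and `G` is strongly regular with `μ = 1` or has two
degrees as above -/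
def Kind {W : Type} (G : SimpleGraph W) : Prop :=
  (∀ u, ∃ v, v ≠ u ∧ ¬ G.Adj u v) ∧
    ((∃ k ℓ, SRegular G k ℓ) ∨ ∃ k₁ k₂, TwoDegrees G k₁ k₂)

/-- Q1: every finite graph without induced 4-cycles and diamonds is an induced subgraph of a finite
geodetic graph -/
def QOne : Prop := ∀ (V : Type) [Finite V] (H : SimpleGraph V), C4DFree H →
  ∃ (W : Type) (_ : Finite W) (G : SimpleGraph W), Geodetic G ∧ Nonempty (H ↪g G)

/-- every finite graph without induced 4-cycles and diamonds is an induced subgraph of a finite graph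
satisfying `Kind` -/
def QKind : Prop := ∀ (V : Type) [Finite V] (H : SimpleGraph V), C4DFree H →
  ∃ (W : Type) (_ : Finite W) (G : SimpleGraph W), Kind G ∧ Nonempty (H ↪g G)

end Pool.Agent.H53.GG
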