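import Pool.Agent.H53.GG.Two
import Pool.Agent.H53.GG.Stem
import Pool.Agent.H53.GG.Stmt2

/-!
# Reduction of Q1 to strongly regular graphs and graphs with two degrees
-/

set_option autoImplicit false

namespace Pool.Agent.H53.GG

open Finset

theorem cn_sum {V V' : Type} {H : SimpleGraph V} {H' : SimpleGraph V'} (h : CN H) (h' : CN H') :
    CN (H ⊕g H') := by
  rintro (a | a) (b | b) (c | c) (d | d) hab hnab hac hbc had hbd <;>
    simp only [SimpleGraph.sum_adj] at hnab hac hbc had hbd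
  · rw [h a b c d (fun h => hab (by rw [h])) hnab hac hbc had hbd]
  · rw [h' a b c d (fun h => hab (by rw [h])) hnab hac hbc had hbd]

theorem cn_c5 : CN (SimpleGraph.cycleGraph 5) := by
  unfold CN
  decide

/-- geodetic graphs with distances at most two -/
theorem cn_he {K : Type} {G : SimpleGraph K} (hG : Geodetic G) (h2 : ∀ u v, G.dist u v ≤ 2) :
    CN G ∧ ∀ u v, u ≠ v → ¬ G.Adj u v → ∃ w, G.Adj u w ∧ G.Adj v w := by
  obtain ⟨hconn, huniq⟩ := hG
  have hd : ∀ u v, u ≠ v → ¬ G.Adj u v → G.dist u v = 2 := by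
    intro u v huv hn
    obtain ⟨p, hp⟩ := hconn.exists_walk_length_eq_dist u v
    have h3 := h2 u v
    by_contra hcon
    rcases walk_one p (by omega) with h4 | h4
    · exact huv h4
    · exact hn h4
  constructor
  · intro a b c d hab hnab hac hbc had hbd
    have h1 := hd a b hab hnab
    have h9 := huniq a b (.cons hac (.cons hbc.symm .nil)) (.cons had (.cons hbd.symm .nil))
      (by simp; omega) (by simp; omega)
    have h10 := congrArg (fun w => SimpleGraph.Walk.getVert w 1) h9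
    simpa only [SimpleGraph.Walk.getVert_cons_succ, SimpleGraph.Walk.getVert_zero] using h10
  · intro u v huv hn
    obtain ⟨p, hp⟩ := hconn.exists_walk_length_eq_dist u v
    have h3 := hd u v huv hn
    obtain ⟨w, h4, h5⟩ := walk_two p (by omega)
    exact ⟨w, h4, h5.symm⟩

theorem nouniv {V K : Type} {H : SimpleGraph V} {G : SimpleGraph K} (hc : CN G)
    (f : (H ⊕g SimpleGraph.cycleGraph 5) ↪g G) : ∀ u, ∃ v, v ≠ u ∧ ¬ G.Adj u v := by
  intro u
  by_contra hcon
  push Not at hcon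
  have h1 : ∀ i j : Fin 5, G.Adj (f (Sum.inr i)) (f (Sum.inr j)) ↔
      (SimpleGraph.cycleGraph 5).Adj i j := fun i j => f.map_rel_iff
  have hinj : ∀ i j : Fin 5, f (Sum.inr i) = f (Sum.inr j) → i = j := fun i j h =>
    Sum.inr_injective (f.injective h)
  by_cases hu : ∃ i : Fin 5, u = f (Sum.inr i)
  · obtain ⟨i, rfl⟩ := hu
    have h2 := hcon (f (Sum.inr (i + 2))) (fun h =>
      absurd (hinj _ _ h) ((by decide : ∀ i : Fin 5, i + 2 ≠ i) i))
    rw [h1] at h2
    exact (by decide : ∀ i : Fin 5, ¬ (SimpleGraph.cycleGraph 5).Adj i (i + 2)) i h2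
  · push Not at hu
    have h3 := hc (f (Sum.inr 0)) (f (Sum.inr 2)) (f (Sum.inr 1)) u
      (fun h => absurd (hinj _ _ h) (by decide)) (by rw [h1]; decide) (by rw [h1]; decide)
      (by rw [h1]; decide) (hcon _ (hu 0).symm).symm (hcon _ (hu 2).symm).symm
    exact hu 1 h3.symm

theorem kind_of {K : Type} [Finite K] {G : SimpleGraph K} (hne : Nonempty K) (hc : CN G)
    (he : ∀ u v, u ≠ v → ¬ G.Adj u v → ∃ w, G.Adj u w ∧ G.Adj v w)
    (hU : ∀ u, ∃ v, v ≠ u ∧ ¬ G.Adj u v) : Kind G := by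
  classical
  have := Fintype.ofFinite K
  have hdg : ∀ v, dgr G v = G.degree v := by
    intro v
    rw [dgr, Nat.card_eq_fintype_card, SimpleGraph.card_neighborSet_eq_degree]
  have hcn : ∀ u v, cnb G u v = (cf G u v).card := by
    intro u v
    rw [cnb, Nat.card_eq_fintype_card, ← Set.toFinset_card]
    congr 1
    ext w
    rw [Set.mem_toFinset, SimpleGraph.mem_commonNeighbors, mem_cf]
  have hone : ∀ u v, u ≠ v → ¬ G.Adj u v → cnb G u v = 1 := by
    intro u v huv hn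
    obtain ⟨w, h1, h2⟩ := he u v huv hn
    rw [hcn, card_eq_one]
    refine ⟨w, ?_⟩
    ext t
    rw [mem_cf, mem_singleton]
    constructor
    · rintro ⟨h3, h4⟩
      exact hc u v t w huv hn h3 h4 h1 h2
    · rintro rfl
      exact ⟨h1, h2⟩
  refine ⟨hU, ?_⟩
  obtain ⟨a, b, hba, hcard, h⟩ := stemple hne hc he hU
  rw [← Nat.card_eq_fintype_card] at hcard
  rcases h with ⟨h1, h2⟩ | ⟨h1, h2, h3, h4, h5, h6⟩
  · left
    refine ⟨a, a - b, ?_, ?_, ?_, hone⟩
    · rw [hcard, Nat.sub_sub_self hba]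
    · intro v
      rw [hdg, h1]
    · intro u v huv
      rw [hcn, h2 u v huv]
  · right
    refine ⟨a, b, h1, hcard, ?_, ?_, ?_, ?_, ?_, hone⟩
    · obtain ⟨v, hv⟩ := h2
      exact ⟨v, by rw [hdg, hv]⟩
    · obtain ⟨v, hv⟩ := h3
      exact ⟨v, by rw [hdg, hv]⟩
    · intro v
      rw [hdg]
      exact h4 v
    · intro u v huv hu
      rw [hdg] at hu
      rw [hdg, hcn]
      exact h5 u v huv hu
    · intro u v huv hu hv
      rw [hdg] at hu hv
      rw [hcn]
      exact h6 u v huv hu hv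

theorem geo_of_kind {W : Type} [Finite W] (hne : Nonempty W) {G : SimpleGraph W} (hG : Kind G) :
    Geodetic G ∧ ∀ u v, G.dist u v ≤ 2 := by
  have hone : ∀ u v, u ≠ v → ¬ G.Adj u v → cnb G u v = 1 := by
    rcases hG.2 with ⟨k, l, h⟩ | ⟨k, l, h⟩
    · exact h.2.2.2
    · exact h.2.2.2.2.2.2.2
  apply geo_of_unique
  intro u v huv hn
  have h1 := hone u v huv hn
  rw [cnb, Nat.card_eq_one_iff_unique] at h1
  obtain ⟨h2, ⟨w, hw⟩⟩ := h1
  rw [SimpleGraph.mem_commonNeighbors] at hw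
  refine ⟨w, hw.1, hw.2.symm, fun w' h3 h4 => ?_⟩
  exact congrArg Subtype.val (h2.elim (⟨w', (SimpleGraph.mem_commonNeighbors G).2 ⟨h3, h4.symm⟩⟩ :
    G.commonNeighbors u v) ⟨w, (SimpleGraph.mem_commonNeighbors G).2 hw⟩)

/-- the local form of the reduction -/
theorem local_form (V : Type) [Finite V] (H : SimpleGraph V) (hH : C4DFree H) :
    ∃ (V' : Type) (_ : Finite V') (H' : SimpleGraph V'), C4DFree H' ∧ Nonempty (H ↪g H') ∧
      ∀ (W : Type) [Finite W] (G : SimpleGraph W), Geodetic G → Nonempty (H' ↪g G) →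
        ∃ S : Set W, Kind (G.induce S) ∧ Nonempty (H ↪g G.induce S) := by
  have hcn : CN (H ⊕g SimpleGraph.cycleGraph 5) := cn_sum (cn_of hH) cn_c5
  refine ⟨(V ⊕ Fin 5) ⊕ ({p : (V ⊕ Fin 5) × (V ⊕ Fin 5) //
    Far (H ⊕g SimpleGraph.cycleGraph 5) p} × Bool), inferInstance,
    Hp (H ⊕g SimpleGraph.cycleGraph 5), free_of_cn (hp_cn hcn), ?_, ?_⟩
  · exact ⟨⟨⟨fun v => Sum.inl (Sum.inl v), fun u v h => Sum.inl_injective (Sum.inl_injective h)⟩,
      Iff.rfl⟩⟩
  · intro W _ G hG hf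
    obtain ⟨f⟩ := hf
    obtain ⟨S, h1, h2, ⟨g⟩⟩ := reduce hG f ⟨Sum.inr 0⟩
    obtain ⟨h3, h4⟩ := cn_he h1 h2
    refine ⟨S, kind_of ⟨g (Sum.inr 0)⟩ h3 h4 (nouniv h3 g), ?_⟩
    exact ⟨⟨⟨fun v => g (Sum.inl v), fun u v h => Sum.inl_injective (g.injective h)⟩,
      by intro a b; exact g.map_rel_iff⟩⟩

theorem qone_iff : QOne ↔ QKind := by
  constructor
  · intro hQ V _ H hH
    obtain ⟨V', _, H', h1, -, h3⟩ := local_form V H hH
    obtain ⟨W, _, G, h4, h5⟩ := hQ V' H' h1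
    obtain ⟨S, h6, h7⟩ := h3 W G h4 h5
    exact ⟨S, inferInstance, G.induce S, h6, h7⟩
  · intro hQ V _ H hH
    obtain ⟨W, hW, G, h1, ⟨f⟩⟩ := hQ V H hH
    rcases isEmpty_or_nonempty V with hV | ⟨⟨v⟩⟩
    · refine ⟨Unit, inferInstance, ⊥, ?_, ⟨⟨⟨fun v => hV.elim v, fun v => hV.elim v⟩, ?_⟩⟩⟩
      · exact (geo_of_unique (⊥ : SimpleGraph Unit) (fun u v h => absurd rfl h)).1
      · intro v
        exact hV.elim v
    · exact ⟨W, hW, G, (geo_of_kind ⟨f v⟩ h1).1, ⟨f⟩⟩

/-- `N` cliques with `N + 1` vertices sharing one vertex -/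
def Mill (N : ℕ) : SimpleGraph (Option (Fin N × Fin N)) where
  Adj a b := match a, b with
    | none, none => False
    | none, some _ => True
    | some _, none => True
    | some p, some q => p ≠ q ∧ p.1 = q.1
  symm := ⟨by
    rintro (_ | p) (_ | q) h
    · exact h
    · exact h
    · exact h
    · exact ⟨h.1.symm, h.2.symm⟩⟩
  loopless := ⟨by
    rintro (_ | p) h
    · exact h
    · exact h.1 rfl⟩

theorem mill_cn (N : ℕ) : CN (Mill N) := by
  have key : ∀ a b c, a ≠ b → ¬ (Mill N).Adj a b → (Mill N).Adj a c → (Mill N).Adj b c →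
      c = none := by
    rintro (_ | p) (_ | q) (_ | r) hab hnab hac hbc
    · rfl
    · exact (hab rfl).elim
    · rfl
    · exact absurd trivial hnab
    · rfl
    · exact absurd trivial hnab
    · rfl
    · exfalso
      apply hnab
      refine ⟨fun h => hab (by rw [h]), ?_⟩
      exact hac.2.trans hbc.2.symm
  intro a b c d hab hnab hac hbc had hbd
  rw [key a b c hab hnab hac hbc, key a b d hab hnab had hbd]

theorem mills (hQ : QOne) (N : ℕ) : ∃ (W : Type) (_ : Finite W) (G : SimpleGraph W), Kind G ∧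
    ∃ (x : W) (f : Fin N × Fin N → W), Function.Injective f ∧ (∀ p, G.Adj x (f p)) ∧
      ∀ p q, G.Adj (f p) (f q) ↔ p ≠ q ∧ p.1 = q.1 := by
  obtain ⟨W, hW, G, h1, ⟨g⟩⟩ := qone_iff.1 hQ _ (Mill N) (free_of_cn (mill_cn N))
  refine ⟨W, hW, G, h1, g none, fun p => g (some p), ?_, ?_, ?_⟩
  · intro p q h
    exact Option.some_injective _ (g.injective h)
  · intro p
    exact g.map_rel_iff.2 trivial
  · intro p q
    exact g.map_rel_iff

end Pool.Agent.H53.GG
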