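import Pool.Agent.H53.GG.Cond

/-!
# Adding a vertex of degree at most one
-/

set_option autoImplicit false

namespace Pool.Agent.H53.GG

open Finset

theorem rep_leaf {V : Type} {H : SimpleGraph V} {F O : Finset V} {v : V}
    (hF : ∀ a, a ∈ F ↔ a = v ∨ a ∈ O) (hvO : v ∉ O)
    (hdeg : ∀ w ∈ O, ∀ w' ∈ O, H.Adj v w → H.Adj v w' → w = w') {φ : V → R3}
    (hφ : Rep H (O : Set V) φ) : ∃ ψ : V → R3, Rep H (F : Set V) ψ := by
  classical
  obtain ⟨q, hq⟩ : ∃ q : R3, (q = 0 ∧ ∀ w ∈ O, ¬ H.Adj v w) ∨ ∃ p ∈ O, H.Adj v p ∧ q = φ p := by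
    by_cases h : ∃ p ∈ O, H.Adj v p
    · obtain ⟨p, hp, hvp⟩ := h
      exact ⟨φ p, Or.inr ⟨p, hp, hvp, rfl⟩⟩
    · push Not at h
      exact ⟨0, Or.inl ⟨rfl, h⟩⟩
  have hφ0 : ∀ w ∈ O, φ w ≠ 0 := fun w hw => (hφ w hw).1
  have hφc : ∀ a ∈ O, ∀ b ∈ O, a ≠ b → cr (φ a) (φ b) ≠ 0 := fun a ha b hb hab =>
    ((hφ a ha).2 b hb hab).2
  have hnp : ∀ w ∈ O, ¬ H.Adj v w → NP q (φ w) := by
    intro w hw hn
    rcases hq with ⟨rfl, -⟩ | ⟨p, hp, hvp, rfl⟩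
    · exact np_zero (hφ0 w hw)
    · exact np_of_cr (hφc w hw p hp (by rintro rfl; exact hn hvp))
  have f1 := NV.prod (q := q) (O.filter fun w => ¬ H.Adj v w) (fun w x => dt x (φ w))
    (fun w hw => nv_dt (hnp w (mem_filter.1 hw).1 (mem_filter.1 hw).2))
  have f2 := NV.prod (q := q) O (fun w x => dt (cr x (φ w)) (cr x (φ w)))
    (fun w hw => nv_cr q (hφ0 w hw))
  obtain ⟨x, hx, hall⟩ := (((nv_self q).mul f1).mul f2).2
  simp only [mul_ne_zero_iff, prod_ne_zero_iff, mem_filter] at hall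
  obtain ⟨⟨hxx, g1⟩, g2⟩ := hall
  have hx0 : x ≠ 0 := fun h => hxx (by rw [h, dt_zero_left])
  have hadj : ∀ w ∈ O, dt x (φ w) = 0 ↔ H.Adj v w := by
    intro w hw
    constructor
    · intro h
      by_contra hn
      exact g1 w ⟨hw, hn⟩ h
    · intro h
      rcases hq with ⟨-, h1⟩ | ⟨p, hp, hvp, rfl⟩
      · exact absurd h (h1 w hw)
      · rw [hdeg w hw p hp h hvp, dt_comm]
        exact hx
  have hcr : ∀ w ∈ O, cr x (φ w) ≠ 0 := fun w hw h => g2 w hw (by rw [h, dt_zero_left])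
  have hcr' : ∀ w ∈ O, cr (φ w) x ≠ 0 := by
    intro w hw h
    apply hcr w hw
    funext i
    rw [cr_anti, h]
    simp
  obtain ⟨ψ, hψv, hψO⟩ : ∃ ψ : V → R3, ψ v = x ∧ ∀ a ∈ O, ψ a = φ a := by
    refine ⟨Function.update φ v x, Function.update_self _ _ _, fun a ha => ?_⟩
    exact Function.update_of_ne (by rintro rfl; exact hvO ha) _ _
  refine ⟨ψ, fun a ha => ?_⟩
  rcases (hF a).1 (by exact_mod_cast ha) with rfl | ha'
  · refine ⟨by rw [hψv]; exact hx0, fun b hb hab => ?_⟩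
    rcases (hF b).1 (by exact_mod_cast hb) with rfl | hb'
    · exact absurd rfl hab
    · rw [hψv, hψO b hb']
      exact ⟨hadj b hb', hcr b hb'⟩
  · refine ⟨by rw [hψO a ha']; exact hφ0 a ha', fun b hb hab => ?_⟩
    rcases (hF b).1 (by exact_mod_cast hb) with rfl | hb'
    · rw [hψv, hψO a ha']
      refine ⟨?_, hcr' a ha'⟩
      rw [dt_comm, hadj a ha', H.adj_comm]
    · rw [hψO a ha', hψO b hb']
      exact (hφ a ha').2 b hb' hab

end Pool.Agent.H53.GG
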