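import Pool.Agent.H53.GG.Vec

/-!
# Polarity graphs

A graph in which two distinct nonadjacent vertices have exactly one common neighbour is geodetic of
diameter at most two. The orthogonality graph of the projective plane over a field is an example.
-/

set_option autoImplicit false

namespace Pool.Agent.H53.GG

theorem geo_of_unique {W : Type} [Nonempty W] (G : SimpleGraph W)
    (h : ∀ u v, u ≠ v → ¬ G.Adj u v →
      ∃ w, G.Adj u w ∧ G.Adj w v ∧ ∀ w', G.Adj u w' → G.Adj w' v → w' = w) :
    Geodetic G ∧ ∀ u v, G.dist u v ≤ 2 := by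
  have key : ∀ u v, ∃ p : G.Walk u v, p.length ≤ 2 := by
    intro u v
    by_cases h1 : u = v
    · subst h1
      exact ⟨SimpleGraph.Walk.nil, by simp⟩
    · by_cases h2 : G.Adj u v
      · exact ⟨SimpleGraph.Walk.cons h2 SimpleGraph.Walk.nil, by simp⟩
      · obtain ⟨w, h3, h4, -⟩ := h u v h1 h2
        exact ⟨SimpleGraph.Walk.cons h3 (SimpleGraph.Walk.cons h4 SimpleGraph.Walk.nil), by simp⟩
  have hd : ∀ u v, G.dist u v ≤ 2 := by
    intro u v
    obtain ⟨p, hp⟩ := key u v
    exact (SimpleGraph.dist_le p).trans hp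
  have hconn : G.Connected := by
    rw [SimpleGraph.connected_iff]
    refine ⟨fun u v => ?_, inferInstance⟩
    obtain ⟨p, -⟩ := key u v
    exact ⟨p⟩
  refine ⟨⟨hconn, ?_⟩, hd⟩
  intro u v p q hp hq
  have h2 := hd u v
  have hlt : ∀ r : G.Walk u v, G.dist u v ≤ r.length := fun r => SimpleGraph.dist_le r
  have hpq : p.length = q.length := hp.trans hq.symm
  rw [← hp] at h2 hlt
  clear hp hq
  match p, q, hpq, h2, hlt with
  | .nil, .nil, _, _, _ => rfl
  | .cons _ .nil, .cons _ .nil, _, _, _ => rfl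
  | .cons (v := a) h3 (.cons h4 .nil), .cons (v := b) h5 (.cons h6 .nil), _, _, hlt =>
    have huv : u ≠ v := by
      rintro rfl
      have := hlt .nil
      simp at this
    have hadj : ¬ G.Adj u v := by
      intro h7
      have := hlt (.cons h7 .nil)
      simp at this
    obtain ⟨w, -, -, hw⟩ := h u v huv hadj
    have h8 := hw a h3 h4
    have h9 := hw b h5 h6
    subst h8
    subst h9
    rfl
  | .nil, .cons _ _, hpq, _, _ => simp at hpq
  | .cons _ _, .nil, hpq, _, _ => simp at hpq
  | .cons _ .nil, .cons _ (.cons _ _), hpq, _, _ => simp at hpq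
  | .cons _ (.cons _ _), .cons _ .nil, hpq, _, _ => simp at hpq
  | .cons _ (.cons _ .nil), .cons _ (.cons _ (.cons _ _)), hpq, _, _ => simp at hpq
  | .cons _ (.cons _ (.cons _ _)), .cons _ (.cons _ _), _, h2, _ => simp at h2

section field

variable {K : Type} [Field K]

theorem prop_of_cr {x y : Fin 3 → K} (hy : y ≠ 0) (h : cr x y = 0) : ∃ l : K, x = l • y := by
  have h0 : x 1 * y 2 - x 2 * y 1 = 0 := congrFun h 0
  have h1 : x 2 * y 0 - x 0 * y 2 = 0 := congrFun h 1
  have h2 : x 0 * y 1 - x 1 * y 0 = 0 := congrFun h 2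
  by_cases y0 : y 0 = 0
  · by_cases y1 : y 1 = 0
    · have y2 : y 2 ≠ 0 := by
        intro y2
        apply hy
        funext i
        fin_cases i
        · exact y0
        · exact y1
        · exact y2
      refine ⟨x 2 / y 2, ?_⟩
      funext i
      fin_cases i
      · show x 0 = x 2 / y 2 * y 0
        field_simp
        linear_combination (-1) * h1
      · show x 1 = x 2 / y 2 * y 1
        field_simp
        linear_combination h0
      · show x 2 = x 2 / y 2 * y 2
        field_simp
    · refine ⟨x 1 / y 1, ?_⟩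
      funext i
      fin_cases i
      · show x 0 = x 1 / y 1 * y 0
        field_simp
        linear_combination h2
      · show x 1 = x 1 / y 1 * y 1
        field_simp
      · show x 2 = x 1 / y 1 * y 2
        field_simp
        linear_combination (-1) * h0
  · refine ⟨x 0 / y 0, ?_⟩
    funext i
    fin_cases i
    · show x 0 = x 0 / y 0 * y 0
      field_simp
    · show x 1 = x 0 / y 0 * y 1
      field_simp
      linear_combination (-1) * h2
    · show x 2 = x 0 / y 0 * y 2
      field_simp
      linear_combination h1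

theorem dt_smul_left (l : K) (x y : Fin 3 → K) : dt (l • x) y = l * dt x y := by
  simp [dt]; ring

theorem dt_smul_right (l : K) (x y : Fin 3 → K) : dt x (l • y) = l * dt x y := by
  simp [dt]; ring

theorem cr_smul_left (l : K) (x : Fin 3 → K) : cr (l • x) x = 0 := by
  funext i
  fin_cases i <;> simp [cr] <;> ring

/-- the orthogonality graph of the projective plane -/
def PGr (K : Type) [Field K] : SimpleGraph (Projectivization K (Fin 3 → K)) where
  Adj u v := u ≠ v ∧ dt u.rep v.rep = 0
  symm := ⟨fun u v h => ⟨h.1.symm, by rw [dt_comm]; exact h.2⟩⟩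
  loopless := ⟨fun u h => h.1 rfl⟩

theorem pgr_unique (u v : Projectivization K (Fin 3 → K)) (huv : u ≠ v)
    (hadj : ¬ (PGr K).Adj u v) :
    ∃ w, (PGr K).Adj u w ∧ (PGr K).Adj w v ∧
      ∀ w', (PGr K).Adj u w' → (PGr K).Adj w' v → w' = w := by
  have hc : cr u.rep v.rep ≠ 0 := by
    intro h
    apply huv
    obtain ⟨l, hl⟩ := prop_of_cr v.rep_nonzero h
    rw [← u.mk_rep, ← v.mk_rep, Projectivization.mk_eq_mk_iff']
    exact ⟨l, hl.symm⟩
  have hd : dt u.rep v.rep ≠ 0 := fun h => hadj ⟨huv, h⟩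
  obtain ⟨w, hw⟩ : ∃ w, w = Projectivization.mk K (cr u.rep v.rep) hc := ⟨_, rfl⟩
  obtain ⟨l, hl⟩ : ∃ l : K, l • (cr u.rep v.rep) = w.rep := by
    have h1 : Projectivization.mk K w.rep w.rep_nonzero =
        Projectivization.mk K (cr u.rep v.rep) hc := by rw [w.mk_rep, hw]
    rw [Projectivization.mk_eq_mk_iff'] at h1
    exact h1
  have huw : dt u.rep w.rep = 0 := by rw [← hl, dt_smul_right, dt_cr_left, mul_zero]
  have hwv : dt w.rep v.rep = 0 := by
    rw [← hl, dt_smul_left, dt_comm, dt_cr_right, mul_zero]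
  refine ⟨w, ⟨?_, huw⟩, ⟨?_, hwv⟩, ?_⟩
  · rintro rfl
    exact hd hwv
  · rintro rfl
    exact hd huw
  · intro w' h1 h2
    have h3 : cr w'.rep (cr u.rep v.rep) = 0 := by
      funext i
      rw [cr_cr, h2.2, dt_comm w'.rep u.rep, h1.2]
      simp
    obtain ⟨m, hm⟩ := prop_of_cr hc h3
    rw [← w'.mk_rep, hw, Projectivization.mk_eq_mk_iff']
    exact ⟨m, hm.symm⟩

theorem pol [Finite K] {V : Type} (H : SimpleGraph V) (φ : V → Fin 3 → K)
    (hφ : Rep H Set.univ φ) : ∃ (W : Type) (_ : Finite W) (G : SimpleGraph W),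
      Geodetic G ∧ (∀ u v, G.dist u v ≤ 2) ∧ Nonempty (H ↪g G) := by
  have hfin : Finite (Projectivization K (Fin 3 → K)) := inferInstance
  have hne : Nonempty (Projectivization K (Fin 3 → K)) := inferInstance
  obtain ⟨h1, h2⟩ := geo_of_unique (PGr K) pgr_unique
  refine ⟨_, hfin, PGr K, h1, h2, ?_⟩
  have hrep : ∀ a, ∃ l : K, l ≠ 0 ∧
      (Projectivization.mk K (φ a) (hφ a trivial).1).rep = l • φ a := by
    intro a
    have h3 : Projectivization.mk K (Projectivization.mk K (φ a) (hφ a trivial).1).rep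
        (Projectivization.rep_nonzero _) = Projectivization.mk K (φ a) (hφ a trivial).1 :=
      Projectivization.mk_rep _
    rw [Projectivization.mk_eq_mk_iff'] at h3
    obtain ⟨l, hl⟩ := h3
    refine ⟨l, ?_, hl.symm⟩
    rintro rfl
    rw [zero_smul] at hl
    exact Projectivization.rep_nonzero _ hl.symm
  have hinj : ∀ a b, Projectivization.mk K (φ a) (hφ a trivial).1 =
      Projectivization.mk K (φ b) (hφ b trivial).1 → a = b := by
    intro a b h
    by_contra hab
    rw [Projectivization.mk_eq_mk_iff'] at h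
    obtain ⟨l, hl⟩ := h
    have h4 := ((hφ a trivial).2 b trivial hab).2
    rw [← hl, cr_smul_left] at h4
    exact h4 rfl
  refine ⟨⟨⟨fun a => Projectivization.mk K (φ a) (hφ a trivial).1, fun a b h => hinj a b h⟩, ?_⟩⟩
  intro a b
  show (_ ≠ _ ∧ dt _ _ = 0) ↔ H.Adj a b
  obtain ⟨l, hl0, hl⟩ := hrep a
  obtain ⟨m, hm0, hm⟩ := hrep b
  constructor
  · rintro ⟨h3, h4⟩
    have hab : a ≠ b := by
      rintro rfl
      exact h3 rfl
    apply (((hφ a trivial).2 b trivial hab).1).1
    have h5 : dt (l • φ a) (m • φ b) = 0 := by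
      rw [← hl, ← hm]
      exact h4
    rw [dt_smul_left, dt_smul_right] at h5
    rcases mul_eq_zero.1 h5 with h6 | h6
    · exact absurd h6 hl0
    · rcases mul_eq_zero.1 h6 with h7 | h7
      · exact absurd h7 hm0
      · exact h7
  · intro h3
    have hab : a ≠ b := h3.ne
    refine ⟨fun h4 => hab (hinj a b h4), ?_⟩
    have h5 : dt (l • φ a) (m • φ b) = 0 := by
      rw [dt_smul_left, dt_smul_right, (((hφ a trivial).2 b trivial hab).1).2 h3]
      simp
    rw [← hl, ← hm] at h5
    exact h5

end field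

end Pool.Agent.H53.GG
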