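import Pool.Agent.H53.GG.Vec
import Pool.Agent.H36.PQ.L1

/-!
# From the reals to a finite field

The coordinates of a representation over the reals and the inverse of the product of all nonzero
quantities generate a finitely generated ring; its residue fields are finite.
-/

set_option autoImplicit false

namespace Pool.Agent.H53.GG

open Finset

/-- a finite set of reals and a nonzero polynomial expression in them: a homomorphism to a finite
field -/
theorem exists_hom (s : Finset ℝ) (d : ℝ) (hd : d ∈ Algebra.adjoin ℤ (s : Set ℝ)) (hd0 : d ≠ 0) :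
    ∃ (K : Type) (_ : Field K) (_ : Finite K) (f : Algebra.adjoin ℤ (s : Set ℝ) →+* K),
      f ⟨d, hd⟩ ≠ 0 := by
  have hft : Algebra.FiniteType ℤ (Algebra.adjoin ℤ (s : Set ℝ)) :=
    (Subalgebra.fg_iff_finiteType _).1 (Subalgebra.fg_adjoin_finset s)
  have hne : (⟨d, hd⟩ : Algebra.adjoin ℤ (s : Set ℝ)) ≠ 0 := fun h => hd0 (congrArg Subtype.val h)
  obtain ⟨m, hm, hdm⟩ := H36.PQ.l1_exists hne
  refine ⟨_ ⧸ m, Ideal.Quotient.field m, H36.PQ.l1_finite m, Ideal.Quotient.mk m, ?_⟩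
  rw [Ne, Ideal.Quotient.eq_zero_iff_mem]
  exact hdm

theorem to_fin {V : Type} [Finite V] {H : SimpleGraph V} {φ : V → R3}
    (hφ : Rep H Set.univ φ) : ∃ (K : Type) (_ : Field K) (_ : Finite K) (ψ : V → Fin 3 → K),
      Rep H Set.univ ψ := by
  classical
  haveI := Fintype.ofFinite V
  let s : Finset ℝ := univ.image fun u : V × Fin 3 => φ u.1 u.2
  let A := Algebra.adjoin ℤ (s : Set ℝ)
  have hmem : ∀ a i, φ a i ∈ A := fun a i =>
    Algebra.subset_adjoin (by
      rw [mem_coe, mem_image]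
      exact ⟨(a, i), mem_univ _, rfl⟩)
  let Φ : V → Fin 3 → A := fun a i => ⟨φ a i, hmem a i⟩
  have hdt : ∀ a b, ((dt (Φ a) (Φ b) : A) : ℝ) = dt (φ a) (φ b) := fun a b => rfl
  have hcr : ∀ a b i, ((cr (Φ a) (Φ b) i : A) : ℝ) = cr (φ a) (φ b) i := by
    intro a b i
    fin_cases i <;> rfl
  -- the nonzero quantities
  let D1 : A := ∏ u : V × V, if dt (Φ u.1) (Φ u.2) = 0 then 1 else dt (Φ u.1) (Φ u.2)
  let D2 : A := ∏ u : (V × V) × Fin 3,
    if cr (Φ u.1.1) (Φ u.1.2) u.2 = 0 then 1 else cr (Φ u.1.1) (Φ u.1.2) u.2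
  let D3 : A := ∏ u : V × Fin 3, if Φ u.1 u.2 = 0 then 1 else Φ u.1 u.2
  have h1 : D1 * D2 * D3 ≠ 0 := by
    refine mul_ne_zero (mul_ne_zero ?_ ?_) ?_ <;>
    · rw [prod_ne_zero_iff]
      intro u _
      split_ifs with h
      · exact one_ne_zero
      · exact h
  obtain ⟨K, hK, hKf, f, hf⟩ := exists_hom s ((D1 * D2 * D3 : A) : ℝ) (D1 * D2 * D3).2
    (fun h => h1 (Subtype.ext h))
  have hf' : f (D1 * D2 * D3) ≠ 0 := hf
  rw [map_mul, map_mul, mul_ne_zero_iff, mul_ne_zero_iff, map_prod, map_prod, map_prod,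
    prod_ne_zero_iff, prod_ne_zero_iff, prod_ne_zero_iff] at hf'
  obtain ⟨⟨g1, g2⟩, g3⟩ := hf'
  let ψ : V → Fin 3 → K := fun a i => f (Φ a i)
  have kdt : ∀ a b, dt (ψ a) (ψ b) = f (dt (Φ a) (Φ b)) := by
    intro a b
    simp [dt, ψ]
  have kcr : ∀ a b i, cr (ψ a) (ψ b) i = f (cr (Φ a) (Φ b) i) := by
    intro a b i
    fin_cases i <;> simp [cr, ψ]
  refine ⟨K, hK, hKf, ψ, fun a _ => ⟨?_, fun b _ hab => ⟨?_, ?_⟩⟩⟩
  · intro h
    obtain ⟨i, hi⟩ : ∃ i, φ a i ≠ 0 := by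
      by_contra hcon
      push Not at hcon
      exact (hφ a trivial).1 (funext hcon)
    have h2 := g3 (a, i) (mem_univ _)
    have h3 : Φ a i ≠ 0 := fun h4 => hi (congrArg Subtype.val h4)
    rw [if_neg h3] at h2
    exact h2 (congrFun h i)
  · rw [kdt]
    constructor
    · intro h
      by_contra hn
      have h2 := g1 (a, b) (mem_univ _)
      have h3 : dt (Φ a) (Φ b) ≠ 0 := fun h4 =>
        hn ((((hφ a trivial).2 b trivial hab).1).1 (by rw [← hdt, h4]; rfl))
      rw [if_neg h3] at h2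
      exact h2 h
    · intro h
      have h3 : dt (Φ a) (Φ b) = 0 := by
        apply Subtype.ext
        rw [hdt]
        exact (((hφ a trivial).2 b trivial hab).1).2 h
      rw [h3, map_zero]
  · intro h
    obtain ⟨i, hi⟩ : ∃ i, cr (φ a) (φ b) i ≠ 0 := by
      by_contra hcon
      push Not at hcon
      exact ((hφ a trivial).2 b trivial hab).2 (funext hcon)
    have h2 := g2 ((a, b), i) (mem_univ _)
    have h3 : cr (Φ a) (Φ b) i ≠ 0 := fun h4 => hi (by rw [← hcr, h4]; rfl)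
    rw [if_neg h3] at h2
    exact h2 (by rw [← kcr, h]; rfl)

end Pool.Agent.H53.GG
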