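import Pool.Agent.H53.GG.ExtRep
import Pool.Agent.H53.GG.Leaf
import Pool.Agent.H53.GG.Pol
import Pool.Agent.H53.GG.Red
import Pool.Agent.H53.GG.Cfg5
import Pool.Agent.H53.GG.Dis

/-!
# Sparse graphs without induced 4-cycles and diamonds are induced subgraphs of geodetic graphs
-/

set_option autoImplicit false

namespace Pool.Agent.H53.GG

open Finset

theorem c4_adj : ∀ i j : Fin 4, C4.Adj i j ↔ (i.val + 1) % 4 = j.val ∨ (j.val + 1) % 4 = i.val := by
  unfold C4
  decide

theorem dia_adj : ∀ i j : Fin 4, Dia.Adj i j ↔ i ≠ j ∧ ¬ (i = 0 ∧ j = 1) ∧ ¬ (i = 1 ∧ j = 0) := by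
  intro i j
  unfold Dia
  rw [SimpleGraph.deleteEdges_adj, SimpleGraph.top_adj]
  revert i j
  decide

theorem cn_of {V : Type} {H : SimpleGraph V} (h : C4DFree H) : CN H := by
  intro a b c d hab hnab hac hbc had hbd
  by_contra hcd
  have e1 := hac.ne
  have e2 := hbc.ne
  have e3 := had.ne
  have e4 := hbd.ne
  by_cases hadj : H.Adj c d
  · apply h.2.false
    refine ⟨⟨![a, b, c, d], ?_⟩, ?_⟩
    · intro i j hij
      fin_cases i <;> fin_cases j <;> simp_all
    · intro i j
      show H.Adj (![a, b, c, d] i) (![a, b, c, d] j) ↔ Dia.Adj i j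
      rw [dia_adj]
      have hnba : ¬ H.Adj b a := fun h => hnab h.symm
      fin_cases i <;> fin_cases j <;>
        simp [hnab, hnba, hac, hbc, had, hbd, hadj, hac.symm, hbc.symm, had.symm, hbd.symm,
          hadj.symm]
  · apply h.1.false
    refine ⟨⟨![a, c, b, d], ?_⟩, ?_⟩
    · intro i j hij
      fin_cases i <;> fin_cases j <;> simp_all
    · intro i j
      show H.Adj (![a, c, b, d] i) (![a, c, b, d] j) ↔ C4.Adj i j
      rw [c4_adj]
      have hnba : ¬ H.Adj b a := fun h => hnab h.symm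
      have hndc : ¬ H.Adj d c := fun h => hadj h.symm
      fin_cases i <;> fin_cases j <;>
        simp [hnab, hnba, hac, hbc, had, hbd, hadj, hndc, hac.symm, hbc.symm, had.symm, hbd.symm]

theorem hh_le {V : Type} (H : SimpleGraph V) (F : Finset V) (u v : V) :
    hh H F u ≤ hv H F u v + 1 := by
  classical
  unfold hh hv
  have h1 : (F.filter fun w => H.Adj u w ∧ 3 ≤ dg H F w) ⊆
      insert v ((F3 H F).filter fun w => H.Adj u w ∧ w ≠ v) := by
    intro w hw
    rw [mem_filter] at hw
    rw [mem_insert, mem_filter, F3, mem_filter]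
    by_cases h : w = v
    · exact Or.inl h
    · exact Or.inr ⟨⟨hw.1, hw.2.2⟩, hw.2.1, h⟩
  exact (card_le_card h1).trans (card_insert_le _ _)

theorem hh_le' {V : Type} (H : SimpleGraph V) (F : Finset V) (u v : V) (hv2 : dg H F v = 2) :
    hh H F u ≤ hv H F u v := by
  classical
  unfold hh hv
  apply card_le_card
  intro w hw
  rw [mem_filter] at hw
  rw [mem_filter, F3, mem_filter]
  refine ⟨⟨hw.1, hw.2.2⟩, hw.2.1, ?_⟩
  rintro rfl
  have := hw.2.2
  omega

theorem step_exists {V : Type} {H : SimpleGraph V} (hCN : CN H) {F : Finset V}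
    (hmin : ∀ v ∈ F, 2 ≤ dg H F v)
    (h : Sparse H F) : Step H F := by
  classical
  by_contra hno
  have hN0 : ∀ a ∈ F, ∀ b ∈ F, H.Adj a b → dg H F a = 2 → dg H F b ≠ 2 :=
    fun a ha b hb hab h1 h2 => hno (step0 hmin ha hb hab h1 h2)
  have hN1 : ∀ a ∈ F, 3 ≤ dg H F a → 2 ≤ hh H F a := by
    intro a ha h1
    by_contra h2
    exact hno (step1 hmin hN0 ha h1 (by omega))
  have hN2 : ∀ a ∈ F, ∀ b ∈ F, H.Adj a b → 3 ≤ dg H F a → 3 ≤ dg H F b → hh H F a = 2 →
      hh H F b ≠ 2 :=
    fun a ha b hb hab h1 h2 h3 h4 => hno (step2 hmin hN0 ha hb hab h1 h2 h3 h4)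
  have hN5 : ∀ a ∈ F, 3 ≤ dg H F a → ∃ b ∈ F, H.Adj a b ∧ 3 ≤ dg H F b ∧ hh H F b ≠ 2 := by
    intro a ha h1
    by_contra h2
    push Not at h2
    exact hno (step5 hCN hmin hN0 hN2 ha h1 h2)
  rcases h with h | h | ⟨u, hu, v, hv, huv, h1, h2⟩ | ⟨v, hv, h⟩
  · have h1 := (dis hmin hN0 hN1 hN2 hN5).1
    omega
  · have h1 := (dis hmin hN0 hN1 hN2 hN5).2
    omega
  · have hu2 := hmin u hu
    have hv2 := hmin v hv
    by_cases h3 : dg H F u = 2
    · have h4 := hN0 u hu v hv huv h3
      have h5 := hN1 v hv (by omega)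
      have h6 := hh_le' H F v u h3
      omega
    · by_cases h4 : dg H F v = 2
      · have h5 := hN1 u hu (by omega)
        have h6 := hh_le' H F u v h4
        omega
      · have h5 := hN1 u hu (by omega)
        have h6 := hN1 v hv (by omega)
        have h7 := hh_le H F u v
        have h8 := hh_le H F v u
        exact hN2 u hu v hv huv (by omega) (by omega) (by omega) (by omega)
  · rw [F3, mem_filter] at hv
    obtain ⟨b, hb, hvb, hb3, hb2⟩ := hN5 v hv.1 hv.2
    have h1 := h b (by rw [F3, mem_filter]; exact ⟨hb, hb3⟩) hvb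
    have h2 := hN1 b hb hb3
    have h3 := hh_le H F b v
    omega

theorem rep_exists {V : Type} {H : SimpleGraph V} (hCN : CN H)
    (h : ∀ F : Finset V, F.Nonempty → (∀ v ∈ F, 2 ≤ dg H F v) → Sparse H F) (F : Finset V) :
    ∃ φ : V → R3, Rep H (F : Set V) φ := by
  classical
  induction F using Finset.strongInduction with
  | H F ih =>
    by_cases hne : F.Nonempty
    · by_cases hmin : ∀ v ∈ F, 2 ≤ dg H F v
      · obtain ⟨O, I, T, J, v, y, par, z, hO, E⟩ := step_exists hCN hmin (h F hne hmin)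
        obtain ⟨φ, hφ⟩ := ih O hO
        exact ext_rep hCN E hφ
      · push Not at hmin
        obtain ⟨v, hv, hv1⟩ := hmin
        obtain ⟨φ, hφ⟩ := ih (F.erase v) (erase_ssubset hv)
        refine rep_leaf (O := F.erase v) (v := v) ?_ ?_ ?_ hφ
        · intro a
          rw [mem_erase]
          constructor
          · intro ha
            by_cases h1 : a = v
            · exact Or.inl h1
            · exact Or.inr ⟨h1, ha⟩
          · rintro (rfl | h1)
            · exact hv
            · exact h1.2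
        · exact notMem_erase _ _
        · intro w hw w' hw' h1 h2
          unfold dg at hv1
          have h3 : (F.filter fun w => H.Adj v w).card ≤ 1 := by omega
          rw [Finset.card_le_one] at h3
          exact h3 w (mem_filter.2 ⟨mem_of_mem_erase hw, h1⟩) w'
            (mem_filter.2 ⟨mem_of_mem_erase hw', h2⟩)
    · rw [Finset.not_nonempty_iff_eq_empty] at hne
      subst hne
      refine ⟨fun _ => 0, fun a ha => ?_⟩
      simp at ha

theorem main {V : Type} [Finite V] (H : SimpleGraph V) (hH : C4DFree H)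
    (h : ∀ F : Finset V, F.Nonempty → (∀ v ∈ F, 2 ≤ dg H F v) → Sparse H F) :
    ∃ (W : Type) (_ : Finite W) (G : SimpleGraph W),
      Geodetic G ∧ (∀ u v, G.dist u v ≤ 2) ∧ Nonempty (H ↪g G) := by
  haveI := Fintype.ofFinite V
  obtain ⟨φ, hφ⟩ := rep_exists (cn_of hH) h Finset.univ
  rw [Finset.coe_univ] at hφ
  obtain ⟨K, hK, hKf, ψ, hψ⟩ := to_fin hφ
  exact pol H ψ hψ

end Pool.Agent.H53.GG
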