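import Mathlib

/-!
# MP_619a4d_co: definitions used in the statements

`C4DFree H`: no induced 4-cycle and no induced diamond. `Geodetic G`: connected and any two vertices
are joined by exactly one shortest path. `dg H F v`: degree of `v` in the subgraph induced by `F`.
`F3 H F`: the vertices of `F` whose degree in the subgraph induced by `F` is at least 3.
`hv H F u v`: number of the neighbours of `u` in `F3 H F` other than `v`.
-/

set_option autoImplicit false

namespace Pool.Agent.H53.GG

/-- the cycle on four vertices -/
def C4 : SimpleGraph (Fin 4) := SimpleGraph.cycleGraph 4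

/-- the diamond `K₄ - e` -/
def Dia : SimpleGraph (Fin 4) := (⊤ : SimpleGraph (Fin 4)).deleteEdges {s(0, 1)}

/-- no induced 4-cycle and no induced diamond -/
def C4DFree {V : Type} (H : SimpleGraph V) : Prop := IsEmpty (C4 ↪g H) ∧ IsEmpty (Dia ↪g H)

/-- connected, and any two vertices are joined by exactly one shortest path -/
def Geodetic {W : Type} (G : SimpleGraph W) : Prop :=
  G.Connected ∧ ∀ (u v : W) (p q : G.Walk u v),
    p.length = G.dist u v → q.length = G.dist u v → p = q

open Classical in
/-- degree of `v` in the subgraph induced by `F` -/
noncomputable def dg {V : Type} (H : SimpleGraph V) (F : Finset V) (v : V) : ℕ :=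
  (F.filter fun w => H.Adj v w).card

open Classical in
/-- the vertices of degree at least 3 in the subgraph induced by `F` -/
noncomputable def F3 {V : Type} (H : SimpleGraph V) (F : Finset V) : Finset V :=
  F.filter fun w => 3 ≤ dg H F w

open Classical in
/-- number of the neighbours `w ≠ v` of `u` of degree at least 3 in the subgraph induced by `F` -/
noncomputable def hv {V : Type} (H : SimpleGraph V) (F : Finset V) (u v : V) : ℕ :=
  ((F3 H F).filter fun w => H.Adj u w ∧ w ≠ v).card

/-- The sparsity condition on a set `F` of vertices: average degree less than `14/5`; or the vertices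
of degree at least 3 span a subgraph of average degree less than `5/2`; or there are adjacent vertices
`u`, `v` each with at most one further neighbour of degree at least 3; or there is a vertex `v` of
degree at least 3 each of whose neighbours of degree at least 3 has at most one further neighbour of
degree at least 3 (all degrees in the subgraph induced by `F`). -/
def Sparse {V : Type} (H : SimpleGraph V) (F : Finset V) : Prop :=
  5 * ∑ v ∈ F, dg H F v < 14 * F.card ∨
  2 * ∑ v ∈ F3 H F, dg H (F3 H F) v < 5 * (F3 H F).card ∨
  (∃ u ∈ F, ∃ v ∈ F, H.Adj u v ∧ hv H F u v ≤ 1 ∧ hv H F v u ≤ 1) ∨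
  ∃ v ∈ F3 H F, ∀ w ∈ F3 H F, H.Adj v w → hv H F w v ≤ 1

end Pool.Agent.H53.GG
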