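import Pool.Agent.H53.GG.Main

/-!
# Reduction to diameter two

`Hp H`: the graph `H` together with a path of length 3 from `u` to `v` for every ordered pair `(u, v)` of
distinct nonadjacent vertices without common neighbour.
-/

set_option autoImplicit false

namespace Pool.Agent.H53.GG

open Finset

theorem free_of_cn {V : Type} {H : SimpleGraph V} (h : CN H) : C4DFree H := by
  constructor
  · constructor
    intro f
    have h1 : ∀ i j, H.Adj (f i) (f j) ↔ C4.Adj i j := fun i j => f.map_rel_iff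
    have h2 := h (f 0) (f 2) (f 1) (f 3) (fun h => by simpa using f.injective h)
      (by rw [h1, c4_adj]; decide) (by rw [h1, c4_adj]; decide) (by rw [h1, c4_adj]; decide)
      (by rw [h1, c4_adj]; decide) (by rw [h1, c4_adj]; decide)
    exact absurd (f.injective h2) (by decide)
  · constructor
    intro f
    have h1 : ∀ i j, H.Adj (f i) (f j) ↔ Dia.Adj i j := fun i j => f.map_rel_iff
    have h2 := h (f 0) (f 1) (f 2) (f 3) (fun h => by simpa using f.injective h)
      (by rw [h1, dia_adj]; decide) (by rw [h1, dia_adj]; decide) (by rw [h1, dia_adj]; decide)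
      (by rw [h1, dia_adj]; decide) (by rw [h1, dia_adj]; decide)
    exact absurd (f.injective h2) (by decide)

/-- distinct nonadjacent vertices without common neighbour -/
def Far {V : Type} (H : SimpleGraph V) (p : V × V) : Prop :=
  p.1 ≠ p.2 ∧ ¬ H.Adj p.1 p.2 ∧ ∀ w, ¬ (H.Adj p.1 w ∧ H.Adj p.2 w)

/-- `H` with paths of length 3 between the far pairs; `(p, false)` is adjacent to `p.1`, `(p, true)` to
`p.2` -/
def Hp {V : Type} (H : SimpleGraph V) : SimpleGraph (V ⊕ ({p : V × V // Far H p} × Bool)) where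
  Adj a b := match a, b with
    | Sum.inl u, Sum.inl v => H.Adj u v
    | Sum.inl u, Sum.inr (p, s) => u = if s then p.1.2 else p.1.1
    | Sum.inr (p, s), Sum.inl u => u = if s then p.1.2 else p.1.1
    | Sum.inr (p, s), Sum.inr (p', s') => p = p' ∧ s ≠ s'
  symm := ⟨by
    rintro (u | ⟨p, s⟩) (v | ⟨p', s'⟩) h
    · exact H.adj_symm h
    · exact h
    · exact h
    · exact ⟨h.1.symm, Ne.symm h.2⟩⟩
  loopless := ⟨by
    rintro (u | ⟨p, s⟩) h
    · exact H.irrefl h
    · exact h.2 rfl⟩

theorem hp_ll {V : Type} {H : SimpleGraph V} {u v : V} :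
    (Hp H).Adj (Sum.inl u) (Sum.inl v) ↔ H.Adj u v := Iff.rfl

theorem hp_lr {V : Type} {H : SimpleGraph V} {u : V} {p : {p : V × V // Far H p}} {s : Bool} :
    (Hp H).Adj (Sum.inl u) (Sum.inr (p, s)) ↔ u = if s then p.1.2 else p.1.1 := Iff.rfl

theorem hp_rl {V : Type} {H : SimpleGraph V} {u : V} {p : {p : V × V // Far H p}} {s : Bool} :
    (Hp H).Adj (Sum.inr (p, s)) (Sum.inl u) ↔ u = if s then p.1.2 else p.1.1 := Iff.rfl

theorem hp_rr {V : Type} {H : SimpleGraph V} {p p' : {p : V × V // Far H p}} {s s' : Bool} :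
    (Hp H).Adj (Sum.inr (p, s)) (Sum.inr (p', s')) ↔ p = p' ∧ s ≠ s' := Iff.rfl

theorem hp_cn {V : Type} {H : SimpleGraph V} (h : CN H) : CN (Hp H) := by
  -- a new vertex and another vertex
  have key : ∀ (p : {p : V × V // Far H p}) (s : Bool) (b c d), Sum.inr (p, s) ≠ b →
      (Hp H).Adj (Sum.inr (p, s)) c → (Hp H).Adj b c → (Hp H).Adj (Sum.inr (p, s)) d →
      (Hp H).Adj b d → c = d := by
    intro p s b c d hab hac hbc had hbd
    by_contra hcd
    -- one of `c`, `d` is the old neighbour, the other one the new neighbour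
    have main : ∀ (u : V) (q : {p : V × V // Far H p} × Bool),
        (Hp H).Adj (Sum.inr (p, s)) (Sum.inl u) → (Hp H).Adj b (Sum.inl u) →
        (Hp H).Adj (Sum.inr (p, s)) (Sum.inr q) → (Hp H).Adj b (Sum.inr q) → False := by
      rintro u ⟨p', s'⟩ h1 h2 h3 h4
      rw [hp_rl] at h1
      obtain ⟨h5, h6⟩ := hp_rr.1 h3
      subst h5
      rcases b with v | ⟨p'', s''⟩
      · rw [hp_ll] at h2
        rw [hp_lr] at h4
        cases s <;> cases s' <;> simp_all
        · exact p.2.2.1 h2.symm
        · exact p.2.2.1 h2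
      · obtain ⟨h7, h8⟩ := hp_rr.1 h4
        subst h7
        apply hab
        cases s <;> cases s' <;> cases s'' <;> simp_all
    rcases c with c | c
    · rcases d with d | d
      · rw [hp_rl] at hac had
        exact hcd (by rw [hac, had])
      · exact main c d hac hbc had hbd
    · rcases d with d | d
      · exact main d c had hbd hac hbc
      · obtain ⟨c1, c2⟩ := c
        obtain ⟨d1, d2⟩ := d
        obtain ⟨h1, h2⟩ := hp_rr.1 hac
        obtain ⟨h3, h4⟩ := hp_rr.1 had
        apply hcd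
        rw [← h1, ← h3]
        cases s <;> cases c2 <;> cases d2 <;> simp_all
  intro a b c d hab hnab hac hbc had hbd
  rcases a with a | ⟨p, s⟩
  · rcases b with b | ⟨p, s⟩
    · -- two old vertices: common neighbours are old
      have hold : ∀ c, (Hp H).Adj (Sum.inl a) c → (Hp H).Adj (Sum.inl b) c →
          ∃ c', c = Sum.inl c' := by
        rintro (c | ⟨p, s⟩) h1 h2
        · exact ⟨c, rfl⟩
        · rw [hp_lr] at h1 h2
          exact absurd (by rw [h1, h2]) hab
      obtain ⟨c, rfl⟩ := hold c hac hbc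
      obtain ⟨d, rfl⟩ := hold d had hbd
      rw [h a b c d (fun h => hab (by rw [h])) hnab hac hbc had hbd]
    · exact key p s _ c d hab.symm hbc hac hbd had
  · exact key p s b c d hab hac hbc had hbd

theorem walk_one {W : Type} {G : SimpleGraph W} {a b : W} (p : G.Walk a b) (h : p.length ≤ 1) :
    a = b ∨ G.Adj a b := by
  cases p with
  | nil => exact Or.inl rfl
  | cons h1 q =>
    cases q with
    | nil => exact Or.inr h1
    | cons h2 r => simp at h

theorem walk_two {W : Type} {G : SimpleGraph W} {a b : W} (p : G.Walk a b) (h : p.length = 2) :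
    ∃ w, G.Adj a w ∧ G.Adj w b := by
  cases p with
  | nil => simp at h
  | cons h1 q =>
    cases q with
    | nil => simp at h
    | cons h2 r =>
      cases r with
      | nil => exact ⟨_, h1, h2⟩
      | cons h3 r' => simp at h

theorem reduce {V W : Type} [Finite W] {H : SimpleGraph V} {G : SimpleGraph W}
    (hG : Geodetic G) (f : Hp H ↪g G) (hne : Nonempty V) :
    ∃ S : Set W, Geodetic (G.induce S) ∧ (∀ u v, (G.induce S).dist u v ≤ 2) ∧
      Nonempty (H ↪g G.induce S) := by
  classical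
  obtain ⟨hconn, huniq⟩ := hG
  -- two different walks of length at most 3 between two vertices
  have hlt : ∀ (a b : W) (n : ℕ) (p q : G.Walk a b), p.length = n + 1 → q.length = n + 1 →
      p ≠ q → G.dist a b ≤ n := by
    intro a b n p q hp hq hpq
    by_contra hcon
    have h1 : G.dist a b ≤ n + 1 := hp ▸ SimpleGraph.dist_le p
    have h2 : G.dist a b = n + 1 := by omega
    exact hpq (huniq a b p q (hp.trans h2.symm) (hq.trans h2.symm))
  have hadjf : ∀ a b, (Hp H).Adj a b → G.Adj (f a) (f b) := fun a b h => f.map_rel_iff.2 h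
  -- the old vertices have distance at most two
  have h0 : ∀ u v : V, G.dist (f (Sum.inl u)) (f (Sum.inl v)) ≤ 2 := by
    intro u v
    by_cases huv : u = v
    · rw [huv, SimpleGraph.dist_self]
      omega
    by_cases hadj : H.Adj u v
    · have h1 := SimpleGraph.dist_le
        (SimpleGraph.Walk.cons (hadjf (Sum.inl u) (Sum.inl v) hadj) SimpleGraph.Walk.nil)
      simp at h1
      omega
    by_cases hex : ∃ w, H.Adj u w ∧ H.Adj v w
    · obtain ⟨w, h1, h2⟩ := hex
      have h3 := SimpleGraph.dist_le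
        (SimpleGraph.Walk.cons (hadjf (Sum.inl u) (Sum.inl w) h1)
          (SimpleGraph.Walk.cons (hadjf (Sum.inl w) (Sum.inl v) h2.symm) SimpleGraph.Walk.nil))
      simp at h3
      omega
    · push Not at hex
      have hf1 : Far H (u, v) := ⟨huv, hadj, fun w hw => hex w hw.1 hw.2⟩
      have hf2 : Far H (v, u) := ⟨Ne.symm huv, fun h => hadj h.symm, fun w hw => hex w hw.2 hw.1⟩
      have a1 : (Hp H).Adj (Sum.inl u) (Sum.inr (⟨(u, v), hf1⟩, false)) := hp_lr.2 rfl
      have a2 : (Hp H).Adj (Sum.inr (⟨(u, v), hf1⟩, false)) (Sum.inr (⟨(u, v), hf1⟩, true)) :=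
        hp_rr.2 ⟨rfl, by decide⟩
      have a3 : (Hp H).Adj (Sum.inr (⟨(u, v), hf1⟩, true)) (Sum.inl v) := hp_rl.2 rfl
      have b1 : (Hp H).Adj (Sum.inl u) (Sum.inr (⟨(v, u), hf2⟩, true)) := hp_lr.2 rfl
      have b2 : (Hp H).Adj (Sum.inr (⟨(v, u), hf2⟩, true)) (Sum.inr (⟨(v, u), hf2⟩, false)) :=
        hp_rr.2 ⟨rfl, by decide⟩
      have b3 : (Hp H).Adj (Sum.inr (⟨(v, u), hf2⟩, false)) (Sum.inl v) := hp_rl.2 rfl
      refine hlt _ _ 2
        (.cons (hadjf _ _ a1) (.cons (hadjf _ _ a2) (.cons (hadjf _ _ a3) .nil)))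
        (.cons (hadjf _ _ b1) (.cons (hadjf _ _ b2) (.cons (hadjf _ _ b3) .nil)))
        (by simp) (by simp) ?_
      intro h
      have h2 := congrArg (fun w => SimpleGraph.Walk.getVert w 1) h
      simp only [SimpleGraph.Walk.getVert_cons_succ, SimpleGraph.Walk.getVert_zero] at h2
      have h3 := f.injective h2
      simp at h3
  -- a maximal set of diameter at most two
  obtain ⟨S, hS0, hS2, hmax⟩ : ∃ S : Set W, (∀ u, f (Sum.inl u) ∈ S) ∧
      (∀ a ∈ S, ∀ b ∈ S, G.dist a b ≤ 2) ∧
      ∀ w, (∀ a ∈ S, G.dist a w ≤ 2) → w ∈ S := by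
    obtain ⟨S, hS⟩ := Set.Finite.exists_maximal
      (s := {S : Set W | (∀ u, f (Sum.inl u) ∈ S) ∧ ∀ a ∈ S, ∀ b ∈ S, G.dist a b ≤ 2})
      (Set.toFinite _)
      ⟨Set.range fun u => f (Sum.inl u), fun u => ⟨u, rfl⟩, by
        rintro _ ⟨u, rfl⟩ _ ⟨v, rfl⟩
        exact h0 u v⟩
    refine ⟨S, hS.1.1, hS.1.2, fun w hw => ?_⟩
    have h1 : insert w S ∈ {S : Set W | (∀ u, f (Sum.inl u) ∈ S) ∧
        ∀ a ∈ S, ∀ b ∈ S, G.dist a b ≤ 2} := by
      refine ⟨fun u => Set.mem_insert_of_mem _ (hS.1.1 u), ?_⟩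
      rintro a (rfl | ha) b (rfl | hb)
      · rw [SimpleGraph.dist_self]
        omega
      · rw [SimpleGraph.dist_comm]
        exact hw b hb
      · exact hw a ha
      · exact hS.1.2 a ha b hb
    exact hS.2 h1 (Set.subset_insert w S) (Set.mem_insert w S)
  -- closed under common neighbours
  have hcl : ∀ a ∈ S, ∀ b ∈ S, ∀ w, a ≠ b → G.Adj a w → G.Adj b w → w ∈ S := by
    intro a ha b hb w hab haw hbw
    apply hmax
    intro x hx
    -- walks from `x` to `a` and `b` of length at most 2
    obtain ⟨p, hp⟩ := hconn.exists_walk_length_eq_dist x a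
    obtain ⟨q, hq⟩ := hconn.exists_walk_length_eq_dist x b
    have hp2 := hS2 x hx a ha
    have hq2 := hS2 x hx b hb
    by_cases h1 : p.length = 2 ∧ q.length = 2
    · refine hlt _ _ 2 (p.concat haw) (q.concat hbw) (by simp [h1.1]) (by simp [h1.2]) ?_
      intro h
      have h2 := congrArg (fun r => SimpleGraph.Walk.penultimate r) h
      simp at h2
      exact hab h2
    · have h2 : G.dist x w ≤ p.length + 1 := by
        have := SimpleGraph.dist_le (p.concat haw)
        rwa [SimpleGraph.Walk.length_concat] at this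
      have h3 : G.dist x w ≤ q.length + 1 := by
        have := SimpleGraph.dist_le (q.concat hbw)
        rwa [SimpleGraph.Walk.length_concat] at this
      omega
  have hneS : Nonempty S := by
    obtain ⟨u⟩ := hne
    exact ⟨⟨_, hS0 u⟩⟩
  obtain ⟨k1, k2⟩ := geo_of_unique (G.induce S) (by
    rintro ⟨a, ha⟩ ⟨b, hb⟩ hab hnadj
    have hab' : a ≠ b := fun h => hab (Subtype.ext h)
    have hnadj' : ¬ G.Adj a b := hnadj
    obtain ⟨p, hp⟩ := hconn.exists_walk_length_eq_dist a b
    have h1 := hS2 a ha b hb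
    have h2 : p.length ≤ 2 := by omega
    have h3 : 2 ≤ G.dist a b := by
      by_contra hcon
      rcases walk_one p (by omega) with h4 | h4
      · exact hab' h4
      · exact hnadj' h4
    obtain ⟨w, h5, h6⟩ := walk_two p (by omega)
    refine ⟨⟨w, hcl a ha b hb w hab' h5 h6.symm⟩, h5, h6, ?_⟩
    rintro ⟨w', hw'⟩ h7 h8
    have h7' : G.Adj a w' := h7
    have h8' : G.Adj w' b := h8
    have h9 := huniq a b (.cons h5 (.cons h6 .nil)) (.cons h7' (.cons h8' .nil))
      (by simp; omega) (by simp; omega)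
    have h10 := congrArg (fun w => SimpleGraph.Walk.getVert w 1) h9
    simp only [SimpleGraph.Walk.getVert_cons_succ, SimpleGraph.Walk.getVert_zero] at h10
    exact Subtype.ext h10.symm)
  refine ⟨S, k1, k2, ⟨⟨⟨fun u => ⟨f (Sum.inl u), hS0 u⟩, ?_⟩, ?_⟩⟩⟩
  · intro u v h
    have h1 := congrArg Subtype.val h
    have h2 := f.injective h1
    exact Sum.inl_injective h2
  · intro u v
    show G.Adj _ _ ↔ _
    exact f.map_rel_iff

end Pool.Agent.H53.GG
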