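import Pool.Agent.H53.GG.Defs

/-!
# Vector algebra in dimension 3 and generic vectors

`NV q f`: the function `f` is polynomial along lines and does not vanish identically on the plane
(or space, for `q = 0`) of the vectors orthogonal to `q`. A finite product of such functions has the
same property.
-/

set_option autoImplicit false

namespace Pool.Agent.H53.GG

open Finset

section ring
variable {K : Type} [CommRing K]

theorem dt_comm (a b : Fin 3 → K) : dt a b = dt b a := by
  simp only [dt]; ring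

theorem dt_cr_left (a b : Fin 3 → K) : dt a (cr a b) = 0 := by
  simp [dt, cr]; ring

theorem dt_cr_right (a b : Fin 3 → K) : dt b (cr a b) = 0 := by
  simp [dt, cr]; ring

theorem lagr (a b c d : Fin 3 → K) : dt (cr a b) (cr c d) = dt a c * dt b d - dt a d * dt b c := by
  simp [dt, cr]; ring

theorem cr_cr (a b c : Fin 3 → K) (i : Fin 3) :
    cr a (cr b c) i = b i * dt a c - c i * dt a b := by
  fin_cases i <;> simp [dt, cr] <;> ring

theorem cr_anti (a b : Fin 3 → K) (i : Fin 3) : cr a b i = - cr b a i := by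
  fin_cases i <;> simp [cr] <;> ring

theorem dt_rot (a b c : Fin 3 → K) : dt a (cr b c) = dt (cr a b) c := by
  simp [dt, cr]; ring

theorem dt_zero_left (b : Fin 3 → K) : dt 0 b = 0 := by simp [dt]

theorem dt_zero_right (b : Fin 3 → K) : dt b 0 = 0 := by simp [dt]

theorem cr_zero_left (b : Fin 3 → K) : cr 0 b = 0 := by
  funext i; fin_cases i <;> simp [cr]

theorem cr_zero_right (b : Fin 3 → K) : cr b 0 = 0 := by
  funext i; fin_cases i <;> simp [cr]

end ring

/-- real 3-vectors -/
abbrev R3 : Type := Fin 3 → ℝ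

theorem dt_self {a : R3} : dt a a = 0 ↔ a = 0 := by
  constructor
  · intro h
    simp only [dt] at h
    funext i
    fin_cases i
    · show a 0 = 0
      nlinarith [mul_self_nonneg (a 0), mul_self_nonneg (a 1), mul_self_nonneg (a 2)]
    · show a 1 = 0
      nlinarith [mul_self_nonneg (a 0), mul_self_nonneg (a 1), mul_self_nonneg (a 2)]
    · show a 2 = 0
      nlinarith [mul_self_nonneg (a 0), mul_self_nonneg (a 1), mul_self_nonneg (a 2)]
  · rintro rfl
    simp [dt]

theorem dt_pos {a : R3} (h : a ≠ 0) : 0 < dt a a := by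
  have h1 : dt a a ≠ 0 := fun h2 => h (dt_self.1 h2)
  have h2 : 0 ≤ dt a a := by
    simp only [dt]
    nlinarith [mul_self_nonneg (a 0), mul_self_nonneg (a 1), mul_self_nonneg (a 2)]
  exact lt_of_le_of_ne h2 h1.symm

/-- orthogonal nonzero vectors are not proportional -/
theorem cr_ne_of_orth {a b : R3} (ha : a ≠ 0) (hb : b ≠ 0) (h : dt a b = 0) : cr a b ≠ 0 := by
  intro h1
  have h2 := lagr a b a b
  rw [h1, dt_zero_left, dt_comm b a, h] at h2
  have h3 := dt_pos ha
  have h4 := dt_pos hb
  nlinarith [mul_pos h3 h4]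

/-- `w` is not orthogonal to all vectors which are orthogonal to `q` -/
def NP (q w : R3) : Prop := ∃ x : R3, dt q x = 0 ∧ dt w x ≠ 0

theorem np_of_cr {q w : R3} (h : cr w q ≠ 0) : NP q w := by
  refine ⟨cr q (cr w q), dt_cr_left _ _, ?_⟩
  rw [dt_rot]
  exact fun h2 => h (dt_self.1 h2)

theorem np_zero {w : R3} (h : w ≠ 0) : NP 0 w :=
  ⟨w, dt_zero_left _, fun h2 => h (dt_self.1 h2)⟩

/-- `u` is orthogonal to some `y` which is not orthogonal to `q` -/
theorem np_of {q u y : R3} (hu : u ≠ 0) (h : dt u y = 0) (hq : q = 0 ∨ dt y q ≠ 0) : NP q u := by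
  rcases hq with rfl | hq
  · exact np_zero hu
  · refine ⟨fun i => u i * dt y q - y i * dt u q, ?_, ?_⟩
    · simp only [dt]; ring
    · have h1 : dt u (fun i => u i * dt y q - y i * dt u q) = dt u u * dt y q - dt u y * dt u q := by
        simp only [dt]; ring
      rw [h1, h, zero_mul, sub_zero]
      exact mul_ne_zero (fun h2 => hu (dt_self.1 h2)) hq

/-- two linear equations have a nonzero solution -/
theorem exists_perp (q a : R3) : ∃ x : R3, x ≠ 0 ∧ dt q x = 0 ∧ dt a x = 0 := by
  by_cases h : cr q a = 0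
  · by_cases hq : q = 0
    · subst hq
      -- any vector orthogonal to `a`
      by_cases ha : a = 0
      · exact ⟨![1, 0, 0], fun h => by simpa using congrFun h 0, dt_zero_left _, by rw [ha]; exact dt_zero_left _⟩
      · by_cases h0 : a 0 = 0
        · exact ⟨![1, 0, 0], fun h => by simpa using congrFun h 0, dt_zero_left _, by simp [dt, h0]⟩
        · refine ⟨![-(a 1), a 0, 0], fun h => h0 (by simpa using congrFun h 1), dt_zero_left _, ?_⟩
          simp [dt]; ring
    · -- `a` is proportional to `q`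
      have h1 : ∀ x : R3, dt q x = 0 → dt a x = 0 := by
        intro x hx
        have h2 := lagr q a q x
        rw [h, dt_zero_left, hx, zero_mul, sub_zero] at h2
        rcases mul_eq_zero.1 h2.symm with h3 | h3
        · exact absurd (dt_self.1 h3) hq
        · exact h3
      by_cases h0 : q 0 = 0
      · have h2 : dt q ![1, 0, 0] = 0 := by simp [dt, h0]
        exact ⟨![1, 0, 0], fun h => by simpa using congrFun h 0, h2, h1 _ h2⟩
      · have h2 : dt q ![-(q 1), q 0, 0] = 0 := by simp [dt]; ring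
        exact ⟨![-(q 1), q 0, 0], fun h => h0 (by simpa using congrFun h 1), h2, h1 _ h2⟩
  · exact ⟨cr q a, h, dt_cr_left _ _, dt_cr_right _ _⟩

/-- every vector orthogonal to `y` is `y × x` for an `x` orthogonal to `q` -/
theorem exists_cr_eq {q y : R3} (hy : y ≠ 0) (hq : q = 0 ∨ dt y q ≠ 0) {b : R3} (hb : dt y b = 0) :
    ∃ x : R3, dt q x = 0 ∧ cr y x = b := by
  have hyy : dt y y ≠ 0 := fun h2 => hy (dt_self.1 h2)
  have key : ∀ l : ℝ, cr y (fun i => (cr b y i) / dt y y + l * y i) = b := by
    intro l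
    have h1 : ∀ i, cr y (fun i => (cr b y i) / dt y y + l * y i) i = cr y (cr b y) i / dt y y := by
      intro i
      fin_cases i <;> simp [cr] <;> ring
    funext i
    rw [h1, cr_cr, hb, mul_zero, sub_zero]
    field_simp
  rcases hq with rfl | hq
  · exact ⟨_, dt_zero_left _, key 0⟩
  · refine ⟨_, ?_, key (-(dt (cr b y) q / (dt y y * dt y q)))⟩
    have h1 : dt q (fun i => (cr b y i) / dt y y + -(dt (cr b y) q / (dt y y * dt y q)) * y i) =
        dt (cr b y) q / dt y y + -(dt (cr b y) q / (dt y y * dt y q)) * dt y q := by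
      simp only [dt]; ring
    rw [h1]
    field_simp
    ring

/-! ### functions which are polynomial along lines -/

/-- polynomial along lines -/
def PL (f : R3 → ℝ) : Prop :=
  ∀ a b : R3, ∃ P : Polynomial ℝ, ∀ t : ℝ, f (fun i => a i + t * b i) = P.eval t

/-- all coordinates are polynomial along lines -/
def PV (g : R3 → R3) : Prop := ∀ i, PL (fun x => g x i)

theorem PL.const (c : ℝ) : PL (fun _ => c) := fun _ _ => ⟨Polynomial.C c, fun t => by simp⟩

theorem PL.add {f g : R3 → ℝ} (hf : PL f) (hg : PL g) : PL (fun x => f x + g x) := by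
  intro a b
  obtain ⟨P, hP⟩ := hf a b
  obtain ⟨Q, hQ⟩ := hg a b
  exact ⟨P + Q, fun t => by simp [hP, hQ]⟩

theorem PL.sub {f g : R3 → ℝ} (hf : PL f) (hg : PL g) : PL (fun x => f x - g x) := by
  intro a b
  obtain ⟨P, hP⟩ := hf a b
  obtain ⟨Q, hQ⟩ := hg a b
  exact ⟨P - Q, fun t => by simp [hP, hQ]⟩

theorem PL.mul {f g : R3 → ℝ} (hf : PL f) (hg : PL g) : PL (fun x => f x * g x) := by
  intro a b
  obtain ⟨P, hP⟩ := hf a b
  obtain ⟨Q, hQ⟩ := hg a b
  exact ⟨P * Q, fun t => by simp [hP, hQ]⟩

theorem PV.id : PV (fun x => x) := fun i a b =>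
  ⟨Polynomial.C (a i) + Polynomial.X * Polynomial.C (b i), fun t => by simp; ring⟩

theorem PV.const (c : R3) : PV (fun _ => c) := fun i => PL.const (c i)

theorem PL.dt {f g : R3 → R3} (hf : PV f) (hg : PV g) : PL (fun x => dt (f x) (g x)) := by
  unfold GG.dt
  exact (((hf 0).mul (hg 0)).add ((hf 1).mul (hg 1))).add ((hf 2).mul (hg 2))

theorem PV.cr {f g : R3 → R3} (hf : PV f) (hg : PV g) : PV (fun x => cr (f x) (g x)) := by
  intro i
  fin_cases i
  · exact ((hf 1).mul (hg 2)).sub ((hf 2).mul (hg 1))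
  · exact ((hf 2).mul (hg 0)).sub ((hf 0).mul (hg 2))
  · exact ((hf 0).mul (hg 1)).sub ((hf 1).mul (hg 0))

/-- polynomial along lines and not identically zero on the vectors orthogonal to `q` -/
def NV (q : R3) (f : R3 → ℝ) : Prop := PL f ∧ ∃ x : R3, dt q x = 0 ∧ f x ≠ 0

theorem NV.one (q : R3) : NV q (fun _ => 1) :=
  ⟨PL.const 1, 0, dt_zero_right _, one_ne_zero⟩

theorem NV.mul {q : R3} {f g : R3 → ℝ} (hf : NV q f) (hg : NV q g) : NV q (fun x => f x * g x) := by
  refine ⟨hf.1.mul hg.1, ?_⟩
  obtain ⟨a, ha, hfa⟩ := hf.2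
  obtain ⟨b, hb, hgb⟩ := hg.2
  obtain ⟨P, hP⟩ := hf.1 a (fun i => b i - a i)
  obtain ⟨Q, hQ⟩ := hg.1 a (fun i => b i - a i)
  have hP0 : P ≠ 0 := by
    rintro rfl
    have h := hP 0
    simp only [zero_mul, add_zero, Polynomial.eval_zero] at h
    exact hfa h
  have hQ0 : Q ≠ 0 := by
    rintro rfl
    have h := hQ 1
    simp only [one_mul, add_sub_cancel, Polynomial.eval_zero] at h
    exact hgb h
  have hPQ : P * Q ≠ 0 := mul_ne_zero hP0 hQ0
  obtain ⟨t, ht⟩ : ∃ t : ℝ, (P * Q).eval t ≠ 0 := by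
    by_contra hcon
    push Not at hcon
    exact hPQ (Polynomial.funext (fun t => by rw [hcon t, Polynomial.eval_zero]))
  refine ⟨fun i => a i + t * (b i - a i), ?_, ?_⟩
  · have h1 : dt q (fun i => a i + t * (b i - a i)) = dt q a + t * (dt q b - dt q a) := by
      simp only [dt]; ring
    rw [h1, ha, hb]
    ring
  · show f _ * g _ ≠ 0
    rw [hP, hQ, ← Polynomial.eval_mul]
    exact ht

theorem NV.prod {ι : Type} {q : R3} (s : Finset ι) (f : ι → R3 → ℝ) (h : ∀ i ∈ s, NV q (f i)) :
    NV q (fun x => ∏ i ∈ s, f i x) := by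
  classical
  induction s using Finset.induction_on with
  | empty => simpa using NV.one q
  | insert i s his ih =>
    have h1 := (h i (mem_insert_self i s)).mul (ih fun j hj => h j (mem_insert_of_mem hj))
    have h2 : (fun x => ∏ j ∈ insert i s, f j x) = fun x => f i x * ∏ j ∈ s, f j x := by
      funext x
      rw [prod_insert his]
    rw [h2]
    exact h1

end Pool.Agent.H53.GG
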